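import Mathlib
import Pool.Agent.Helper9.NS
import Pool.Agent.Helper26.VC.Cycles
import Pool.Agent.Helper94.VQ.Act

/-!
# Auxiliary definitions
-/

set_option autoImplicit false

namespace BQ

open VC VQ VP Function IntermediateField

universe u

section curve

variable {k E : Type u} [Field k] [Field E] [Algebra k E]

instance finite_range {W : Type*} [Group W] [Finite W] (a : W →* (E ≃ₐ[k] E)) :
    Finite a.range :=
  Finite.of_surjective a.rangeRestrict a.rangeRestrict_surjective

variable {W : Type*} [Group W] {a : W →* (E ≃ₐ[k] E)} {χ : W →* kˣ} {y : E}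

/-- The function `Ψ` on the tuples of points of the curve, extended linearly to zero-cycles on the
power of the curve, vanishes on the divisors of functions on curves mapped to this power. -/
def KillsC (hE : IsFunctionField k E) {J : Type*} (Ψ : (J → Place k E) → k) : Prop :=
  ∀ (K : Type u) [Field K] [Algebra k K] (hK : IsFunctionField k K) (z : J → (curve hE).Mor K)
    (T : K), T ≠ 0 →
    ∑ᶠ v : Place k K, (ord v.ring T : k) * Ψ (fun j => (curve hE).eval hK (z j) v) = 0

end curve

section induced

variable {k : Type u} [Field k] {Γ : Type*} [Group Γ] [Fintype Γ]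

open Classical in
/-- The character of `Γ` induced by the character `χ` of the subgroup `W`. -/
noncomputable def indChar (W : Subgroup Γ) (χ : W →* kˣ) (g : Γ) : k :=
  (Nat.card W : k)⁻¹ * ∑ x : Γ, if h : x⁻¹ * g * x ∈ W then ((χ ⟨_, h⟩ : kˣ) : k) else 0

end induced

section product

variable {k : Type u} [Field k]
  {F₁ F₂ : Type u} [Field F₁] [Algebra k F₁] [Field F₂] [Algebra k F₂]
  {V₁ : Subgroup (F₁ ≃ₐ[k] F₁)} {V₂ : Subgroup (F₂ ≃ₐ[k] F₂)}

/-- The action of a subgroup of `G` on the first curve. -/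
def act₁ {G : Subgroup (V₁ × V₂)} (W : Subgroup G) : W →* (F₁ ≃ₐ[k] F₁) :=
  V₁.subtype.comp ((MonoidHom.fst V₁ V₂).comp (G.subtype.comp W.subtype))

/-- The action of a subgroup of `G` on the second curve. -/
def act₂ {G : Subgroup (V₁ × V₂)} (W : Subgroup G) : W →* (F₂ ≃ₐ[k] F₂) :=
  V₂.subtype.comp ((MonoidHom.snd V₁ V₂).comp (G.subtype.comp W.subtype))

variable (h₁ : IsFunctionField k F₁) (h₂ : IsFunctionField k F₂) (G : Subgroup (V₁ × V₂))
  {n : ℕ}

/-- The maps of `C₁ × C₂` to itself used to decompose functions. -/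
noncomputable def rmap (o : Place k F₁ × Place k F₂) (u : G × Bool × Bool)
    (p : Place k F₁ × Place k F₂) : Place k F₁ × Place k F₂ :=
  (act h₁ u.1.1.1.1 (if u.2.1 then o.1 else p.1), if u.2.2 then o.2 else p.2)

/-- sign -/
def sgn (b : Bool) : k := if b then -1 else 1

open Classical in
/-- The coefficients of the operator for the pair `(W, χ)`. -/
noncomputable def kap (W : Subgroup G) (χ : W →* kˣ) (u : G × Bool × Bool) : k :=
  (Nat.card W : k)⁻¹ * (if h : u.1 ∈ W then (((χ ⟨u.1, h⟩)⁻¹ : kˣ) : k) else 0) *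
    (if χ = 1 then sgn u.2.1 * sgn u.2.2 else if u.2.1 || u.2.2 then 0 else 1)

variable {Λ : Type*} (W : Λ → Subgroup G) (χ : ∀ l, W l →* kˣ)

/-- The component of `Θ` of type `c`. -/
noncomputable def comp [Fintype G] (o : Place k F₁ × Place k F₂)
    (Θ : (Fin n → Place k F₁ × Place k F₂) → k) (c : Fin n → Λ)
    (p : Fin n → Place k F₁ × Place k F₂) : k :=
  ∑ u : Fin n → G × Bool × Bool, (∏ i, kap G (W (c i)) (χ (c i)) (u i)) *
    Θ (fun i => rmap h₁ G o (u i) (p i))

end product

end BQ
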