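import Mathlib
import Pool.Agent.Helper9.NS
import Pool.Agent.Helper7.BQ.A2

/-!
# Components of functions on powers of a product of curves, for characters of subgroups of
# two groups of automorphisms

This extends the blocks A2 (helper7) and A3 (helper79) from characters of subgroups of `G` to pairs
of characters of subgroups of `V₁` and `V₂`.
-/

set_option autoImplicit false
set_option linter.unusedSectionVars false

namespace BQ

open VC VQ VP VF Function IntermediateField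

universe u

section onefactor

variable {k : Type*} [Field k] {V : Type*} [Group V]

open Classical in
/-- The coefficients of the operator for one character. -/
noncomputable def kap1 (U : Subgroup V) (χ : U →* kˣ) (u : V × Bool) : k :=
  (if h : u.1 ∈ U then (((χ ⟨u.1, h⟩)⁻¹ : kˣ) : k) else 0) *
    (if χ = 1 then sgn u.2 else if u.2 then 0 else 1)

/-- left translation of the group component, if the flag is off -/
def transE (w : V) : V × Bool ≃ V × Bool where
  toFun u := (if u.2 then u.1 else w * u.1, u.2)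
  invFun u := (if u.2 then u.1 else w⁻¹ * u.1, u.2)
  left_inv := by rintro ⟨g, b⟩; cases b <;> simp
  right_inv := by rintro ⟨g, b⟩; cases b <;> simp

/-- flipping the flag -/
def flipE : V × Bool ≃ V × Bool where
  toFun u := (u.1, !u.2)
  invFun u := (u.1, !u.2)
  left_inv := by rintro ⟨g, b⟩; simp
  right_inv := by rintro ⟨g, b⟩; simp

lemma kap1_trans (U : Subgroup V) (χ : U →* kˣ) (w : U) (v : V) :
    kap1 U χ (v, false) = (χ w : k) * kap1 U χ (transE (w : V) (v, false)) := by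
  have e0 : transE (w : V) (v, false) = ((w : V) * v, false) := rfl
  rw [e0]
  unfold kap1
  by_cases hg : v ∈ U
  · have hg' : (w : V) * v ∈ U := U.mul_mem w.2 hg
    rw [dif_pos hg, dif_pos hg']
    have e3 : (⟨(w : V) * v, hg'⟩ : U) = w * ⟨v, hg⟩ := rfl
    rw [e3, map_mul, mul_inv, Units.val_mul]
    have e4 : (χ w : k) * (((χ w)⁻¹ : kˣ) : k) = 1 := by simp
    rw [← mul_assoc, ← mul_assoc, e4, one_mul]
  · have hg' : ¬ (w : V) * v ∈ U := fun h => hg ((U.mul_mem_cancel_left w.2).mp h)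
    rw [dif_neg hg, dif_neg hg']
    ring

lemma kap1_flag (U : Subgroup V) (χ : U →* kˣ) (hχ : χ ≠ 1) (v : V) :
    kap1 U χ (v, true) = 0 := by
  unfold kap1
  rw [if_neg hχ]
  simp

lemma kap1_flip (U : Subgroup V) (χ : U →* kˣ) (hχ : χ = 1) (u : V × Bool) :
    kap1 U χ (flipE u) = - kap1 U χ u := by
  have e0 : flipE u = (u.1, !u.2) := rfl
  rw [e0]
  unfold kap1
  rw [if_pos hχ, if_pos hχ]
  change _ * sgn (!u.2) = _
  rw [A2.sgn_not]
  ring

end onefactor

section comp

variable {k : Type u} [Field k] [IsAlgClosed k] [CharZero k]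
  {F₁ F₂ : Type u} [Field F₁] [Algebra k F₁] [Field F₂] [Algebra k F₂]
  {V₁ : Subgroup (F₁ ≃ₐ[k] F₁)} {V₂ : Subgroup (F₂ ≃ₐ[k] F₂)} [Fintype V₁] [Fintype V₂]
  (h₁ : IsFunctionField k F₁) (h₂ : IsFunctionField k F₂)
  {n : ℕ} {Λ : Type*} (U₁ : Λ → Subgroup V₁) (χ₁ : ∀ l, U₁ l →* kˣ)
  (U₂ : Λ → Subgroup V₂) (χ₂ : ∀ l, U₂ l →* kˣ) (o : Place k F₁ × Place k F₂)
  (Θ : (Fin n → Place k F₁ × Place k F₂) → k) (c : Fin n → Λ)

/-- The maps of `C₁ × C₂` to itself used to decompose functions. -/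
noncomputable def rmapH (u : (V₁ × Bool) × (V₂ × Bool)) (p : Place k F₁ × Place k F₂) :
    Place k F₁ × Place k F₂ :=
  (act h₁ u.1.1.1 (if u.1.2 then o.1 else p.1), act h₂ u.2.1.1 (if u.2.2 then o.2 else p.2))

/-- The coefficients. -/
noncomputable def kapH (l : Λ) (u : (V₁ × Bool) × (V₂ × Bool)) : k :=
  kap1 (U₁ l) (χ₁ l) u.1 * kap1 (U₂ l) (χ₂ l) u.2

/-- The component of `Θ` of type `c`. -/
noncomputable def compH (p : Fin n → Place k F₁ × Place k F₂) : k :=
  ∑ u : Fin n → (V₁ × Bool) × (V₂ × Bool), (∏ i, kapH U₁ χ₁ U₂ χ₂ (c i) (u i)) *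
    Θ (fun i => rmapH h₁ h₂ o (u i) (p i))

theorem compH_kills (hΘ : Kills (((curve h₁).prod (curve h₂)).pow n) Θ) :
    Kills (((curve h₁).prod (curve h₂)).pow n) (compH h₁ h₂ U₁ χ₁ U₂ χ₂ o Θ c) := by
  have hr : ∀ u : Fin n → (V₁ × Bool) × (V₂ × Bool),
      Induced (((curve h₁).prod (curve h₂)).pow n) (((curve h₁).prod (curve h₂)).pow n)
        (fun (p : Fin n → Place k F₁ × Place k F₂) i => rmapH h₁ h₂ o (u i) (p i)) := by
    intro u K _ _ hK m
    refine ⟨fun i => (actM h₁ (u i).1.1.1 (if (u i).1.2 then Sum.inl o.1 else (m i).1),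
      actM h₂ (u i).2.1.1 (if (u i).2.2 then Sum.inl o.2 else (m i).2)), fun v => ?_⟩
    funext i
    change ((curve h₁).eval hK (actM h₁ (u i).1.1.1 (if (u i).1.2 then Sum.inl o.1
      else (m i).1)) v, (curve h₂).eval hK (actM h₂ (u i).2.1.1
        (if (u i).2.2 then Sum.inl o.2 else (m i).2)) v) =
      (act h₁ (u i).1.1.1 (if (u i).1.2 then o.1 else (curve h₁).eval hK (m i).1 v),
        act h₂ (u i).2.1.1 (if (u i).2.2 then o.2 else (curve h₂).eval hK (m i).2 v))
    rw [eval_actM, eval_actM]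
    refine Prod.ext ?_ ?_
    · by_cases hb : (u i).1.2 = true
      · simp only [hb, if_true]
      · simp only [hb]; rfl
    · by_cases hb : (u i).2.2 = true
      · simp only [hb, if_true]
      · simp only [hb]; rfl
  exact Kills.sum (X := ((curve h₁).prod (curve h₂)).pow n) Finset.univ
    (f := fun (u : Fin n → (V₁ × Bool) × (V₂ × Bool)) (p : Fin n → Place k F₁ × Place k F₂) =>
      (∏ i, kapH U₁ χ₁ U₂ χ₂ (c i) (u i)) * Θ (fun i => rmapH h₁ h₂ o (u i) (p i)))
    (fun u _ => Kills.smul _ (hΘ.comp (hr u)))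

theorem compH_swap (hΘ : ∀ i j, i ≠ j → ∀ p, Θ (fun l => p (Equiv.swap i j l)) = - Θ p)
    (i j : Fin n) (hij : i ≠ j) (hc : c i = c j) (p : Fin n → Place k F₁ × Place k F₂) :
    compH h₁ h₂ U₁ χ₁ U₂ χ₂ o Θ c (fun l => p (Equiv.swap i j l)) =
      - compH h₁ h₂ U₁ χ₁ U₂ χ₂ o Θ c p := by
  have hc' : ∀ l, c (Equiv.swap i j l) = c l := by
    intro l
    by_cases h1 : l = i
    · rw [h1, Equiv.swap_apply_left, hc]
    · by_cases h2 : l = j
      · rw [h2, Equiv.swap_apply_right, hc]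
      · rw [Equiv.swap_apply_of_ne_of_ne h1 h2]
  unfold compH
  rw [← Finset.sum_neg_distrib]
  refine Fintype.sum_equiv (Equiv.arrowCongr (Equiv.swap i j)
    (Equiv.refl ((V₁ × Bool) × (V₂ × Bool)))) _ _ (fun u => ?_)
  have hu : ∀ l, (Equiv.arrowCongr (Equiv.swap i j)
      (Equiv.refl ((V₁ × Bool) × (V₂ × Bool)))) u l = u (Equiv.swap i j l) := fun l => rfl
  simp only [hu]
  have h1 : Θ (fun l => rmapH h₁ h₂ o (u l) (p (Equiv.swap i j l))) =
      - Θ (fun l => rmapH h₁ h₂ o (u (Equiv.swap i j l)) (p l)) := by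
    rw [← hΘ i j hij]
    congr 1
    funext l
    rw [Equiv.swap_apply_self]
  have h2 : ∏ l, kapH U₁ χ₁ U₂ χ₂ (c l) (u (Equiv.swap i j l)) =
      ∏ l, kapH U₁ χ₁ U₂ χ₂ (c l) (u l) := by
    rw [← Equiv.prod_comp (Equiv.swap i j) (fun l => kapH U₁ χ₁ U₂ χ₂ (c l) (u l))]
    refine Finset.prod_congr rfl (fun l _ => ?_)
    exact (congrArg (fun m => kapH U₁ χ₁ U₂ χ₂ m (u (Equiv.swap i j l))) (hc' l)).symm
  rw [h1, h2, mul_neg]

theorem compH_left (i : Fin n) (w : U₁ (c i)) (p : Fin n → Place k F₁ × Place k F₂) :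
    compH h₁ h₂ U₁ χ₁ U₂ χ₂ o Θ c (update p i (act h₁ w.1.1 (p i).1, (p i).2)) =
      (χ₁ (c i) w : k) * compH h₁ h₂ U₁ χ₁ U₂ χ₂ o Θ c p := by
  unfold compH
  refine A2.reindex i (Equiv.prodCongr (transE (w : V₁)) (Equiv.refl _)) _
    (fun l => kapH U₁ χ₁ U₂ χ₂ (c l))
    (fun u => Θ (fun l => rmapH h₁ h₂ o (u l) (p l)))
    (fun u => Θ (fun l => rmapH h₁ h₂ o (u l)
      (update p i (act h₁ w.1.1 (p i).1, (p i).2) l))) (fun u => ?_)
  obtain ⟨⟨⟨v₁, b₁⟩, u₂⟩, hui⟩ : ∃ z, u i = z := ⟨u i, rfl⟩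
  rw [hui]
  cases b₁ with
  | true =>
    have e0 : (Equiv.prodCongr (transE (w : V₁)) (Equiv.refl (V₂ × Bool))) ((v₁, true), u₂) =
        ((v₁, true), u₂) := rfl
    rw [e0]
    by_cases hχ : χ₁ (c i) = 1
    · have e1 : (χ₁ (c i) w : k) = 1 := by rw [hχ]; simp
      have e2 : (fun l => rmapH h₁ h₂ o (u l)
          (update p i (act h₁ w.1.1 (p i).1, (p i).2) l)) =
          (fun l => rmapH h₁ h₂ o (update u i ((v₁, true), u₂) l) (p l)) := by
        funext l
        by_cases hl : l = i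
        · rw [hl, update_self, update_self, hui]
          rfl
        · rw [update_of_ne hl, update_of_ne hl]
      rw [e1, one_mul]
      simp only [e2]
    · have e1 : kapH U₁ χ₁ U₂ χ₂ (c i) ((v₁, true), u₂) = 0 := by
        unfold kapH
        rw [kap1_flag _ _ hχ, zero_mul]
      simp only [e1, zero_mul, mul_zero]
  | false =>
    have e0 : (Equiv.prodCongr (transE (w : V₁)) (Equiv.refl (V₂ × Bool))) ((v₁, false), u₂) =
        (((w : V₁) * v₁, false), u₂) := rfl
    rw [e0]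
    have e2 : (fun l => rmapH h₁ h₂ o (u l)
        (update p i (act h₁ w.1.1 (p i).1, (p i).2) l)) =
        (fun l => rmapH h₁ h₂ o (update u i (((w : V₁) * v₁, false), u₂) l) (p l)) := by
      funext l
      by_cases hl : l = i
      · rw [hl, update_self, update_self, hui]
        unfold rmapH
        simp only [Bool.false_eq_true, if_false]
        refine Prod.ext ?_ rfl
        exact (act_mul h₁ _ _ _).symm
      · rw [update_of_ne hl, update_of_ne hl]
    simp only [e2]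
    unfold kapH
    rw [kap1_trans (U₁ (c i)) (χ₁ (c i)) w v₁]
    have e3 : transE (w : V₁) (v₁, false) = ((w : V₁) * v₁, false) := rfl
    rw [e3]
    ring

theorem compH_right (i : Fin n) (w : U₂ (c i)) (p : Fin n → Place k F₁ × Place k F₂) :
    compH h₁ h₂ U₁ χ₁ U₂ χ₂ o Θ c (update p i ((p i).1, act h₂ w.1.1 (p i).2)) =
      (χ₂ (c i) w : k) * compH h₁ h₂ U₁ χ₁ U₂ χ₂ o Θ c p := by
  unfold compH
  refine A2.reindex i (Equiv.prodCongr (Equiv.refl _) (transE (w : V₂))) _
    (fun l => kapH U₁ χ₁ U₂ χ₂ (c l))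
    (fun u => Θ (fun l => rmapH h₁ h₂ o (u l) (p l)))
    (fun u => Θ (fun l => rmapH h₁ h₂ o (u l)
      (update p i ((p i).1, act h₂ w.1.1 (p i).2) l))) (fun u => ?_)
  obtain ⟨⟨u₁, ⟨v₂, b₂⟩⟩, hui⟩ : ∃ z, u i = z := ⟨u i, rfl⟩
  rw [hui]
  cases b₂ with
  | true =>
    have e0 : (Equiv.prodCongr (Equiv.refl (V₁ × Bool)) (transE (w : V₂))) (u₁, (v₂, true)) =
        (u₁, (v₂, true)) := rfl
    rw [e0]
    by_cases hχ : χ₂ (c i) = 1
    · have e1 : (χ₂ (c i) w : k) = 1 := by rw [hχ]; simp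
      have e2 : (fun l => rmapH h₁ h₂ o (u l)
          (update p i ((p i).1, act h₂ w.1.1 (p i).2) l)) =
          (fun l => rmapH h₁ h₂ o (update u i (u₁, (v₂, true)) l) (p l)) := by
        funext l
        by_cases hl : l = i
        · rw [hl, update_self, update_self, hui]
          rfl
        · rw [update_of_ne hl, update_of_ne hl]
      rw [e1, one_mul]
      simp only [e2]
    · have e1 : kapH U₁ χ₁ U₂ χ₂ (c i) (u₁, (v₂, true)) = 0 := by
        unfold kapH
        rw [kap1_flag _ _ hχ, mul_zero]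
      simp only [e1, zero_mul, mul_zero]
  | false =>
    have e0 : (Equiv.prodCongr (Equiv.refl (V₁ × Bool)) (transE (w : V₂))) (u₁, (v₂, false)) =
        (u₁, ((w : V₂) * v₂, false)) := rfl
    rw [e0]
    have e2 : (fun l => rmapH h₁ h₂ o (u l)
        (update p i ((p i).1, act h₂ w.1.1 (p i).2) l)) =
        (fun l => rmapH h₁ h₂ o (update u i (u₁, ((w : V₂) * v₂, false)) l) (p l)) := by
      funext l
      by_cases hl : l = i
      · rw [hl, update_self, update_self, hui]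
        unfold rmapH
        simp only [Bool.false_eq_true, if_false]
        refine Prod.ext rfl ?_
        exact (act_mul h₂ _ _ _).symm
      · rw [update_of_ne hl, update_of_ne hl]
    simp only [e2]
    unfold kapH
    rw [kap1_trans (U₂ (c i)) (χ₂ (c i)) w v₂]
    have e3 : transE (w : V₂) (v₂, false) = ((w : V₂) * v₂, false) := rfl
    rw [e3]
    ring

theorem compH_zero_left (i : Fin n) (hχ : χ₁ (c i) = 1) (p : Fin n → Place k F₁ × Place k F₂)
    (hp : (p i).1 = o.1) : compH h₁ h₂ U₁ χ₁ U₂ χ₂ o Θ c p = 0 := by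
  have key : compH h₁ h₂ U₁ χ₁ U₂ χ₂ o Θ c p = (-1 : k) * compH h₁ h₂ U₁ χ₁ U₂ χ₂ o Θ c p := by
    refine A2.reindex i (Equiv.prodCongr flipE (Equiv.refl _)) _
      (fun l => kapH U₁ χ₁ U₂ χ₂ (c l))
      (fun u => Θ (fun l => rmapH h₁ h₂ o (u l) (p l)))
      (fun u => Θ (fun l => rmapH h₁ h₂ o (u l) (p l))) (fun u => ?_)
    have e0 : (Equiv.prodCongr flipE (Equiv.refl (V₂ × Bool))) (u i) =
      (flipE (u i).1, (u i).2) := rfl
    rw [e0]
    have e2 : (fun l => rmapH h₁ h₂ o (update u i (flipE (u i).1, (u i).2) l) (p l)) =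
        (fun l => rmapH h₁ h₂ o (u l) (p l)) := by
      funext l
      by_cases hl : l = i
      · rw [hl, update_self]
        unfold rmapH
        refine Prod.ext ?_ rfl
        change act h₁ _ (if (!(u i).1.2) = true then o.1 else (p i).1) =
          act h₁ _ (if (u i).1.2 = true then o.1 else (p i).1)
        rw [hp, ite_self, ite_self]
        rfl
      · rw [update_of_ne hl]
    have e1 : kapH U₁ χ₁ U₂ χ₂ (c i) (flipE (u i).1, (u i).2) =
        - kapH U₁ χ₁ U₂ χ₂ (c i) (u i) := by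
      unfold kapH
      rw [kap1_flip _ _ hχ]
      ring
    simp only [e2, e1]
    ring
  have h2 : (2 : k) * compH h₁ h₂ U₁ χ₁ U₂ χ₂ o Θ c p = 0 := by linear_combination key
  exact (mul_eq_zero.mp h2).resolve_left two_ne_zero

theorem compH_zero_right (i : Fin n) (hχ : χ₂ (c i) = 1) (p : Fin n → Place k F₁ × Place k F₂)
    (hp : (p i).2 = o.2) : compH h₁ h₂ U₁ χ₁ U₂ χ₂ o Θ c p = 0 := by
  have key : compH h₁ h₂ U₁ χ₁ U₂ χ₂ o Θ c p = (-1 : k) * compH h₁ h₂ U₁ χ₁ U₂ χ₂ o Θ c p := by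
    refine A2.reindex i (Equiv.prodCongr (Equiv.refl _) flipE) _
      (fun l => kapH U₁ χ₁ U₂ χ₂ (c l))
      (fun u => Θ (fun l => rmapH h₁ h₂ o (u l) (p l)))
      (fun u => Θ (fun l => rmapH h₁ h₂ o (u l) (p l))) (fun u => ?_)
    have e0 : (Equiv.prodCongr (Equiv.refl (V₁ × Bool)) flipE) (u i) =
      ((u i).1, flipE (u i).2) := rfl
    rw [e0]
    have e2 : (fun l => rmapH h₁ h₂ o (update u i ((u i).1, flipE (u i).2) l) (p l)) =
        (fun l => rmapH h₁ h₂ o (u l) (p l)) := by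
      funext l
      by_cases hl : l = i
      · rw [hl, update_self]
        unfold rmapH
        refine Prod.ext rfl ?_
        change act h₂ _ (if (!(u i).2.2) = true then o.2 else (p i).2) =
          act h₂ _ (if (u i).2.2 = true then o.2 else (p i).2)
        rw [hp, ite_self, ite_self]
        rfl
      · rw [update_of_ne hl]
    have e1 : kapH U₁ χ₁ U₂ χ₂ (c i) ((u i).1, flipE (u i).2) =
        - kapH U₁ χ₁ U₂ χ₂ (c i) (u i) := by
      unfold kapH
      rw [kap1_flip _ _ hχ]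
      ring
    simp only [e2, e1]
    ring
  have h2 : (2 : k) * compH h₁ h₂ U₁ χ₁ U₂ χ₂ o Θ c p = 0 := by linear_combination key
  exact (mul_eq_zero.mp h2).resolve_left two_ne_zero

end comp

end BQ
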