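import Mathlib
import Pool.Agent.Helper70.BQ.CompH
import Pool.Agent.Helper79.BQ.A3

/-!
# The decomposition into components
-/

set_option autoImplicit false
set_option linter.unusedSectionVars false

namespace BQ

open VC VQ VP VF Function IntermediateField

universe u

section dbl

variable {k : Type*} [Field k] {V V₁ V₂ : Type*} [Group V] [Group V₁] [Group V₂]

open Classical in
/-- The character `χ` of the subgroup `U`, extended by zero. -/
noncomputable def ext0 (U : Subgroup V) (χ : U →* kˣ) (v : V) : k :=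
  if h : v ∈ U then ((χ ⟨v, h⟩ : kˣ) : k) else 0

/-- The function `χ₁ ⊗ χ₂` on `V₁ × V₂`, averaged over the double cosets of `G` (up to a constant
factor). -/
noncomputable def dbl (G : Subgroup (V₁ × V₂)) (U₁ : Subgroup V₁) (χ₁ : U₁ →* kˣ)
    (U₂ : Subgroup V₂) (χ₂ : U₂ →* kˣ) (v : V₁ × V₂) : k :=
  ∑ᶠ g : G × G, ext0 U₁ χ₁ (g.1.1 * v * g.2.1).1 * ext0 U₂ χ₂ (g.1.1 * v * g.2.1).2

lemma ext0_inv (U : Subgroup V) (χ : U →* kˣ) (v : V) : ext0 U χ v⁻¹ = ext0 U χ⁻¹ v := by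
  unfold ext0
  by_cases h : v ∈ U
  · have h' : v⁻¹ ∈ U := U.inv_mem h
    rw [dif_pos h, dif_pos h']
    have e : (⟨v⁻¹, h'⟩ : U) = (⟨v, h⟩ : U)⁻¹ := rfl
    rw [e, map_inv]
    rfl
  · have h' : ¬ v⁻¹ ∈ U := fun h2 => h (by simpa using U.inv_mem h2)
    rw [dif_neg h, dif_neg h']

lemma kap1_false (U : Subgroup V) (χ : U →* kˣ) (v : V) :
    kap1 U χ (v, false) = ext0 U χ⁻¹ v := by
  unfold kap1 ext0
  simp [sgn]

lemma dbl_inv (G : Subgroup (V₁ × V₂)) (U₁ : Subgroup V₁) (χ₁ : U₁ →* kˣ)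
    (U₂ : Subgroup V₂) (χ₂ : U₂ →* kˣ) (v : V₁ × V₂) :
    dbl G U₁ χ₁ U₂ χ₂ v⁻¹ = dbl G U₁ χ₁⁻¹ U₂ χ₂⁻¹ v := by
  unfold dbl
  refine finsum_eq_of_bijective (fun g : G × G => (g.2⁻¹, g.1⁻¹)) ?_ ?_
  · constructor
    · rintro ⟨a, b⟩ ⟨a', b'⟩ h
      simp only [Prod.mk.injEq, inv_inj] at h
      exact Prod.ext h.2 h.1
    · rintro ⟨a, b⟩
      exact ⟨(b⁻¹, a⁻¹), by simp⟩
  · rintro ⟨a, b⟩
    rw [← ext0_inv, ← ext0_inv]
    have e : ((b⁻¹ : G) : V₁ × V₂) * v * ((a⁻¹ : G) : V₁ × V₂) =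
        ((a : V₁ × V₂) * v⁻¹ * (b : V₁ × V₂))⁻¹ := by
      simp [mul_assoc]
    simp only
    rw [e, Prod.fst_inv, Prod.snd_inv, inv_inv, inv_inv]

end dbl

section scalar

variable {k : Type u} [Field k] [IsAlgClosed k] [CharZero k]
  {F₁ F₂ : Type u} [Field F₁] [Algebra k F₁] [Field F₂] [Algebra k F₂]
  {V₁ : Subgroup (F₁ ≃ₐ[k] F₁)} {V₂ : Subgroup (F₂ ≃ₐ[k] F₂)} [Fintype V₁] [Fintype V₂]
  (h₁ : IsFunctionField k F₁) (h₂ : IsFunctionField k F₂) (G : Subgroup (V₁ × V₂)) [Fintype G]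
  {Λ : Type*} [Fintype Λ] (U₁ : Λ → Subgroup V₁) (χ₁ : ∀ l, U₁ l →* kˣ)
  (U₂ : Λ → Subgroup V₂) (χ₂ : ∀ l, U₂ l →* kˣ) (o : Place k F₁ × Place k F₂)

theorem kills_fst' {ψ : Place k F₁ × Place k F₂ → k}
    (h : Kills ((curve h₁).prod (curve h₂)) ψ) (σ : F₁ ≃ₐ[k] F₁) (y : Place k F₂)
    {b : ((curve h₁).prod (curve h₂)).Cycles}
    (hb : AlbaneseTrivial (curve h₁) (curve h₂) b) :
    Finsupp.linearCombination ℤ (fun p : Place k F₁ × Place k F₂ => ψ (act h₁ σ p.1, y)) b = 0 :=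
  A3.kills_fst h₁ h₂ h σ y hb

theorem kills_snd' {ψ : Place k F₁ × Place k F₂ → k}
    (h : Kills ((curve h₁).prod (curve h₂)) ψ) (x : Place k F₁) (σ : F₂ ≃ₐ[k] F₂)
    {b : ((curve h₁).prod (curve h₂)).Cycles}
    (hb : AlbaneseTrivial (curve h₁) (curve h₂) b) :
    Finsupp.linearCombination ℤ (fun p : Place k F₁ × Place k F₂ => ψ (x, act h₂ σ p.2)) b = 0 := by
  have h1 : Kills (curve h₂) (fun y => ψ (x, act h₂ σ y)) := h.comp (by
    intro K _ _ hK c
    exact ⟨(Sum.inl x, actM h₂ σ c), fun v => Prod.ext rfl (eval_actM h₂ hK σ c v)⟩)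
  have h2 := h1 _ hb.2
  rw [Finsupp.linearCombination_mapDomain] at h2
  exact h2

/-- The operator decomposes functions of one point. -/
theorem scalarH (cf : Λ → k)
    (hdec : ∀ v : V₁ × V₂, ∑ l, cf l * dbl G (U₁ l) (χ₁ l) (U₂ l) (χ₂ l) v =
      (open Classical in if v ∈ G then (1 : k) else 0))
    {θ : Place k F₁ × Place k F₂ → k}
    (hθ : Kills ((curve h₁).prod (curve h₂)) θ)
    (hG : ∀ (g : G) (p : Place k F₁ × Place k F₂), θ (act2 h₁ h₂ V₁ V₂ g.1 p) = θ p)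
    (b : ((curve h₁).prod (curve h₂)).Cycles)
    (hb : AlbaneseTrivial (curve h₁) (curve h₂) b)
    (hbG : ∀ g : G, Finsupp.mapDomain (act2 h₁ h₂ V₁ V₂ g.1) b = b) :
    ∑ u : (V₁ × Bool) × (V₂ × Bool),
      (∑ l, (Fintype.card G : k) * cf l * kapH U₁ χ₁ U₂ χ₂ l u) *
      Finsupp.linearCombination ℤ (fun p => θ (rmapH h₁ h₂ o u p)) b =
      Finsupp.linearCombination ℤ θ b := by
  classical
  have hz : ∀ (v₁ : V₁) (v₂ : V₂) (b1 b2 : Bool), (b1 || b2) = true →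
      Finsupp.linearCombination ℤ (fun p => θ (rmapH h₁ h₂ o ((v₁, b1), (v₂, b2)) p)) b = 0 := by
    intro v₁ v₂ b1 b2 h12
    cases b1 <;> cases b2
    · exact absurd h12 (by simp)
    · exact kills_fst' h₁ h₂ hθ v₁.1 (act h₂ v₂.1 o.2) hb
    · exact kills_snd' h₁ h₂ hθ (act h₁ v₁.1 o.1) v₂.1 hb
    · exact A3.kills_const h₁ h₂ hθ (act h₁ v₁.1 o.1, act h₂ v₂.1 o.2) hb
  obtain ⟨J, hJ⟩ : ∃ J : V₁ × V₂ → k, ∀ v, J v = Finsupp.linearCombination ℤ
    (fun p : Place k F₁ × Place k F₂ => θ (act2 h₁ h₂ V₁ V₂ v p)) b := ⟨_, fun _ => rfl⟩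
  have hJ2 : ∀ (g g' : G) (v : V₁ × V₂), J (g.1 * v * g'.1) = J v := by
    intro g g' v
    have e1 : J v = Finsupp.linearCombination ℤ
        (fun p : Place k F₁ × Place k F₂ => θ (act2 h₁ h₂ V₁ V₂ v p))
        (Finsupp.mapDomain (act2 h₁ h₂ V₁ V₂ g.1) b) := by rw [hbG, hJ]
    rw [e1, Finsupp.linearCombination_mapDomain, hJ]
    congr 1
    congr 1
    funext p
    rw [act2_mul, act2_mul, hG]
    rfl
  have h1 : ∑ u : (V₁ × Bool) × (V₂ × Bool),
      (∑ l, (Fintype.card G : k) * cf l * kapH U₁ χ₁ U₂ χ₂ l u) *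
      Finsupp.linearCombination ℤ (fun p => θ (rmapH h₁ h₂ o u p)) b =
      ∑ v : V₁ × V₂, (∑ l, (Fintype.card G : k) * cf l *
        (ext0 (U₁ l) (χ₁ l)⁻¹ v.1 * ext0 (U₂ l) (χ₂ l)⁻¹ v.2)) * J v := by
    rw [Fintype.sum_prod_type, Fintype.sum_prod_type, Fintype.sum_prod_type]
    apply Finset.sum_congr rfl
    intro v₁ _
    rw [Fintype.sum_bool, Fintype.sum_prod_type, Fintype.sum_prod_type]
    have e1 : ∑ v₂ : V₂, ∑ b2 : Bool,
        (∑ l, (Fintype.card G : k) * cf l * kapH U₁ χ₁ U₂ χ₂ l ((v₁, true), (v₂, b2))) *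
        Finsupp.linearCombination ℤ (fun p => θ (rmapH h₁ h₂ o ((v₁, true), (v₂, b2)) p)) b =
        0 := by
      apply Finset.sum_eq_zero
      intro v₂ _
      apply Finset.sum_eq_zero
      intro b2 _
      rw [hz v₁ v₂ true b2 (by simp), mul_zero]
    rw [e1, zero_add]
    apply Finset.sum_congr rfl
    intro v₂ _
    rw [Fintype.sum_bool, hz v₁ v₂ false true (by simp), mul_zero, zero_add, hJ]
    congr 1
    apply Finset.sum_congr rfl
    intro l _
    congr 1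
    unfold kapH
    rw [kap1_false, kap1_false]
  rw [h1]
  -- average over the double cosets
  set ε : V₁ × V₂ → k := fun v => ∑ l, cf l *
    (ext0 (U₁ l) (χ₁ l)⁻¹ v.1 * ext0 (U₂ l) (χ₂ l)⁻¹ v.2) with hε
  have h2 : ∑ v : V₁ × V₂, (∑ l, (Fintype.card G : k) * cf l *
        (ext0 (U₁ l) (χ₁ l)⁻¹ v.1 * ext0 (U₂ l) (χ₂ l)⁻¹ v.2)) * J v =
      (Fintype.card G : k) * ∑ v, ε v * J v := by
    rw [Finset.mul_sum]
    apply Finset.sum_congr rfl
    intro v _
    rw [hε]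
    simp only [Finset.mul_sum, Finset.sum_mul, mul_assoc]
  rw [h2]
  have h3 : ∀ g : G × G, ∑ v, ε v * J v = ∑ v, ε (g.1.1 * v * g.2.1) * J v := by
    intro g
    let e : (V₁ × V₂) ≃ (V₁ × V₂) :=
      (Equiv.mulLeft (g.1.1 : V₁ × V₂)).trans (Equiv.mulRight (g.2.1 : V₁ × V₂))
    rw [← Equiv.sum_comp e (fun v => ε v * J v)]
    apply Finset.sum_congr rfl
    intro v _
    change ε (g.1.1 * v * g.2.1) * J (g.1.1 * v * g.2.1) = _
    rw [hJ2]
  have h4 : (Fintype.card (G × G) : k) * ∑ v, ε v * J v =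
      ∑ v, (∑ g : G × G, ε (g.1.1 * v * g.2.1)) * J v := by
    rw [← nsmul_eq_mul, ← Finset.card_univ, ← Finset.sum_const,
      Finset.sum_congr rfl (fun g _ => h3 g), Finset.sum_comm]
    apply Finset.sum_congr rfl
    intro v _
    rw [Finset.sum_mul]
  have h5 : ∀ v, ∑ g : G × G, ε (g.1.1 * v * g.2.1) = if v ∈ G then (1 : k) else 0 := by
    intro v
    have e1 : (if v ∈ G then (1 : k) else 0) = (if v⁻¹ ∈ G then (1 : k) else 0) := by
      simp only [inv_mem_iff]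
    rw [e1, ← hdec v⁻¹]
    simp only [hε]
    rw [Finset.sum_comm]
    apply Finset.sum_congr rfl
    intro l _
    rw [← Finset.mul_sum, dbl_inv]
    unfold dbl
    rw [finsum_eq_sum_of_fintype]
  simp only [h5] at h4
  have h6 : ∑ v, (if v ∈ G then (1 : k) else 0) * J v =
      (Fintype.card G : k) * Finsupp.linearCombination ℤ θ b := by
    have e1 : ∀ v : V₁ × V₂, (if v ∈ G then (1 : k) else 0) * J v =
        if v ∈ G then Finsupp.linearCombination ℤ θ b else 0 := by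
      intro v
      split_ifs with h
      · rw [one_mul]
        have e2 := hJ2 ⟨v, h⟩ 1 1
        have e3 : ((⟨v, h⟩ : G) : V₁ × V₂) * 1 * ((1 : G) : V₁ × V₂) = v := by simp
        rw [e3] at e2
        rw [e2, hJ]
        simp only [act2_one]
      · rw [zero_mul]
    rw [Finset.sum_congr rfl (fun v _ => e1 v), ← Finset.sum_filter, Finset.sum_const,
      nsmul_eq_mul]
    congr 2
    rw [Fintype.card_subtype]
  rw [h6, Fintype.card_prod, Nat.cast_mul, mul_assoc] at h4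
  have hc : (Fintype.card G : k) ≠ 0 := by exact_mod_cast Fintype.card_ne_zero
  exact mul_left_cancel₀ hc h4

end scalar

section dec

variable {k : Type u} [Field k] [IsAlgClosed k] [CharZero k]
  {F₁ F₂ : Type u} [Field F₁] [Algebra k F₁] [Field F₂] [Algebra k F₂]
  {V₁ : Subgroup (F₁ ≃ₐ[k] F₁)} {V₂ : Subgroup (F₂ ≃ₐ[k] F₂)} [Fintype V₁] [Fintype V₂]
  (h₁ : IsFunctionField k F₁) (h₂ : IsFunctionField k F₂) (G : Subgroup (V₁ × V₂)) [Fintype G]
  {n : ℕ} {Λ : Type*} [Fintype Λ] (U₁ : Λ → Subgroup V₁) (χ₁ : ∀ l, U₁ l →* kˣ)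
  (U₂ : Λ → Subgroup V₂) (χ₂ : ∀ l, U₂ l →* kˣ) (o : Place k F₁ × Place k F₂)
  (Θ : (Fin n → Place k F₁ × Place k F₂) → k)

theorem decH (cf : Λ → k)
    (hdec : ∀ v : V₁ × V₂, ∑ l, cf l * dbl G (U₁ l) (χ₁ l) (U₂ l) (χ₂ l) v =
      (open Classical in if v ∈ G then (1 : k) else 0))
    (hΘ : Kills (((curve h₁).prod (curve h₂)).pow n) Θ)
    (hG : ∀ (i : Fin n) (g : G) (p : Fin n → Place k F₁ × Place k F₂),
      Θ (update p i (act2 h₁ h₂ V₁ V₂ g.1 (p i))) = Θ p)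
    (b : Fin n → ((curve h₁).prod (curve h₂)).Cycles)
    (hb : ∀ i, AlbaneseTrivial (curve h₁) (curve h₂) (b i))
    (hbG : ∀ i, ∀ g : G, Finsupp.mapDomain (act2 h₁ h₂ V₁ V₂ g.1) (b i) = b i) :
    Finsupp.linearCombination ℤ Θ (ext' b) = ∑ c : Fin n → Λ,
      (∏ i, ((Fintype.card G : k) * cf (c i))) *
        Finsupp.linearCombination ℤ (compH h₁ h₂ U₁ χ₁ U₂ χ₂ o Θ c) (ext' b) := by
  classical
  set κ : (V₁ × Bool) × (V₂ × Bool) → k :=
    fun u => ∑ l, (Fintype.card G : k) * cf l * kapH U₁ χ₁ U₂ χ₂ l u with hκ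
  -- the combination in one slot
  have H : ∀ (i : Fin n) (a : Fin n → ((curve h₁).prod (curve h₂)).Cycles),
      ∑ u, κ u * Finsupp.linearCombination ℤ Θ
        (ext' (update a i (Finsupp.mapDomain (rmapH h₁ h₂ o u) (b i)))) =
        Finsupp.linearCombination ℤ Θ (ext' (update a i (b i))) := by
    intro i a
    refine A3.slot_ext Θ i κ (fun u => Finsupp.mapDomain (rmapH h₁ h₂ o u) (b i)) (b i) ?_ o a
    intro p
    have hind : Induced ((curve h₁).prod (curve h₂)) (((curve h₁).prod (curve h₂)).pow n)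
        (fun q => update p i q) := by
      refine induced_update ((curve h₁).prod (curve h₂)) p ?_ i
      intro K _ _ hK q
      exact ⟨(Sum.inl q.1, Sum.inl q.2), fun v => rfl⟩
    have hk : Kills ((curve h₁).prod (curve h₂)) (fun q => Θ (update p i q)) := hΘ.comp hind
    have hinv : ∀ (g : G) (q : Place k F₁ × Place k F₂),
        (fun q => Θ (update p i q)) (act2 h₁ h₂ V₁ V₂ g.1 q) = (fun q => Θ (update p i q)) q := by
      intro g q
      beta_reduce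
      have := hG i g (update p i q)
      rwa [update_self, update_idem] at this
    have h1 := scalarH h₁ h₂ G U₁ χ₁ U₂ χ₂ o cf hdec hk hinv (b i) (hb i) (hbG i)
    rw [← h1]
    apply Finset.sum_congr rfl
    intro u _
    rw [Finsupp.linearCombination_mapDomain]
    rfl
  have h1 := A3.sum_pi (fun u z => Finsupp.mapDomain (rmapH h₁ h₂ o u) z) κ
    (fun a => Finsupp.linearCombination ℤ Θ (ext' a)) b H
  beta_reduce at h1
  rw [← h1]
  have h2 : ∀ c : Fin n → Λ,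
      Finsupp.linearCombination ℤ (compH h₁ h₂ U₁ χ₁ U₂ χ₂ o Θ c) (ext' b) =
      ∑ u : Fin n → (V₁ × Bool) × (V₂ × Bool), (∏ i, kapH U₁ χ₁ U₂ χ₂ (c i) (u i)) *
        Finsupp.linearCombination ℤ Θ
          (ext' (fun i => Finsupp.mapDomain (rmapH h₁ h₂ o (u i)) (b i))) := by
    intro c
    have h3 : ∀ z : (Fin n → Place k F₁ × Place k F₂) →₀ ℤ,
        Finsupp.linearCombination ℤ (compH h₁ h₂ U₁ χ₁ U₂ χ₂ o Θ c) z =
        ∑ u : Fin n → (V₁ × Bool) × (V₂ × Bool), (∏ i, kapH U₁ χ₁ U₂ χ₂ (c i) (u i)) *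
          Finsupp.linearCombination ℤ (fun p => Θ (fun i => rmapH h₁ h₂ o (u i) (p i))) z := by
      intro z
      induction z using Finsupp.induction_linear with
      | zero => simp
      | add z w hz hw => simp only [map_add, hz, hw, mul_add, Finset.sum_add_distrib]
      | single p m =>
        simp only [Finsupp.linearCombination_single, compH, Finset.smul_sum, mul_smul_comm]
    rw [h3]
    apply Finset.sum_congr rfl
    intro u _
    congr 1
    rw [← mapDomain_ext'', Finsupp.linearCombination_mapDomain]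
    rfl
  simp only [h2, Finset.mul_sum]
  rw [Finset.sum_comm]
  apply Finset.sum_congr rfl
  intro u _
  rw [hκ]
  beta_reduce
  rw [Finset.prod_univ_sum, Fintype.piFinset_univ, Finset.sum_mul]
  apply Finset.sum_congr rfl
  intro c _
  rw [Finset.prod_mul_distrib, mul_assoc]

end dec

end BQ
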