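import Mathlib
import Pool.Agent.Helper9.NS
import Pool.Agent.Helper26.VC.Cycles

/-!
# Cyclic covers of curves defined by characters; decompositions

Here are the definitions used in the theorem on quotients `(C₁ × C₂) / G`.
-/

set_option autoImplicit false

namespace BQ

open VC VQ VP Function IntermediateField

universe u

section curve

variable {k E : Type u} [Field k] [Field E] [Algebra k E] {W : Type*} [Group W]
  {a : W →* (E ≃ₐ[k] E)} {χ : W →* kˣ} {y : E}

/-- `y` is a nonzero function on which the group `W` acts by the character `χ`. -/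
structure IsEig (a : W →* (E ≃ₐ[k] E)) (χ : W →* kˣ) (y : E) : Prop where
  ne : y ≠ 0
  eq : ∀ w : W, a w y = algebraMap k E (χ w : k) * y

lemma IsEig.pow_mem (hy : IsEig a χ y) {m : ℕ} (hm : ∀ w, χ w ^ m = 1) :
    y ^ m ∈ fixedField a.range := by
  rintro ⟨_, w, rfl⟩
  change a w (y ^ m) = y ^ m
  rw [map_pow, hy.eq, mul_pow, ← map_pow, ← Units.val_pow_eq_pow_val, hm]
  simp

/-- The function `y ^ m` on the quotient curve `C / W`. -/
def IsEig.pw (hy : IsEig a χ y) {m : ℕ} (hm : ∀ w, χ w ^ m = 1) : fixedField a.range :=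
  ⟨y ^ m, hy.pow_mem hm⟩

lemma IsEig.pw_ne_zero (hy : IsEig a χ y) {m : ℕ} (hm : ∀ w, χ w ^ m = 1) : hy.pw hm ≠ 0 := by
  intro h
  have h2 : y ^ m = 0 := congrArg Subtype.val h
  exact pow_ne_zero m hy.ne h2

/-- The order modulo `m` of `y ^ m` at a point of `C / W`. It does not depend on the choice of the
eigenfunction `y`; it describes the local monodromy of the cyclic cover `C / ker χ → C / W`. -/
noncomputable def IsEig.loc (hy : IsEig a χ y) {m : ℕ} (hm : ∀ w, χ w ^ m = 1)
    (P : Place k (fixedField a.range)) : ZMod m :=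
  ((ord P.ring (hy.pw hm) : ℤ) : ZMod m)

/-- The cyclic cover `C / ker χ → C / W` is ramified over exactly `2 s` points, `s > 0`, and the
local monodromies at these points are pairwise inverse: either each element of `ℤ / m` occurs
as often as its negative; or there is an automorphism `ν` of `C` which normalizes the image of `W`
and transforms `χ` into its inverse (this implies the first condition). -/
def Balanced (a : W →* (E ≃ₐ[k] E)) (χ : W →* kˣ) (s : ℕ) : Prop :=
  0 < s ∧ ∃ (m : ℕ) (_ : 0 < m) (hm : ∀ w, χ w ^ m = 1) (y : E) (hy : IsEig a χ y),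
    Nat.card {P : Place k (fixedField a.range) // hy.loc hm P ≠ 0} = 2 * s ∧
    ((∀ r : ZMod m, r ≠ 0 → Nat.card {P : Place k (fixedField a.range) // hy.loc hm P = r} =
        Nat.card {P : Place k (fixedField a.range) // hy.loc hm P = - r}) ∨
      ∃ (ν : E ≃ₐ[k] E) (φ : W ≃* W), ∀ w, ν * a w = a (φ w) * ν ∧ χ (φ w) = (χ w)⁻¹)

/-- The cyclic cover `C / ker χ → C / W` is ramified over exactly `r` points, which can be divided
into `u > 0` nonempty sets such that the sum of the local monodromies over each set is zero. -/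
def Divided (a : W →* (E ≃ₐ[k] E)) (χ : W →* kˣ) (r u : ℕ) : Prop :=
  0 < u ∧ ∃ (m : ℕ) (_ : 0 < m) (hm : ∀ w, χ w ^ m = 1) (y : E) (hy : IsEig a χ y),
    Nat.card {P : Place k (fixedField a.range) // hy.loc hm P ≠ 0} = r ∧
    ∃ β : Place k (fixedField a.range) → Fin u, (∀ i, ∃ P, hy.loc hm P ≠ 0 ∧ β P = i) ∧
      ∀ i, ∑ᶠ P, (if β P = i then hy.loc hm P else 0) = 0

/-- The admissible pairs `(W, χ)` acting on a curve `C`, and two numbers `A` and `α` attached to
them. Let `h` and `h'` be the multiplicities of the characters `χ` and `χ⁻¹` in the representation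
of `W` on the space of regular differentials of `C`. Then `A + α = h + h'`, `h ≤ A` and `h' ≤ A`.
One of the following holds:

* `χ` is trivial; then `A = α = h = h'` is the genus of `C / W`;
* the cover `C / ker χ → C / W` is ramified, with pairwise inverse local monodromies; then
  `A = α = h = h' = g(C / W) - 1 + s`, where `2 s` is the number of branch points;
* the cover `C / ker χ → C / W` is ramified over `r` points, which are divided into `u` sets
  with trivial total monodromy; then `A = g(C / W) - 1 + r - u`, `α = g(C / W) - 1 + u`. -/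
inductive Kind (a : W →* (E ≃ₐ[k] E)) (χ : W →* kˣ) (A α : ℕ) : Prop
  | triv (hχ : χ = 1) (hA : IsGenus k (fixedField a.range) A) (hα : α = A)
  | bal (γ s : ℕ) (hγ : IsGenus k (fixedField a.range) γ) (hs : Balanced a χ s)
      (hA : A + 1 = γ + s) (hα : α = A)
  | ram (γ r u : ℕ) (hγ : IsGenus k (fixedField a.range) γ) (hr : Divided a χ r u)
      (hA : A + 1 + u = γ + r) (hα : α + 1 = γ + u)

end curve

/-- A subgroup of `V` together with a one-dimensional character of this subgroup. -/
structure SubChar (k V : Type*) [Field k] [Group V] where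
  /-- the subgroup -/
  grp : Subgroup V
  /-- the character -/
  char : grp →* kˣ

namespace SubChar

variable {k V : Type*} [Field k] [Group V]

/-- The same subgroup with the inverse character. -/
def inv (X : SubChar k V) : SubChar k V := ⟨X.grp, X.char⁻¹⟩

open Classical in
/-- The character, extended by zero to the whole group. -/
noncomputable def ext (X : SubChar k V) (v : V) : k :=
  if h : v ∈ X.grp then ((X.char ⟨v, h⟩ : kˣ) : k) else 0

/-- The action of the subgroup on the curve, if `V` is a group of automorphisms of a curve. -/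
def act {k F : Type*} [Field k] [Field F] [Algebra k F] {V : Subgroup (F ≃ₐ[k] F)}
    (X : SubChar k V) : X.grp →* (F ≃ₐ[k] F) := V.subtype.comp X.grp.subtype

end SubChar

/-- The function `χ₁ ⊗ χ₂` on `V₁ × V₂`, summed over the elements `g v g'`, `g, g' ∈ G`. -/
noncomputable def coset {k V₁ V₂ : Type*} [Field k] [Group V₁] [Group V₂]
    (G : Subgroup (V₁ × V₂)) (X₁ : SubChar k V₁) (X₂ : SubChar k V₂) (v : V₁ × V₂) : k :=
  ∑ᶠ g : G × G, X₁.ext (g.1.1 * v * g.2.1).1 * X₂.ext (g.1.1 * v * g.2.1).2

open Classical in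
/-- The characteristic function of the subgroup `G` of `V₁ × V₂` is a linear combination of the
functions `coset G X₁ X₂` for the pairs `(X₁ l, X₂ l)`, `(Y₁ l, Y₂ l)` and
`((Y₁ l).inv, (Y₂ l).inv)`. -/
def Decomposes {k V₁ V₂ : Type*} [Field k] [Group V₁] [Group V₂] (G : Subgroup (V₁ × V₂))
    {Λ Λ' : Type*} [Fintype Λ] [Fintype Λ'] (X₁ : Λ → SubChar k V₁) (X₂ : Λ → SubChar k V₂)
    (Y₁ : Λ' → SubChar k V₁) (Y₂ : Λ' → SubChar k V₂) : Prop :=
  ∃ (c : Λ → k) (d e : Λ' → k), ∀ v : V₁ × V₂,
    ∑ l, c l * coset G (X₁ l) (X₂ l) v +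
      ∑ l, (d l * coset G (Y₁ l) (Y₂ l) v + e l * coset G (Y₁ l).inv (Y₂ l).inv v) =
    if v ∈ G then 1 else 0

end BQ
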