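import Mathlib
import Pool.Agent.Helper26.VC.Main4
import Pool.Agent.Helper83.VF.Fields

/-!
# A Galois cover of the line which dominates a curve in two ways
-/

set_option autoImplicit false

namespace BQ

open VC VF Function IntermediateField Polynomial

universe u

theorem exists_two {k E Ω : Type u} [Field k] [IsAlgClosed k] [CharZero k]
    [Field E] [Algebra k E] (hE : IsFunctionField k E) [Field Ω] [IsAlgClosed Ω] [Algebra k Ω]
    (e : E →ₐ[k] Ω) (α β : E) (hα : Transcendental k α) (hβ : Transcendental k β) :
    ∃ j : E →ₐ[k] Ω, j β = e α ∧ ∃ (n : ℕ) (b : Fin n → Ω),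
      ∀ x : E, ∃ c : Fin n → E, j x = ∑ l, e (c l) * b l := by
  have hαΩ : Transcendental k (e α) :=
    fun h => hα ((isAlgebraic_algHom_iff e (RingHom.injective (e : E →+* Ω))).mp h)
  let i1 : Algebra k[X] E := polyAlg β
  let i2 : Algebra k[X] Ω := polyAlg (e α)
  let i3 : Algebra (RatFunc k) E := ratAlg β hβ
  let i4 : Algebra (RatFunc k) Ω := ratAlg (e α) hαΩ
  have s1 : IsScalarTower k k[X] E := IsScalarTower.of_algebraMap_eq (fun x =>
    (aeval β : k[X] →ₐ[k] E).commutes x |>.symm)
  have s2 : IsScalarTower k k[X] Ω := IsScalarTower.of_algebraMap_eq (fun x =>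
    (aeval (e α) : k[X] →ₐ[k] Ω).commutes x |>.symm)
  have s3 : IsScalarTower k[X] (RatFunc k) E := IsScalarTower.of_algebraMap_eq (fun x =>
    (ratAlg_poly β hβ x).symm)
  have s4 : IsScalarTower k[X] (RatFunc k) Ω :=
    IsScalarTower.of_algebraMap_eq (fun x => (ratAlg_poly _ hαΩ x).symm)
  have s7 : IsScalarTower k (RatFunc k) E := IsScalarTower.of_algebraMap_eq (fun x => by
    rw [IsScalarTower.algebraMap_apply k k[X] (RatFunc k), ← IsScalarTower.algebraMap_apply
      k[X] (RatFunc k) E, ← IsScalarTower.algebraMap_apply k k[X] E])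
  have s8 : IsScalarTower k (RatFunc k) Ω :=
    IsScalarTower.of_algebraMap_eq (fun x => by
      rw [IsScalarTower.algebraMap_apply k k[X] (RatFunc k), ← IsScalarTower.algebraMap_apply
        k[X] (RatFunc k) Ω, ← IsScalarTower.algebraMap_apply k k[X] Ω])
  have hfd : FiniteDimensional (RatFunc k) E :=
    finiteDimensional_ratAlg β hβ (hE.finiteDimensional hβ)
  have halg : Algebra.IsAlgebraic (RatFunc k) E := inferInstance
  let j₁ : E →ₐ[RatFunc k] Ω := IsAlgClosed.lift
  have hj₁ : j₁ β = e α := by
    have h1 : β = algebraMap (RatFunc k) E (algebraMap k[X] (RatFunc k) X) := by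
      rw [← IsScalarTower.algebraMap_apply k[X] (RatFunc k) E]
      exact (aeval_X β).symm
    have h2 : e α = algebraMap (RatFunc k) Ω (algebraMap k[X] (RatFunc k) X) := by
      rw [← IsScalarTower.algebraMap_apply k[X] (RatFunc k) Ω]
      exact (aeval_X _).symm
    rw [h1, h2]
    exact j₁.commutes _
  -- scalars of the second structure lie in `E`
  have hsc : ∀ r : RatFunc k, ∃ z : E, algebraMap (RatFunc k) Ω r = e z := by
    intro r
    have h : algebraMap (RatFunc k) Ω =
        (e : E →+* Ω).comp (ratAlg α hα).algebraMap := by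
      apply IsFractionRing.ringHom_ext (A := k[X])
      intro x
      rw [← IsScalarTower.algebraMap_apply k[X] (RatFunc k) Ω,
        RingHom.comp_apply, ratAlg_poly α hα x]
      exact Polynomial.aeval_algHom_apply _ _ _
    exact ⟨_, congrArg (fun f => f r) h⟩
  let b := Module.finBasis (RatFunc k) E
  refine ⟨{ toRingHom := (j₁ : E →+* Ω), commutes' := fun x => ?_ }, hj₁, _,
    fun l => j₁ (b l), fun x => ?_⟩
  · change j₁ (algebraMap k E x) = algebraMap k Ω x
    rw [IsScalarTower.algebraMap_apply k (RatFunc k) E, j₁.commutes,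
      ← IsScalarTower.algebraMap_apply k (RatFunc k) Ω]
  · have h1 : j₁ x = ∑ l, algebraMap (RatFunc k) Ω (b.repr x l) * j₁ (b l) := by
      conv_lhs => rw [← b.sum_repr x]
      rw [map_sum]
      apply Finset.sum_congr rfl
      intro l _
      rw [map_smul, Algebra.smul_def]
    choose z hz using hsc
    refine ⟨fun l => z (b.repr x l), ?_⟩
    change j₁ x = _
    rw [h1]
    apply Finset.sum_congr rfl
    intro l _
    rw [hz]

theorem exists_cover2 {k E : Type u} [Field k] [IsAlgClosed k] [CharZero k]
    [Field E] [Algebra k E] (hE : IsFunctionField k E) (α β : E) (hα : Transcendental k α)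
    (hβ : Transcendental k β) :
    ∃ (K : Type u) (_ : Field K) (_ : Algebra k K) (_ : IsFunctionField k K)
      (i j : E →ₐ[k] K) (T : K) (_ : i α = T) (_ : j β = T) (G : Type u) (_ : Group G)
      (_ : Finite G) (_ : MulSemiringAction G K), IsGaloisGroup G k⟮T⟯ K := by
  obtain ⟨j₁, hj₁, n, b, hb⟩ := exists_two hE
    (IsScalarTower.toAlgHom k E (AlgebraicClosure E)) α β hα hβ
  let L : IntermediateField E (AlgebraicClosure E) :=
    IntermediateField.adjoin E (Set.range b)
  have hLfin : FiniteDimensional E L := by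
    apply IntermediateField.finiteDimensional_adjoin
    intro x _
    exact Algebra.IsIntegral.isIntegral x
  have hmem : ∀ x : E, j₁ x ∈ L := by
    intro x
    obtain ⟨c, hc⟩ := hb x
    rw [hc]
    apply sum_mem
    intro l _
    apply mul_mem
    · exact L.algebraMap_mem (c l)
    · exact IntermediateField.subset_adjoin _ _ ⟨l, rfl⟩
  let jL : E →ₐ[k] L :=
    { toFun := fun x => ⟨j₁ x, hmem x⟩
      map_one' := Subtype.ext (map_one j₁)
      map_mul' := fun x y => Subtype.ext (map_mul j₁ x y)
      map_zero' := Subtype.ext (map_zero j₁)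
      map_add' := fun x y => Subtype.ext (map_add j₁ x y)
      commutes' := fun x => Subtype.ext (j₁.commutes x) }
  have hL : IsFunctionField k L := ff_ext hE
  have hαL : Transcendental k (algebraMap E L α) :=
    (transcendental_algebraMap_iff (algebraMap E L).injective).mpr hα
  obtain ⟨K, _, _, _, _, hK, G, _, _, _, hG⟩ := exists_cover hL (algebraMap E L α) hαL
  refine ⟨K, inferInstance, inferInstance, hK,
    (IsScalarTower.toAlgHom k L K).comp (IsScalarTower.toAlgHom k E L),
    (IsScalarTower.toAlgHom k L K).comp jL, algebraMap L K (algebraMap E L α), rfl, ?_,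
    G, inferInstance, inferInstance, inferInstance, hG⟩
  change algebraMap L K (jL β) = _
  congr 1
  apply Subtype.ext
  exact hj₁

end BQ
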