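import Mathlib
import Pool.Agent.Helper9.NS
import Pool.Agent.Helper70.VP.Norm
import Pool.Agent.Helper83.VF.Kill

/-!
# Functions which kill the divisors on a curve are constant along paths
-/

set_option autoImplicit false

namespace BQ

open VC VQ VP VF Function IntermediateField

universe u

section path

variable {k K : Type u} [Field k] [IsAlgClosed k] [CharZero k] [Field K] [Algebra k K]

/-- Let `g` be a function on the points of a curve which kills the divisors of functions. If `g`
takes the value `A` over `τ = a` and the value `B` over `τ = b`, then `A = B`. -/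
theorem path_gen (hK : IsFunctionField k K) (g : Place k K → k)
    (hg : ∀ f : K, f ≠ 0 → ∑ᶠ v : Place k K, (ord v.ring f : k) * g v = 0)
    {τ : K} (hτ : Transcendental k τ) {a b : k} (hab : a ≠ b) {A B : k}
    (hA : ∀ v, IsRes v τ a → g v = A) (hB : ∀ v, IsRes v τ b → g v = B) : A = B := by
  classical
  have hne : ∀ d : k, τ - algebraMap k K d ≠ 0 := by
    intro d h0
    apply hτ
    rw [sub_eq_zero.mp h0]
    exact isAlgebraic_algebraMap d
  set f : K := (τ - algebraMap k K a) / (τ - algebraMap k K b) with hf
  have hf0 : f ≠ 0 := div_ne_zero (hne a) (hne b)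
  have h1 := hg f hf0
  rw [finsum_eq_sum_of_support_subset (s := (finite_support_ord hK hf0).toFinset) _ (by
    intro v hv
    rw [Set.Finite.coe_toFinset]
    change ord v.ring f ≠ 0
    intro h0
    apply hv
    change (ord v.ring f : k) * g v = 0
    rw [h0]
    simp)] at h1
  have h2 := degree_zero hK hf0
  have h2' : ∑ v ∈ (finite_support_ord hK hf0).toFinset, (ord v.ring f : k) = 0 := by
    exact_mod_cast congrArg (Int.cast : ℤ → k) h2
  have hpos : ∀ v : Place k K, 0 < ord v.ring f → IsRes v τ a := by
    intro v hv
    rw [ord_pos_iff hK v hf0] at hv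
    exact sub_mem_of_div (hne b) hv
  have hneg : ∀ v : Place k K, ord v.ring f < 0 → IsRes v τ b := by
    intro v hv
    have hv' : f⁻¹ ∈ v.ring.nonunits := by
      rw [← ord_pos_iff hK v (inv_ne_zero hf0), ord_inv hK v hf0]
      omega
    rw [hf, inv_div] at hv'
    exact sub_mem_of_div (hne a) hv'
  have h3 : ∑ v ∈ (finite_support_ord hK hf0).toFinset,
      (ord v.ring f : k) * (g v - B) = 0 := by
    simp only [mul_sub, Finset.sum_sub_distrib, ← Finset.sum_mul]
    rw [h1, h2', zero_mul, sub_zero]
  have h4 : ∀ v ∈ (finite_support_ord hK hf0).toFinset,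
      (ord v.ring f : k) * (g v - B) =
      ((max (ord v.ring f) 0 : ℤ) : k) * (A - B) := by
    intro v _
    rcases lt_trichotomy (ord v.ring f) 0 with hlt | heq | hgt
    · rw [hB v (hneg v hlt), max_eq_right hlt.le]; simp
    · rw [heq]; simp
    · rw [hA v (hpos v hgt), max_eq_left hgt.le]
  rw [Finset.sum_congr rfl h4, ← Finset.sum_mul, mul_eq_zero] at h3
  rcases h3 with h3 | h3
  · exfalso
    have h5 : ∑ v ∈ (finite_support_ord hK hf0).toFinset, max (ord v.ring f) 0 = 0 := by
      exact_mod_cast h3
    rw [Finset.sum_eq_zero_iff_of_nonneg (fun v _ => le_max_right _ _)] at h5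
    have hτa : Transcendental k (τ - algebraMap k K a) := transcendental_sub hτ a
    obtain ⟨v, hv⟩ := exists_place hK hτa
    have hres : IsRes v τ a := hv
    have hub : IsRes v (τ - algebraMap k K b) (a - b) := hres.sub (isRes_const b)
    have hui := hub.inv_mem (sub_ne_zero.mpr hab)
    have h7 : f ∈ v.ring.nonunits := by
      rw [hf, div_eq_mul_inv, mul_comm]
      exact nonunits_mul hui.2 hv
    have h8 := (ord_pos_iff hK v hf0).mpr h7
    have h9 := h5 v (by
      rw [Set.Finite.mem_toFinset, Set.mem_ofPred_eq]
      exact h8.ne')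
    rw [max_eq_left h8.le] at h9
    exact h8.ne' h9
  · exact sub_eq_zero.mp h3

end path

end BQ
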