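import Mathlib
import Pool.Agent.Helper9.NS
import Pool.Agent.Helper70.VP.Good
import Pool.Agent.Helper83.VF.Kill

/-!
# The path on the covering curve
-/

set_option autoImplicit false

namespace BQ

open VC VQ VP VF Function IntermediateField Polynomial

universe u

section power

variable {k : Type u} [Field k] [IsAlgClosed k]

theorem exists_power (R : k[X]) (hR : R ≠ 0) {m : ℕ} (hm : 0 < m)
    (h : ∀ c : k, (R.rootMultiplicity c : ZMod m) = 0) :
    ∃ S : k[X], S ≠ 0 ∧ R = S ^ m := by
  classical
  have hev : ∀ c ∈ R.roots, m ∣ R.roots.count c := by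
    intro c _
    rw [count_roots, ← ZMod.natCast_eq_zero_iff]
    exact h c
  obtain ⟨u, hu⟩ := Multiset.exists_smul_of_dvd_count R.roots hev
  obtain ⟨d, hd⟩ := IsAlgClosed.exists_pow_nat_eq R.leadingCoeff (n := m) hm
  have hs := (IsAlgClosed.splits R).eq_prod_roots
  have e : R = (C d * (u.map (fun c => X - C c)).prod) ^ m := by
    rw [mul_pow, ← C_pow, hd]
    conv_lhs => rw [hs, hu]
    rw [Multiset.map_nsmul, Multiset.prod_nsmul]
  refine ⟨_, ?_, e⟩
  intro h0
  rw [h0, zero_pow hm.ne'] at e
  exact hR e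

end power

section places

variable {k K : Type u} [Field k] [Field K] [Algebra k K]

lemma inv_nonunits_of_sub {v : Place k K} {T : K} {b : k}
    (h : (T - algebraMap k K b)⁻¹ ∈ v.ring.nonunits) (hT : T - algebraMap k K b ≠ 0)
    (hT0 : T ≠ 0) : T⁻¹ ∈ v.ring.nonunits := by
  set z := (T - algebraMap k K b)⁻¹ with hz
  have h1 : IsRes v (1 + algebraMap k K b * z) (1 + b * 0) :=
    isRes_one.add ((isRes_const b).mul (isRes_zero_iff.mpr h))
  have h2 := h1.inv_mem (by simp)
  have e : T⁻¹ = (1 + algebraMap k K b * z)⁻¹ * z := by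
    have e1 : T = (1 + algebraMap k K b * z) * z⁻¹ := by
      rw [hz, inv_inv]
      field_simp
      ring
    conv_lhs => rw [e1, mul_inv, inv_inv]
  rw [e]
  exact nonunits_mul h2.2 h

end places

section tau

variable {k K : Type u} [Field k] [IsAlgClosed k] [CharZero k] [Field K] [Algebra k K]

theorem exists_tau (hK : IsFunctionField k K) (T : K) (hT : Transcendental k T)
    (G : Type u) [Group G] [Finite G] [MulSemiringAction G K] (hG : IsGaloisGroup G k⟮T⟯ K)
    (ω : K) (hω : ω ≠ 0) (ε : G → kˣ) (hε : ∀ g, g • ω = algebraMap k K (ε g : k) * ω)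
    {m : ℕ} (hm : 0 < m) (R q : k[X]) (hR : R ≠ 0) (hq : q ≠ 0)
    (hRq : (ω * aeval T q) ^ m = aeval T R) (ca cb : k) (r : ZMod m) (hr : r ≠ 0)
    (hroot : ∀ c : k, (R.rootMultiplicity c : ZMod m) =
      (open Classical in if c = ca then r else 0) - (open Classical in if c = cb then r else 0)) :
    ∃ τ : K, Transcendental k τ ∧ (∀ v : Place k K, IsRes v τ 0 → IsRes v T ca) ∧
      (∀ v : Place k K, IsRes v τ 1 → T⁻¹ ∈ v.ring.nonunits) ∧
      ∀ (v : Place k K) (g : G), IsRes v τ 1 → IsRes (act hK (gEquiv T G hG g) v) τ 1 →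
        ε g = 1 := by
  classical
  have : NeZero m := ⟨hm.ne'⟩
  have hsub : ∀ c : k, T - algebraMap k K c ≠ 0 := by
    intro c h0
    have := transcendental_sub hT c
    rw [h0] at this
    exact this isAlgebraic_zero
  have hT0 : T ≠ 0 := by
    intro h0
    rw [h0] at hT
    exact hT isAlgebraic_zero
  have hinj : ∀ p : k[X], p ≠ 0 → aeval T p ≠ 0 := by
    intro p hp h0
    exact hp ((transcendental_iff.mp hT) p h0)
  have hgs : ∀ (g : G) (p : k[X]), g • (aeval T p) = aeval T p :=
    fun g p => smul_aeval T G hG g p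
  have hgc : ∀ (g : G) (c : k), g • (T - algebraMap k K c) = T - algebraMap k K c := by
    intro g c
    have h1 := hgs g (X - C c)
    rwa [map_sub, aeval_X, aeval_C] at h1
  have hgk : ∀ (g : G) (c : k), g • (algebraMap k K c) = algebraMap k K c :=
    fun g c => (gEquiv T G hG g).commutes c
  -- the element `c`
  set c := r.val with hc
  have hcm : c < m := ZMod.val_lt r
  have hc0 : 0 < c := by
    rw [hc, Nat.pos_iff_ne_zero]
    intro h0
    exact hr ((ZMod.val_eq_zero r).mp h0)
  have hcr : (c : ZMod m) = r := ZMod.natCast_zmod_val r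
  obtain ⟨S, hS0, hS⟩ := exists_power (R * (X - C ca) ^ (m - c) * (X - C cb) ^ c)
    (mul_ne_zero (mul_ne_zero hR (pow_ne_zero _ (X_sub_C_ne_zero ca)))
      (pow_ne_zero _ (X_sub_C_ne_zero cb))) hm (by
    intro d
    rw [rootMultiplicity_mul (mul_ne_zero (mul_ne_zero hR (pow_ne_zero _ (X_sub_C_ne_zero ca)))
      (pow_ne_zero _ (X_sub_C_ne_zero cb))), rootMultiplicity_mul (mul_ne_zero hR
        (pow_ne_zero _ (X_sub_C_ne_zero ca)))]
    have hpow : ∀ (e : k) (n : ℕ), ((X - C e) ^ n).rootMultiplicity d =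
        if d = e then n else 0 := by
      intro e n
      rw [← count_roots, roots_pow, roots_X_sub_C, Multiset.count_nsmul,
        Multiset.count_singleton]
      split_ifs <;> simp
    rw [hpow, hpow]
    push_cast
    rw [hroot d, hcr, Nat.cast_sub hcm.le, hcr]
    have hmm : (m : ZMod m) = 0 := ZMod.natCast_self m
    rw [hmm, zero_sub]
    by_cases h1 : d = ca
    · by_cases h2 : d = cb
      · simp only [if_pos h1, if_pos h2]; ring
      · simp only [if_pos h1, if_neg h2]; ring
    · by_cases h2 : d = cb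
      · simp only [if_neg h1, if_pos h2]; ring
      · simp only [if_neg h1, if_neg h2]; ring)
  set u : K := ω * aeval T q * (T - algebraMap k K ca) / aeval T S with hu
  have hu0 : u ≠ 0 := div_ne_zero (mul_ne_zero (mul_ne_zero hω (hinj q hq)) (hsub ca)) (hinj S hS0)
  set ρ : K := (T - algebraMap k K ca) / (T - algebraMap k K cb) with hρ
  have hρ0 : ρ ≠ 0 := div_ne_zero (hsub ca) (hsub cb)
  have hum : u ^ m = ρ ^ c := by
    have h1 := congrArg (aeval T) hS
    rw [map_mul, map_mul, map_pow, map_pow, map_pow, map_sub, map_sub, aeval_X, aeval_C, aeval_C,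
      ← hRq] at h1
    rw [hu, hρ, div_pow, div_pow, div_eq_div_iff (pow_ne_zero _ (hinj S hS0))
      (pow_ne_zero _ (hsub cb)), ← h1, mul_pow (ω * aeval T q)]
    have e1 : (T - algebraMap k K ca) ^ m = (T - algebraMap k K ca) ^ (m - c) *
        (T - algebraMap k K ca) ^ c := by
      rw [← pow_add, Nat.sub_add_cancel hcm.le]
    rw [e1]
    ring
  have hgu : ∀ g : G, g • u = algebraMap k K (ε g : k) * u := by
    intro g
    rw [hu, smul_div₀', smul_mul', smul_mul', hgs, hgs, hgc, hε]
    ring
  have hgρ : ∀ g : G, g • ρ = ρ := by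
    intro g
    rw [hρ, smul_div₀', hgc, hgc]
  -- a root of unity in `K` lies in `k`
  have hroot1 : ∀ (x : K) (n : ℕ), 0 < n → x ^ n = 1 → ∃ z : k, x = algebraMap k K z := by
    intro x n hn hx
    obtain ⟨z, hz⟩ := exists_const_of_not_transcendental (k := k) (f := x) (fun h => h
      (IsAlgebraic.of_pow hn (by rw [hx]; exact isAlgebraic_one)))
    exact ⟨z, hz.symm⟩
  by_cases hcab : ca = cb
  · -- the product is rational
    have hρ1 : ρ = 1 := by rw [hρ, hcab, div_self (hsub cb)]
    rw [hρ1, one_pow] at hum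
    obtain ⟨z, hz⟩ := hroot1 u m hm hum
    have hε1 : ∀ g, ε g = 1 := by
      intro g
      have h1 := hgu g
      rw [hz, hgk, ← map_mul] at h1
      have h2 := (algebraMap k K).injective h1
      have hz0 : z ≠ 0 := by
        rintro rfl
        rw [map_zero] at hz
        exact hu0 hz
      ext
      rw [Units.val_one]
      have h3 : (1 - (ε g : k)) * z = 0 := by rw [sub_mul, ← h2]; ring
      rcases mul_eq_zero.mp h3 with h4 | h4
      · exact (sub_eq_zero.mp h4).symm
      · exact absurd h4 hz0
    refine ⟨(T - algebraMap k K ca) / (T - algebraMap k K (ca + 1)), ?_, ?_, ?_, fun v g _ _ => hε1 g⟩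
    · rw [show (T - algebraMap k K ca) / (T - algebraMap k K (ca + 1)) =
        (T - algebraMap k K (ca + 1))⁻¹ - algebraMap k K (-1) by
          have := hsub (ca + 1)
          field_simp
          rw [map_add, map_neg, map_one]
          ring]
      exact transcendental_sub (transcendental_inv (transcendental_sub hT _)) _
    · intro v hv
      exact sub_mem_of_div (hsub _) (isRes_zero_iff.mp hv)
    · intro v hv
      have e : (T - algebraMap k K ca) / (T - algebraMap k K (ca + 1)) - algebraMap k K 1 =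
          (T - algebraMap k K (ca + 1))⁻¹ := by
        have := hsub (ca + 1)
        field_simp
        rw [map_add, map_one]
        ring
      unfold IsRes at hv
      rw [e] at hv
      exact inv_nonunits_of_sub hv (hsub _) hT0
  · -- the product is not rational
    obtain ⟨d, m', c', hd, hcop, hmd, hcd⟩ := Nat.exists_coprime' (Nat.gcd_pos_of_pos_left c hm)
    have hm' : 0 < m' := by
      rcases Nat.eq_zero_or_pos m' with h | h
      · rw [h, zero_mul] at hmd
        omega
      · exact h
    -- normalize `u`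
    have h1 : (u ^ m' / ρ ^ c') ^ d = 1 := by
      rw [div_pow, ← pow_mul, ← pow_mul, ← hmd, ← hcd, hum, div_self (pow_ne_zero _ hρ0)]
    obtain ⟨z, hz⟩ := hroot1 _ d hd h1
    have hz0 : z ≠ 0 := by
      rintro rfl
      rw [map_zero] at hz
      exact div_ne_zero (pow_ne_zero _ hu0) (pow_ne_zero _ hρ0) hz
    obtain ⟨κ, hκ⟩ := IsAlgClosed.exists_pow_nat_eq z hm'
    have hκ0 : κ ≠ 0 := by
      rintro rfl
      rw [zero_pow hm'.ne'] at hκ
      exact hz0 hκ.symm
    have hκK : algebraMap k K κ ≠ 0 := (_root_.map_ne_zero _).mpr hκ0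
    set w : K := u / algebraMap k K κ with hw
    have hw0 : w ≠ 0 := div_ne_zero hu0 hκK
    have hwm : w ^ m' = ρ ^ c' := by
      rw [hw, div_pow, ← map_pow, hκ, ← hz]
      have := pow_ne_zero m' hu0
      have := pow_ne_zero c' hρ0
      field_simp
    have hgw : ∀ g : G, g • w = algebraMap k K (ε g : k) * w := by
      intro g
      rw [hw, smul_div₀', hgu, hgk]
      ring
    -- Bezout
    obtain ⟨α, β, hαβ⟩ : ∃ α β : ℤ, α * c' + β * m' = 1 := by
      obtain ⟨α, β, h⟩ := Nat.isCoprime_iff_coprime.mpr hcop.symm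
      exact ⟨α, β, h⟩
    set σ : K := w ^ α * ρ ^ β with hσ
    have hσ0 : σ ≠ 0 := mul_ne_zero (zpow_ne_zero _ hw0) (zpow_ne_zero _ hρ0)
    have hσm : σ ^ m' = ρ := by
      have e1 : σ ^ (m' : ℤ) = ρ ^ (1 : ℤ) := by
        rw [hσ, mul_zpow, ← zpow_mul, ← zpow_mul, ← hαβ, zpow_add₀ hρ0, mul_comm α, zpow_mul,
          zpow_natCast w, hwm, ← zpow_natCast ρ c', ← zpow_mul, mul_comm (c' : ℤ)]
      rwa [zpow_natCast, zpow_one] at e1
    have hσc : σ ^ c' = w := by
      have e1 : σ ^ (c' : ℤ) = w ^ (1 : ℤ) := by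
        rw [hσ, mul_zpow, ← zpow_mul, ← zpow_mul, ← hαβ, zpow_add₀ hw0, mul_comm β (c' : ℤ),
          zpow_mul ρ, zpow_natCast ρ, ← hwm, ← zpow_natCast w m', ← zpow_mul, mul_comm (m' : ℤ)]
      rwa [zpow_natCast, zpow_one] at e1
    have hρsub : ρ - algebraMap k K 1 = algebraMap k K (cb - ca) * (T - algebraMap k K cb)⁻¹ := by
      have := hsub cb
      rw [hρ, map_sub, map_one]
      field_simp
      ring
    have hcc : cb - ca ≠ 0 := sub_ne_zero.mpr (fun h => hcab h.symm)
    have hccK : algebraMap k K (cb - ca) ≠ 0 := (_root_.map_ne_zero _).mpr hcc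
    have hρtr : Transcendental k ρ := by
      intro halg
      have h2 := transcendental_inv (transcendental_sub hT cb)
      apply h2
      have e : (T - algebraMap k K cb)⁻¹ = (ρ - algebraMap k K 1) * (algebraMap k K (cb - ca))⁻¹ := by
        rw [hρsub]
        field_simp
      rw [e]
      exact (halg.sub (isAlgebraic_algebraMap _)).mul (isAlgebraic_algebraMap _).inv
    refine ⟨σ, ?_, ?_, ?_, ?_⟩
    · intro halg
      apply hρtr
      rw [← hσm]
      exact halg.pow _
    · intro v hv
      have h2 := hv.pow m'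
      rw [hσm, zero_pow hm'.ne'] at h2
      exact sub_mem_of_div (hsub _) (isRes_zero_iff.mp h2)
    · intro v hv
      have h2 := hv.pow m'
      rw [hσm, one_pow] at h2
      unfold IsRes at h2
      rw [hρsub] at h2
      have h3 := nonunits_mul (v.algebraMap_mem (cb - ca)⁻¹) h2
      rw [← mul_assoc, ← map_mul, inv_mul_cancel₀ hcc, map_one, one_mul] at h3
      exact inv_nonunits_of_sub h3 (hsub _) hT0
    · intro v g hv hgv
      have h2 := hv.pow c'
      rw [hσc, one_pow] at h2
      have h3 := hgv.pow c'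
      rw [hσc, one_pow] at h3
      have h4 : IsRes v (g • w) 1 := by
        unfold IsRes at h3 ⊢
        change _ ∈ (v.ring.comap (gEquiv T G hG g : K →+* K)).nonunits at h3
        rw [mem_nonunits_comap] at h3
        have e : (gEquiv T G hG g : K →+* K) (w - algebraMap k K 1) =
            g • w - algebraMap k K 1 := by
          change gEquiv T G hG g (w - algebraMap k K 1) = _
          rw [map_sub, AlgEquiv.commutes]
          rfl
        rwa [e] at h3
      rw [hgw] at h4
      have h5 := (isRes_const (v := v) (ε g : k)).mul h2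
      ext
      rw [Units.val_one]
      have h6 := h5.unique h4
      rwa [mul_one] at h6

end tau

end BQ
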