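import Mathlib
import Pool.Agent.Helper9.NS
import Pool.Agent.Helper70.BQ.Path
import Pool.Agent.Helper70.BQ.Tau

/-!
# The core argument: functions on the places of a Galois cover of the line
-/

set_option autoImplicit false

namespace BQ

open VC VQ VP VF Function IntermediateField Polynomial

universe u

section core

variable {k K : Type u} [Field k] [IsAlgClosed k] [CharZero k] [Field K] [Algebra k K]

theorem rootMult_gen (hK : IsFunctionField k K) (T : K) (hT : Transcendental k T)
    (ω : K) (hω : ω ≠ 0) {m : ℕ} (S : k → ℤ)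
    (hS : ∀ (c : k) (v : Place k K), IsRes v T c →
      m * ord v.ring ω = ord v.ring (T - algebraMap k K c) * S c)
    (R q : k[X]) (hR : R ≠ 0) (hq : q ≠ 0) (hRq : (ω * aeval T q) ^ m = aeval T R) (c : k) :
    (R.rootMultiplicity c : ℤ) = m * q.rootMultiplicity c + S c := by
  obtain ⟨v, hv⟩ := exists_place hK (transcendental_sub hT c)
  have hta : T - algebraMap k K c ≠ 0 := by
    intro h0
    have := transcendental_sub hT c
    rw [h0] at this
    exact this isAlgebraic_zero
  have hpos := (ord_pos_iff hK v hta).mpr hv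
  have hq0 : aeval T q ≠ 0 := by
    intro h0
    exact hq ((transcendental_iff.mp hT) q h0)
  have h1 := ord_aeval hK _ c v hv hT R hR
  rw [← hRq, ord_pow hK v (mul_ne_zero hω hq0), ord_mul hK v hω hq0,
    ord_aeval hK _ c v hv hT q hq] at h1
  have h2 := hS c v hv
  apply mul_right_cancel₀ hpos.ne'
  rw [← h1]
  linarith

/-- A function on the places of a Galois cover of the line, which kills divisors and transforms
under the Galois group like the element `ω`, vanishes over infinity, if the divisor of `ω ^ m`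
on the line is `r [ca] - r [cb]` modulo `m`, and if the function vanishes over `ca`. -/
theorem core (hK : IsFunctionField k K) (T : K) (hT : Transcendental k T)
    (G : Type u) [Group G] [Finite G] [MulSemiringAction G K] (hG : IsGaloisGroup G k⟮T⟯ K)
    (ω : K) (hω : ω ≠ 0) (ε : G → kˣ) (hε : ∀ g, g • ω = algebraMap k K (ε g : k) * ω)
    {m : ℕ} (hm0 : 0 < m) (hεm : ∀ g, ε g ^ m = 1) (S : k → ℤ)
    (hS : ∀ (c : k) (v : Place k K), IsRes v T c →
      m * ord v.ring ω = ord v.ring (T - algebraMap k K c) * S c)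
    (ca cb : k) (r : ZMod m) (hr : r ≠ 0)
    (hSr : ∀ c : k, ((S c : ℤ) : ZMod m) =
      (open Classical in if c = ca then r else 0) - (open Classical in if c = cb then r else 0))
    (Z : Place k K → k)
    (hZ : ∀ f : K, f ≠ 0 → ∑ᶠ v : Place k K, (ord v.ring f : k) * Z v = 0)
    (hgal : ∀ (g : G) (v : Place k K), Z (act hK (gEquiv T G hG g) v) = (ε g : k) * Z v)
    (h0 : ∀ v : Place k K, IsRes v T ca → Z v = 0)
    (v₁ : Place k K) (hv₁ : T⁻¹ ∈ v₁.ring.nonunits) : Z v₁ = 0 := by
  have hTi := transcendental_inv hT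
  have hG' : IsGaloisGroup G k⟮T⁻¹⟯ K := by rw [adjoin_inv]; exact hG
  have hgT : ∀ g : G, gEquiv T⁻¹ G hG' g = gEquiv T G hG g := fun g => rfl
  have hωm : ω ^ m ∈ k⟮T⟯ := by
    apply mem_adjoin_of_fixed _ G hG
    intro g
    rw [smul_pow', hε, mul_pow, ← map_pow, ← Units.val_pow_eq_pow_val, hεm g]
    simp
  obtain ⟨p, q, hrs⟩ := (IntermediateField.mem_adjoin_simple_iff k (ω ^ m)).mp hωm
  have hinj : ∀ p : k[X], p ≠ 0 → aeval T p ≠ 0 := by
    intro p hp h0
    exact hp ((transcendental_iff.mp hT) p h0)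
  have hp : p ≠ 0 := by
    rintro rfl
    rw [map_zero, zero_div] at hrs
    exact pow_ne_zero m hω hrs
  have hq : q ≠ 0 := by
    rintro rfl
    rw [map_zero, div_zero] at hrs
    exact pow_ne_zero m hω hrs
  have hqT := hinj q hq
  have hRq : (ω * aeval T q) ^ m = aeval T (p * q ^ (m - 1)) := by
    obtain ⟨m', rfl⟩ := Nat.exists_eq_succ_of_ne_zero hm0.ne'
    rw [mul_pow, hrs, map_mul, map_pow, Nat.succ_sub_one, pow_succ]
    field_simp
  have hR0 : p * q ^ (m - 1) ≠ 0 := mul_ne_zero hp (pow_ne_zero _ hq)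
  obtain ⟨τ, hτ, hτ0, hτ1, hτε⟩ := exists_tau hK _ hT G hG ω hω ε hε hm0
    (p * q ^ (m - 1)) q hR0 hq hRq ca cb r hr (by
      intro c
      have h1 := rootMult_gen hK T hT ω hω S hS (p * q ^ (m - 1)) q hR0 hq hRq c
      have h2 := congrArg (Int.cast : ℤ → ZMod m) h1
      rw [Int.cast_add, Int.cast_mul, Int.cast_natCast, Int.cast_natCast, ZMod.natCast_self,
        zero_mul, zero_add] at h2
      rw [h2]
      exact hSr c)
  obtain ⟨v₂, hv₂⟩ := exists_place hK (transcendental_sub hτ 1)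
  have hv₂' : IsRes v₂ τ 1 := hv₂
  have hA : ∀ v, IsRes v τ 0 → Z v = 0 := fun v hv => h0 v (hτ0 v hv)
  have hB : ∀ v, IsRes v τ 1 → Z v = Z v₂ := by
    intro v hv
    obtain ⟨g, hg⟩ := exists_galois_place _ G hK hTi hG' v₂ v (hτ1 v₂ hv₂') (hτ1 v hv)
    have hg' : v = act hK (gEquiv _ G hG g) v₂ := hg
    have h3 := hτε v₂ g hv₂' (by rw [← hg']; exact hv)
    rw [hg', hgal, h3, Units.val_one, one_mul]
  have h0 := path_gen hK Z hZ hτ (zero_ne_one (α := k)) hA hB
  obtain ⟨g, hg⟩ := exists_galois_place _ G hK hTi hG' v₁ v₂ hv₁ (hτ1 v₂ hv₂')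
  have hg' : v₂ = act hK (gEquiv _ G hG g) v₁ := hg
  rw [hg', hgal] at h0
  exact (mul_eq_zero.mp h0.symm).resolve_left (Units.ne_zero _)

end core

end BQ
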