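import Mathlib
import Pool.Agent.Helper9.NS
import Pool.Agent.Helper70.BQ.Data
import Pool.Agent.Helper70.BQ.Defs
import Pool.Agent.Helper70.VP.Norm

/-!
# The product of the conjugates of an eigenfunction and its order
-/

set_option autoImplicit false

namespace BQ

open VC VQ VP Function IntermediateField Polynomial

universe u

section norm

variable {k E : Type u} [Field k] [IsAlgClosed k] [CharZero k] [Field E] [Algebra k E]
  (hE : IsFunctionField k E)
  {W : Type*} [Group W] [Finite W] {a : W →* (E ≃ₐ[k] E)} {χ : W →* kˣ}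
  {K : Type u} [Field K] [Algebra k K] (hK : IsFunctionField k K)
  [Algebra E K] [IsScalarTower k E K]

include hK in
theorem ord_norm {y : E} (hy : IsEig a χ y) {m : ℕ} (hm : ∀ w, χ w ^ m = 1)
    (t : fixedField a.range) (ht : Transcendental k t)
    (G : Type u) [Group G] [Finite G] [MulSemiringAction G K]
    (hG : IsGaloisGroup G k⟮algebraMap E K (t : E)⟯ K)
    [Fintype {φ : fixedField a.range →ₐ[k] K // φ t = algebraMap E K (t : E)}]
    (Λ : {φ : fixedField a.range →ₐ[k] K // φ t = algebraMap E K (t : E)} → (E →ₐ[k] K))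
    (hΛ : ∀ φ, ∀ x : fixedField a.range, Λ φ (x : E) = φ.1 x) (c : k) (v : Place k K)
    (hv : algebraMap E K (t : E) - algebraMap k K c ∈ v.ring.nonunits) :
    m * ord v.ring (∏ φ, Λ φ y) = ord v.ring (algebraMap E K (t : E) - algebraMap k K c) *
      ∑ P ∈ fib (isFunctionField_fixed a.range hE) ht c, ord P.ring (hy.pw hm) := by
  classical
  have hF := isFunctionField_fixed a.range hE
  have hW0 : ∀ φ, Λ φ y ≠ 0 := fun φ => (_root_.map_ne_zero (Λ φ)).mpr hy.ne
  have hta : t - algebraMap k (fixedField a.range) c ≠ 0 := by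
    intro h0
    have := transcendental_sub ht c
    rw [h0] at this
    exact this isAlgebraic_zero
  have hf0 := hy.pw_ne_zero hm
  have h1 : m * ord v.ring (∏ φ, Λ φ y) = ∑ φ : {φ : fixedField a.range →ₐ[k] K //
      φ t = algebraMap E K (t : E)}, ord v.ring (φ.1 (hy.pw hm)) := by
    rw [ord_prod hK v _ _ (fun φ _ => hW0 φ), Finset.mul_sum]
    apply Finset.sum_congr rfl
    intro φ _
    rw [← hΛ]
    change _ = ord v.ring (Λ φ (y ^ m))
    rw [map_pow, ord_pow hK v (hW0 φ)]
  rw [h1]
  have hmaps : ∀ φ ∈ (Finset.univ : Finset {φ : fixedField a.range →ₐ[k] K //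
      φ t = algebraMap E K (t : E)}), Place.comap hF hK φ.1 v ∈ fib hF ht c := by
    intro φ _
    rw [VP.mem_fib]
    change _ ∈ (v.ring.comap φ.1.toRingHom).nonunits
    rw [mem_nonunits_comap]
    change φ.1 (t - algebraMap k (fixedField a.range) c) ∈ _
    rw [map_sub, φ.2, AlgHom.commutes]
    exact hv
  rw [← Finset.sum_fiberwise_of_maps_to hmaps, Finset.mul_sum]
  apply Finset.sum_congr rfl
  intro P hP
  rw [VP.mem_fib, ← ord_pos_iff hF P hta] at hP
  set n := ord P.ring (t - algebraMap k (fixedField a.range) c) with hn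
  have hcard : (((Finset.univ : Finset {φ : fixedField a.range →ₐ[k] K //
      φ t = algebraMap E K (t : E)}).filter (fun φ => Place.comap hF hK φ.1 v = P)).card : ℤ) =
      n := by
    have h2 := card_cover_sub hE a.range hK t ht G hG c v hv P
    rw [max_eq_left (by omega)] at h2
    rw [← hn] at h2
    rw [← h2]
    congr 1
    rw [← Fintype.card_subtype, ← Nat.card_eq_fintype_card]
    exact Nat.card_congr ⟨fun φ => ⟨φ.1.1, φ.1.2, φ.2⟩, fun φ => ⟨⟨φ.1, φ.2.1⟩, φ.2.2⟩,
      fun φ => rfl, fun φ => rfl⟩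
  have hterm : ∀ φ ∈ ((Finset.univ : Finset {φ : fixedField a.range →ₐ[k] K //
      φ t = algebraMap E K (t : E)}).filter (fun φ => Place.comap hF hK φ.1 v = P)),
      n * ord v.ring (φ.1 (hy.pw hm)) =
        ord v.ring (algebraMap E K (t : E) - algebraMap k K c) * ord P.ring (hy.pw hm) := by
    intro φ hφ
    rw [Finset.mem_filter] at hφ
    obtain ⟨e, he, hord⟩ := ord_comap hF hK φ.1 v
    rw [hφ.2] at hord
    have h2 := hord _ hta
    rw [map_sub, φ.2, AlgHom.commutes] at h2
    rw [h2, hord _ hf0, ← hn]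
    ring
  apply mul_left_cancel₀ (show n ≠ 0 by omega)
  rw [Finset.mul_sum, Finset.sum_congr rfl hterm, Finset.sum_const, nsmul_eq_mul, hcard]

include hK in
theorem rootMult {y : E} (hy : IsEig a χ y) {m : ℕ} (hm : ∀ w, χ w ^ m = 1)
    (t : fixedField a.range) (ht : Transcendental k t)
    (G : Type u) [Group G] [Finite G] [MulSemiringAction G K]
    (hG : IsGaloisGroup G k⟮algebraMap E K (t : E)⟯ K)
    [Fintype {φ : fixedField a.range →ₐ[k] K // φ t = algebraMap E K (t : E)}]
    (Λ : {φ : fixedField a.range →ₐ[k] K // φ t = algebraMap E K (t : E)} → (E →ₐ[k] K))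
    (hΛ : ∀ φ, ∀ x : fixedField a.range, Λ φ (x : E) = φ.1 x) (R q : k[X]) (hR : R ≠ 0)
    (hq : q ≠ 0)
    (hRq : ((∏ φ, Λ φ y) * aeval (algebraMap E K (t : E)) q) ^ m =
      aeval (algebraMap E K (t : E)) R) (c : k) :
    (R.rootMultiplicity c : ℤ) = m * q.rootMultiplicity c +
      ∑ P ∈ fib (isFunctionField_fixed a.range hE) ht c, ord P.ring (hy.pw hm) := by
  classical
  have htK : Transcendental k (algebraMap E K (t : E)) := by
    have h1 : Transcendental k (algebraMap (fixedField a.range) K t) :=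
      (transcendental_algebraMap_iff (algebraMap (fixedField a.range) K).injective).mpr ht
    exact h1
  obtain ⟨v, hv⟩ := exists_place hK (transcendental_sub htK c)
  have hta : algebraMap E K (t : E) - algebraMap k K c ≠ 0 := by
    intro h0
    have := transcendental_sub htK c
    rw [h0] at this
    exact this isAlgebraic_zero
  have hpos := (ord_pos_iff hK v hta).mpr hv
  have hW0 : (∏ φ, Λ φ y) ≠ 0 :=
    Finset.prod_ne_zero_iff.mpr (fun φ _ => (_root_.map_ne_zero (Λ φ)).mpr hy.ne)
  have hq0 : aeval (algebraMap E K (t : E)) q ≠ 0 := by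
    intro h0
    exact hq ((transcendental_iff.mp htK) q h0)
  have h1 := ord_aeval hK _ c v hv htK R hR
  rw [← hRq, ord_pow hK v (mul_ne_zero hW0 hq0), ord_mul hK v hW0 hq0,
    ord_aeval hK _ c v hv htK q hq] at h1
  have h2 := ord_norm hE hK hy hm t ht G hG Λ hΛ c v hv
  apply mul_right_cancel₀ hpos.ne'
  rw [← h1]
  linarith

end norm

end BQ
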