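import Mathlib
import Pool.Agent.Helper9.NS
import Pool.Agent.Helper70.BQ.NormB
import Pool.Agent.Helper70.VP.Pencil

/-!
# The embeddings of the function field of a curve over a rational function field
-/

set_option autoImplicit false

namespace BQ

open VC VQ VP Function IntermediateField

universe u

section fibre

variable {k E : Type u} [Field k] [IsAlgClosed k] [CharZero k] [Field E] [Algebra k E]
  (hE : IsFunctionField k E)
  {W : Type*} [Group W] [Finite W] {a : W →* (E ≃ₐ[k] E)} {χ : W →* kˣ}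
  {K : Type u} [Field K] [Algebra k K] (hK : IsFunctionField k K) (i : E →ₐ[k] K)

/-- The embeddings of the function field of the quotient curve which map `t` to `T`. -/
abbrev Emb (a : W →* (E ≃ₐ[k] E)) (K : Type u) [Field K] [Algebra k K] (t : fixedField a.range)
    (T : K) : Type _ := {φ : fixedField a.range →ₐ[k] K // φ t = T}

include hE in
lemma finite_emb (t : fixedField a.range) (ht : Transcendental k t) (T : K) (hT : i t = T) :
    Finite (Emb a K t T) := by
  subst hT
  let a1 : Algebra E K := i.toRingHom.toAlgebra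
  have a2 : IsScalarTower k E K := IsScalarTower.of_algebraMap_eq (fun x => (i.commutes x).symm)
  exact finite_homs (K := K) t ((isFunctionField_fixed a.range hE).finiteDimensional ht)

lemma lift_emb (t : fixedField a.range) (ht : Transcendental k t)
    (G : Type u) [Group G] [Finite G] [MulSemiringAction G K]
    (T : K) (hT : i t = T) (hG : IsGaloisGroup G k⟮T⟯ K) (φ : Emb a K t T) :
    ∃ ψ : E →ₐ[k] K, ∀ x : fixedField a.range, ψ (x : E) = φ.1 x := by
  subst hT
  let a1 : Algebra E K := i.toRingHom.toAlgebra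
  have a2 : IsScalarTower k E K := IsScalarTower.of_algebraMap_eq (fun x => (i.commutes x).symm)
  obtain ⟨ψ, hψ⟩ := exists_lift (K := K) t ht G hG φ.1 φ.2
  exact ⟨ψ.comp (IsScalarTower.toAlgHom k E K), hψ⟩

include hK in
lemma card_emb (t : fixedField a.range) (ht : Transcendental k t)
    (G : Type u) [Group G] [Finite G] [MulSemiringAction G K]
    (T : K) (hT : i t = T) (hG : IsGaloisGroup G k⟮T⟯ K) (c : k) (v : Place k K)
    (hv : T - algebraMap k K c ∈ v.ring.nonunits) (P : Place k (fixedField a.range)) :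
    (Nat.card {φ : Emb a K t T //
      Place.comap (isFunctionField_fixed a.range hE) hK φ.1 v = P} : ℤ) =
      max (ord P.ring (t - algebraMap k (fixedField a.range) c)) 0 := by
  subst hT
  let a1 : Algebra E K := i.toRingHom.toAlgebra
  have a2 : IsScalarTower k E K := IsScalarTower.of_algebraMap_eq (fun x => (i.commutes x).symm)
  rw [← card_cover_sub hE a.range hK t ht G hG c v hv P]
  congr 1
  exact Nat.card_congr ⟨fun φ => ⟨φ.1.1, φ.1.2, φ.2⟩, fun φ => ⟨⟨φ.1, φ.2.1⟩, φ.2.2⟩,
      fun φ => rfl, fun φ => rfl⟩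

lemma card_emb_inf (t : fixedField a.range) (ht : Transcendental k t)
    (G : Type u) [Group G] [Finite G] [MulSemiringAction G K]
    (T : K) (hT : i t = T) (hG : IsGaloisGroup G k⟮T⟯ K) (v : Place k K)
    (hv : T⁻¹ ∈ v.ring.nonunits) (P : Place k (fixedField a.range)) :
    (Nat.card {φ : Emb a K t T //
      Place.comap (isFunctionField_fixed a.range hE) hK φ.1 v = P} : ℤ) =
      max (- ord P.ring t) 0 := by
  subst hT
  let a1 : Algebra E K := i.toRingHom.toAlgebra
  have a2 : IsScalarTower k E K := IsScalarTower.of_algebraMap_eq (fun x => (i.commutes x).symm)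
  have hF := isFunctionField_fixed a.range hE
  have ht0 : t ≠ 0 := by
    intro h0
    rw [h0] at ht
    exact ht isAlgebraic_zero
  have eK : algebraMap (fixedField a.range) K t⁻¹ = (i t)⁻¹ := by
    rw [map_inv₀]
    rfl
  rw [← ord_inv hF P ht0, ← card_cover hF hK t⁻¹ (transcendental_inv ht) G
    (by rw [eK, adjoin_inv]; exact hG) v (by rw [eK]; exact hv) P]
  congr 1
  refine Nat.card_congr ⟨fun φ => ⟨φ.1.1, ?_, φ.2⟩, fun φ => ⟨⟨φ.1, ?_⟩, φ.2.2⟩, ?_, ?_⟩
  · rw [eK, map_inv₀, φ.1.2]
  · have h : φ.1 t⁻¹ = (i t)⁻¹ := φ.2.1.trans eK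
    rw [map_inv₀] at h
    exact inv_injective h
  · intro φ; rfl
  · intro φ; rfl

include hK in
lemma norm_emb {y : E} (hy : IsEig a χ y) {m : ℕ} (hm : ∀ w, χ w ^ m = 1)
    (t : fixedField a.range) (ht : Transcendental k t)
    (G : Type u) [Group G] [Finite G] [MulSemiringAction G K]
    (T : K) (hT : i t = T) (hG : IsGaloisGroup G k⟮T⟯ K) [Fintype (Emb a K t T)]
    (Λ : Emb a K t T → (E →ₐ[k] K))
    (hΛ : ∀ φ, ∀ x : fixedField a.range, Λ φ (x : E) = φ.1 x) (c : k) (v : Place k K)
    (hv : T - algebraMap k K c ∈ v.ring.nonunits) :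
    m * ord v.ring (∏ φ, Λ φ y) = ord v.ring (T - algebraMap k K c) *
      ∑ P ∈ VP.fib (isFunctionField_fixed a.range hE) ht c, ord P.ring (hy.pw hm) := by
  subst hT
  let a1 : Algebra E K := i.toRingHom.toAlgebra
  have a2 : IsScalarTower k E K := IsScalarTower.of_algebraMap_eq (fun x => (i.commutes x).symm)
  exact ord_norm hE hK hy hm t ht G hG Λ hΛ c v hv

/-- The Galois group permutes the embeddings. -/
lemma perm_emb (t : fixedField a.range) (T : K)
    (G : Type u) [Group G] [Finite G] [MulSemiringAction G K]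
    (hG : IsGaloisGroup G k⟮T⟯ K)
    (Λ : Emb a K t T → (E →ₐ[k] K))
    (hΛ : ∀ φ, ∀ x : fixedField a.range, Λ φ (x : E) = φ.1 x) (g : G) :
    ∃ (P : Equiv.Perm (Emb a K t T)) (h : Emb a K t T → W),
      ∀ φ, ∀ z : E, g • (Λ φ z) = Λ (P φ) (a (h φ) z) := by
  have hgT : ∀ g : G, g • T = T := fun g => gEquiv_gen _ G hG g
  let γ : G → Emb a K t T → Emb a K t T := fun g φ =>
    ⟨(gEquiv _ G hG g : K →ₐ[k] K).comp φ.1, by
      change g • (φ.1 t) = _
      rw [φ.2, hgT]⟩
  have hγ1 : ∀ (a b : G) φ, γ a (γ b φ) = γ (a * b) φ := by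
    intro a b φ
    apply Subtype.ext
    apply AlgHom.ext
    intro z
    change a • (b • (φ.1 z)) = (a * b) • (φ.1 z)
    rw [mul_smul]
  have hγ2 : ∀ φ, γ 1 φ = φ := by
    intro φ
    apply Subtype.ext
    apply AlgHom.ext
    intro z
    change (1 : G) • (φ.1 z) = φ.1 z
    rw [one_smul]
  let P : Equiv.Perm (Emb a K t T) :=
    ⟨γ g, γ g⁻¹, fun φ => by rw [hγ1, inv_mul_cancel, hγ2], fun φ => by
      rw [hγ1, mul_inv_cancel, hγ2]⟩
  have hex : ∀ φ, ∃ h : W, ∀ z : E, g • (Λ φ z) = Λ (P φ) (a h z) := by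
    intro φ
    obtain ⟨⟨_, h, rfl⟩, hh⟩ := lift_diff a.range (Λ (P φ))
      ((gEquiv _ G hG g : K →ₐ[k] K).comp (Λ φ)) (by
      intro z hz
      change _ = g • (Λ φ z)
      have h1 := hΛ (P φ) ⟨z, hz⟩
      have h2 := hΛ φ ⟨z, hz⟩
      rw [h2]
      exact h1)
    exact ⟨h, hh⟩
  choose h hh using hex
  exact ⟨P, h, hh⟩

end fibre

end BQ
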