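import Mathlib
import Pool.Agent.Helper70.BQ.Fibre
import Pool.Agent.Helper70.BQ.Core

/-!
# Vanishing of equivariant functions in several groups of variables
-/

set_option autoImplicit false

namespace BQ

open VC VQ VP VF Function IntermediateField

universe u

section equi

variable {k E : Type u} [Field k] [Field E] [Algebra k E] (hE : IsFunctionField k E)
  {W : Type*} [Group W] {a : W →* (E ≃ₐ[k] E)}

/-- Multiplication of several coordinates by group elements. -/
lemma equi_all' {J : Type*} [Fintype J] [DecidableEq J] (κ : J → W → kˣ)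
    {Ψ : (J → Place k E) → k}
    (hequi : ∀ j w p, Ψ (update p j (act hE (a w) (p j))) = (κ j w : k) * Ψ p)
    (w : J → W) (p : J → Place k E) :
    Ψ (fun j => act hE (a (w j)) (p j)) = ((∏ j, κ j (w j) : kˣ) : k) * Ψ p := by
  classical
  have key : ∀ S : Finset J, Ψ (fun j => if j ∈ S then act hE (a (w j)) (p j) else p j) =
      ((∏ j ∈ S, κ j (w j) : kˣ) : k) * Ψ p := by
    intro S
    induction S using Finset.induction_on with
    | empty => simp
    | insert i S hi ih =>
      rw [Finset.prod_insert hi, Units.val_mul, mul_assoc, ← ih,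
        ← hequi i (w i) (fun j => if j ∈ S then act hE (a (w j)) (p j) else p j)]
      congr 1
      funext j
      by_cases hj : j = i
      · subst hj
        simp [hi]
      · rw [update_of_ne hj]
        simp [hj]
  simpa using key Finset.univ

lemma equi_zero' {J : Type*} [DecidableEq J] (κ : J → W → kˣ) {Ψ : (J → Place k E) → k}
    (hequi : ∀ j w p, Ψ (update p j (act hE (a w) (p j))) = (κ j w : k) * Ψ p)
    (p : J → Place k E) (j : J) (w : W) (hw : κ j w ≠ 1) (hj : act hE (a w) (p j) = p j) :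
    Ψ p = 0 := by
  have h := hequi j w p
  rw [hj, update_eq_self] at h
  have h2 : ((κ j w : k) - 1) * Ψ p = 0 := by rw [sub_mul, ← h]; ring
  rcases mul_eq_zero.mp h2 with h3 | h3
  · exfalso
    apply hw
    ext
    rw [Units.val_one]
    exact sub_eq_zero.mp h3
  · exact h3

end equi

section zpt

variable {k E : Type u} [Field k] [IsAlgClosed k] [CharZero k] [Field E] [Algebra k E]
  (hE : IsFunctionField k E)
  {W : Type*} [Group W] {a : W →* (E ≃ₐ[k] E)}
  {K : Type u} [Field K] [Algebra k K] (hK : IsFunctionField k K)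

open Classical in
/-- The action of the Galois group on the tuple of points over a place. -/
lemma zpt_gal (T : K) (G : Type u) [Group G] [Finite G] [MulSemiringAction G K]
    (hG : IsGaloisGroup G k⟮T⟯ K) {Φ : Type*} (Λ : Φ → (E →ₐ[k] K)) {J : Type*}
    (e : Φ ↪ J) (x : J → Place k E) (g : G) (P : Equiv.Perm Φ) (h : Φ → W)
    (hP : ∀ φ, ∀ z : E, g • (Λ φ z) = Λ (P φ) (a (h φ) z)) (v : Place k K) :
    zpt hE hK Λ e x (act hK (gEquiv T G hG g) v) =
      fun j => act hE (a (if hj : ∃ φ, e φ = j then h hj.choose else 1))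
        ((zpt hE hK Λ e x v ∘ (P.viaEmbedding e)) j) := by
  funext j
  by_cases hj : ∃ φ, e φ = j
  · obtain ⟨φ, rfl⟩ := hj
    have h0 : ∃ ψ, e ψ = e φ := ⟨φ, rfl⟩
    have h2 : h0.choose = φ := e.injective h0.choose_spec
    rw [dif_pos h0, h2, comp_apply, Equiv.Perm.viaEmbedding_apply]
    unfold zpt
    rw [zmor_emb, zmor_emb]
    ext b
    change g • (Λ φ b) ∈ v.ring ↔ Λ (P φ) (a (h φ) b) ∈ v.ring
    rw [hP]
  · rw [dif_neg hj, comp_apply, Equiv.Perm.viaEmbedding_apply_of_notMem _ _ _ (by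
      rintro ⟨φ, hφ⟩
      exact hj ⟨φ, hφ⟩)]
    unfold zpt
    rw [zmor_not hE Λ e x j hj, map_one]
    exact (act_one hE _).symm

end zpt

section multi

variable {k E : Type u} [Field k] [IsAlgClosed k] [CharZero k] [Field E] [Algebra k E]
  (hE : IsFunctionField k E)
  {W : Type*} [Group W] [Finite W] {a : W →* (E ≃ₐ[k] E)} {χ : W →* kˣ}
  {K : Type u} [Field K] [Algebra k K] (hK : IsFunctionField k K)

include hK in
open Classical in
/-- **Vanishing in several groups of variables.** The variables of type `s` move in the fibres of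
the function `t s`, all with the same parameter `T`; the group acts in these variables by the
character `χ ^ (ex s)`, `ex s = ± 1`. The function vanishes if the divisor of the product of the
norms of the powers of the function defining the cyclic cover is `r [ca] - r [cb]` modulo `m`. -/
theorem multi_vanish {y : E} (hy : IsEig a χ y) {m : ℕ} (hm0 : 0 < m) (hm : ∀ w, χ w ^ m = 1)
    (hstab : ∀ P : Place k E, hy.loc hm (resF hE a.range P) ≠ 0 →
      ∃ w : W, χ w ≠ 1 ∧ act hE (a w) P = P)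
    {S : Type} [Fintype S] (t : S → fixedField a.range) (ht : ∀ s, Transcendental k (t s))
    (i : S → (E →ₐ[k] K)) (T : K) (hT : ∀ s, i s (t s) = T)
    (G : Type u) [Group G] [Finite G] [MulSemiringAction G K] (hG : IsGaloisGroup G k⟮T⟯ K)
    {J : Type*} [Fintype J] [DecidableEq J] (ty : J → S) (ex : S → ℤ)
    (hex : ∀ s, ex s = 1 ∨ ex s = -1)
    (x : J → Place k E)
    (hpole : ∀ s P, 0 ≤ ord P.ring (t s) +
      Nat.card {j : J // ty j = s ∧ resF hE a.range (x j) = P})
    (ca cb : k) (r : ZMod m) (hr : r ≠ 0) (s₀ : S) (b₀ : Place k (fixedField a.range))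
    (hb₀ : hy.loc hm b₀ ≠ 0) (hca : IsRes b₀ (t s₀) ca)
    (hsum : ∀ c : k, ((∑ s, ex s * ∑ P ∈ VP.fib (isFunctionField_fixed a.range hE) (ht s) c,
      ord P.ring (hy.pw hm) : ℤ) : ZMod m) = (if c = ca then r else 0) - (if c = cb then r else 0))
    {Ψ : (J → Place k E) → k} (hKi : KillsC hE Ψ)
    (hsym : ∀ σ : Equiv.Perm J, (∀ j, ty (σ j) = ty j) → ∀ p, Ψ (p ∘ σ) = Ψ p)
    (hequi : ∀ j w p, Ψ (update p j (act hE (a w) (p j))) = ((χ w ^ ex (ty j) : kˣ) : k) * Ψ p) :
    Ψ x = 0 := by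
  have hF := isFunctionField_fixed a.range hE
  have hTtr : Transcendental k T := by
    rw [← hT s₀]
    intro h
    have h1 : IsAlgebraic k ((t s₀ : fixedField a.range) : E) :=
      (isAlgebraic_algHom_iff (i s₀) (i s₀).injective).mp h
    exact ht s₀ ((isAlgebraic_algebraMap_iff (A := E) (algebraMap (fixedField a.range) E).injective).mp h1)
  have hTi := transcendental_inv hTtr
  obtain ⟨v₁, hv₁⟩ := exists_place hK hTi
  have hfin : ∀ s, Finite (Emb a K (t s) T) := fun s => finite_emb hE (i s) (t s) (ht s) T (hT s)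
  have : ∀ s, Fintype (Emb a K (t s) T) := fun s => Fintype.ofFinite _
  have hlift : ∀ s (φ : Emb a K (t s) T), ∃ ψ : E →ₐ[k] K, ∀ x : fixedField a.range,
      ψ (x : E) = φ.1 x := by
    intro s φ
    exact lift_emb (i s) (t s) (ht s) G T (hT s) hG φ
  choose Λ' hΛ' using hlift
  let Φ : Type _ := Σ s, Emb a K (t s) T
  let Λ : Φ → (E →ₐ[k] K) := fun φ => Λ' φ.1 φ.2
  obtain ⟨e, he⟩ := exists_embedding_of_fibres
    (fun φ : Φ => ((φ.1, Place.comap hF hK φ.2.1 v₁) : S × Place k (fixedField a.range)))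
    (fun j => (ty j, resF hE a.range (x j))) (by
    rintro ⟨s, P⟩
    have h1 : Nat.card {φ : Φ // ((φ.1, Place.comap hF hK φ.2.1 v₁) :
        S × Place k (fixedField a.range)) = (s, P)} =
        Nat.card {φ : Emb a K (t s) T // Place.comap hF hK φ.1 v₁ = P} := by
      symm
      refine Nat.card_congr (Equiv.ofBijective (fun φ => ⟨⟨s, φ.1⟩, Prod.ext rfl φ.2⟩) ⟨?_, ?_⟩)
      · intro φ ψ h
        have h2 := congrArg Subtype.val h
        have h3 : (⟨s, φ.1⟩ : Φ) = ⟨s, ψ.1⟩ := h2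
        rw [Sigma.mk.injEq] at h3
        exact Subtype.ext (eq_of_heq h3.2)
      · rintro ⟨⟨s', φ'⟩, hφ⟩
        have h3 : s' = s := congrArg Prod.fst hφ
        have h4 : Place.comap hF hK φ'.1 v₁ = P := congrArg Prod.snd hφ
        subst h3
        exact ⟨⟨φ', h4⟩, rfl⟩
    have h2 : Nat.card {j // (ty j, resF hE a.range (x j)) = (s, P)} =
        Nat.card {j : J // ty j = s ∧ resF hE a.range (x j) = P} :=
      Nat.card_congr (Equiv.subtypeEquivRight (fun j => Prod.mk.injEq _ _ _ _ ▸ Iff.rfl))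
    rw [h1, h2]
    have h3 := card_emb_inf hE hK (i s) (t s) (ht s) G T (hT s) hG v₁ hv₁ P
    have h4 := hpole s P
    have h5 : (Nat.card {φ : Emb a K (t s) T // Place.comap hF hK φ.1 v₁ = P} : ℤ) ≤
        Nat.card {j : J // ty j = s ∧ resF hE a.range (x j) = P} := by
      rw [h3]
      apply max_le <;> omega
    exact_mod_cast h5)
  have hety : ∀ φ : Φ, ty (e φ) = φ.1 := fun φ => congrArg Prod.fst (congrFun he φ)
  have heres : ∀ φ : Φ, resF hE a.range (x (e φ)) = Place.comap hF hK φ.2.1 v₁ :=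
    fun φ => congrArg Prod.snd (congrFun he φ)
  let κ : J → W → kˣ := fun j w => χ w ^ ex (ty j)
  -- the value at `v₁`
  have hz1 : ∃ ε : kˣ, Ψ (zpt hE hK Λ e x v₁) = (ε : k) * Ψ x := by
    have h1 : ∀ j, ∃ w : W, zpt hE hK Λ e x v₁ j = act hE (a w) (x j) := by
      intro j
      by_cases hj : ∃ φ, e φ = j
      · obtain ⟨φ, rfl⟩ := hj
        obtain ⟨⟨_, w, rfl⟩, hw⟩ := exists_act_of_resF hE a.range
          (P := x (e φ)) (P' := zpt hE hK Λ e x v₁ (e φ)) (by
          rw [heres φ]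
          unfold zpt
          rw [zmor_emb]
          exact (res_comap hF hE hK φ.2.1 (Λ φ) (hΛ' φ.1 φ.2) v₁).symm)
        exact ⟨w, hw⟩
      · refine ⟨1, ?_⟩
        unfold zpt
        rw [zmor_not hE Λ e x j hj, map_one]
        exact (act_one hE _).symm
    choose w hw using h1
    refine ⟨∏ j, κ j (w j), ?_⟩
    have h2 : zpt hE hK Λ e x v₁ = fun j => act hE (a (w j)) (x j) := funext hw
    rw [h2, equi_all' hE κ hequi]
  -- the Galois action
  have hgal : ∀ g : G, ∃ (P : ∀ s, Equiv.Perm (Emb a K (t s) T)) (h : ∀ s, Emb a K (t s) T → W),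
      ∀ s φ, ∀ z : E, g • (Λ' s φ z) = Λ' s (P s φ) (a (h s φ) z) := by
    intro g
    choose P h hP using fun s => perm_emb (t s) T G hG (Λ' s) (hΛ' s) g
    exact ⟨P, h, hP⟩
  choose P h hP using hgal
  let ω : K := ∏ φ : Φ, (Λ φ y) ^ ex φ.1
  have hΛ0 : ∀ φ : Φ, Λ φ y ≠ 0 := fun φ => (_root_.map_ne_zero (Λ φ)).mpr hy.ne
  have hω0 : ω ≠ 0 := Finset.prod_ne_zero_iff.mpr (fun φ _ => zpow_ne_zero _ (hΛ0 φ))
  let ε : G → kˣ := fun g => ∏ φ : Φ, χ (h g φ.1 φ.2) ^ ex φ.1
  have hε1 : ∀ g, g • ω = algebraMap k K (ε g : k) * ω := by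
    intro g
    have h1 : ∀ φ : Φ, g • ((Λ φ y) ^ ex φ.1) =
        algebraMap k K ((χ (h g φ.1 φ.2) ^ ex φ.1 : kˣ) : k) *
          (Λ ⟨φ.1, P g φ.1 φ.2⟩ y) ^ ex φ.1 := by
      intro φ
      have e1 : g • ((Λ φ y) ^ ex φ.1) = (g • (Λ φ y)) ^ ex φ.1 :=
        map_zpow₀ (MulSemiringAction.toRingHom G K g) _ _
      rw [e1, hP g φ.1 φ.2 y, hy.eq, map_mul, AlgHom.commutes, mul_zpow, ← map_zpow₀,
        Units.val_zpow_eq_zpow_val]
    simp only [ω]
    rw [Finset.smul_prod', Finset.prod_congr rfl (fun φ _ => h1 φ), Finset.prod_mul_distrib]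
    congr 1
    · simp only [ε]
      rw [← map_prod, Units.coe_prod]
    · exact Equiv.prod_comp (Equiv.sigmaCongrRight (P g)) (fun φ : Φ => (Λ φ y) ^ ex φ.1)
  have hεm : ∀ g, ε g ^ m = 1 := by
    intro g
    simp only [ε]
    rw [← Finset.prod_pow]
    apply Finset.prod_eq_one
    intro φ _
    rw [← zpow_natCast, ← zpow_mul, mul_comm, zpow_mul, zpow_natCast, hm, one_zpow]
  have hε2 : ∀ g v, Ψ (zpt hE hK Λ e x (act hK (gEquiv T G hG g) v)) =
      (ε g : k) * Ψ (zpt hE hK Λ e x v) := by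
    intro g v
    have hP' : ∀ φ : Φ, ∀ z : E, g • (Λ φ z) = Λ (Equiv.sigmaCongrRight (P g) φ)
        (a (h g φ.1 φ.2) z) := fun φ z => hP g φ.1 φ.2 z
    rw [zpt_gal hE hK T G hG Λ e x g (Equiv.sigmaCongrRight (P g)) (fun φ => h g φ.1 φ.2) hP' v,
      equi_all' hE κ hequi, hsym]
    · congr 2
      symm
      refine Fintype.prod_of_injective e e.injective _ _ (fun j hj => ?_) (fun φ => ?_)
      · have hj' : ¬ ∃ φ, e φ = j := hj
        simp only [κ]
        rw [dif_neg hj', map_one, one_zpow]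
      · have h0 : ∃ ψ, e ψ = e φ := ⟨φ, rfl⟩
        have h2 : h0.choose = φ := e.injective h0.choose_spec
        simp only [κ]
        rw [dif_pos h0, h2, hety]
    · intro j
      by_cases hj : ∃ φ, e φ = j
      · obtain ⟨φ, rfl⟩ := hj
        rw [Equiv.Perm.viaEmbedding_apply, hety, hety]
        rfl
      · rw [Equiv.Perm.viaEmbedding_apply_of_notMem _ _ _ hj]
  -- the value over `ca`
  have hA : ∀ v, IsRes v T ca → Ψ (zpt hE hK Λ e x v) = 0 := by
    intro v hv
    have h1 := card_emb hE hK (i s₀) (t s₀) (ht s₀) G T (hT s₀) hG ca v hv b₀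
    have hta : t s₀ - algebraMap k (fixedField a.range) ca ≠ 0 := by
      intro h0
      have := transcendental_sub (ht s₀) ca
      rw [h0] at this
      exact this isAlgebraic_zero
    have h2 := (ord_pos_iff hF b₀ hta).mpr hca
    rw [max_eq_left (by omega)] at h1
    have hne : Nonempty {φ : Emb a K (t s₀) T // Place.comap hF hK φ.1 v = b₀} := by
      by_contra hcon
      rw [not_nonempty_iff] at hcon
      rw [Nat.card_of_isEmpty] at h1
      push_cast at h1
      omega
    obtain ⟨φ', hφ2⟩ := hne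
    let φ : Φ := ⟨s₀, φ'⟩
    have hres : resF hE a.range (zpt hE hK Λ e x v (e φ)) = b₀ := by
      rw [← hφ2]
      unfold zpt
      rw [zmor_emb]
      exact res_comap hF hE hK φ'.1 (Λ φ) (hΛ' s₀ φ.2) v
    obtain ⟨w, hw1, hw2⟩ := hstab (zpt hE hK Λ e x v (e φ)) (by rw [hres]; exact hb₀)
    refine equi_zero' hE κ hequi _ (e φ) w ?_ hw2
    simp only [κ]
    rcases hex (ty (e φ)) with h | h
    · rw [h, zpow_one]; exact hw1
    · rw [h, zpow_neg_one]; exact inv_ne_one.mpr hw1
  -- the norm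
  have hnorm : ∀ (c : k) (v : Place k K), IsRes v T c →
      m * ord v.ring ω = ord v.ring (T - algebraMap k K c) *
        ∑ s, ex s * ∑ P ∈ VP.fib hF (ht s) c, ord P.ring (hy.pw hm) := by
    intro c v hv
    have h1 : ord v.ring ω = ∑ φ : Φ, ex φ.1 * ord v.ring (Λ φ y) := by
      simp only [ω]
      rw [ord_prod hK v _ _ (fun φ _ => zpow_ne_zero _ (hΛ0 φ))]
      apply Finset.sum_congr rfl
      intro φ _
      rcases hex φ.1 with h | h
      · rw [h, zpow_one, one_mul]
      · rw [h, zpow_neg_one, ord_inv hK v (hΛ0 φ), neg_one_mul]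
    rw [h1, Finset.mul_sum, Finset.mul_sum, Fintype.sum_sigma]
    apply Finset.sum_congr rfl
    intro s _
    have h2 : m * ord v.ring (∏ φ : Emb a K (t s) T, Λ' s φ y) =
        ord v.ring (T - algebraMap k K c) *
          ∑ P ∈ VP.fib hF (ht s) c, ord P.ring (hy.pw hm) :=
      norm_emb hE hK (i s) hy hm (t s) (ht s) G T (hT s) hG (Λ' s) (hΛ' s) c v hv
    rw [ord_prod hK v _ _ (fun φ _ => hΛ0 ⟨s, φ⟩)] at h2
    calc ∑ φ, m * (ex s * ord v.ring (Λ ⟨s, φ⟩ y)) =
        ex s * (m * ∑ φ, ord v.ring (Λ' s φ y)) := by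
          rw [Finset.mul_sum, Finset.mul_sum]
          apply Finset.sum_congr rfl
          intro φ _
          simp only [Λ]
          ring
      _ = _ := by rw [h2]; ring
  have h0 := core hK T hTtr G hG ω hω0 ε hε1 hm0 hεm
    (fun c => ∑ s, ex s * ∑ P ∈ VP.fib hF (ht s) c, ord P.ring (hy.pw hm)) hnorm ca cb r hr
    hsum (fun v => Ψ (zpt hE hK Λ e x v)) (fun f hf => hKi K hK (zmor hE Λ e x) f hf)
    hε2 hA v₁ hv₁
  obtain ⟨ε', hε'⟩ := hz1
  have h1 : Ψ (zpt hE hK Λ e x v₁) = 0 := h0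
  rw [hε'] at h1
  exact (mul_eq_zero.mp h1).resolve_left (Units.ne_zero _)

end multi

end BQ
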