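import Mathlib
import Pool.Agent.Helper70.VP.RH
import Pool.Agent.Helper83.VF.Res

/-!
# Pairs of functions with prescribed coincidences
-/

set_option autoImplicit false

namespace BQ

open VC VQ VP VF Function IntermediateField

universe u

section pencil

variable {k F : Type u} [Field k] [IsAlgClosed k] [CharZero k] [Field F] [Algebra k F]

/-- Riemann-Roch spaces are finite dimensional. -/
lemma finite_rr (hF : IsFunctionField k F) (g : ℕ) (hg : ∀ D : Place k F →₀ ℤ,
    (D.sum fun _ m => m) + 1 ≤ (Module.finrank k (riemannRochSpace k F D) : ℤ) + g)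
    (D : Place k F →₀ ℤ) : FiniteDimensional k (riemannRochSpace k F D) := by
  obtain ⟨t, ht, _⟩ := id hF
  obtain ⟨P, _⟩ := exists_place hF ht
  let N : ℤ := max (g - deg D) 0
  have hN1 : g - deg D ≤ N := le_max_left _ _
  have hN0 : 0 ≤ N := le_max_right _ _
  have h1 := hg (D + Finsupp.single P N)
  have h2 : ((D + Finsupp.single P N).sum fun _ m => m) = deg D + N := by
    change deg (D + Finsupp.single P N) = _
    rw [deg_add, deg_single]
  rw [h2] at h1
  have h3 : 0 < Module.finrank k (riemannRochSpace k F (D + Finsupp.single P N)) := by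
    have : (Module.finrank k (riemannRochSpace k F (D + Finsupp.single P N)) : ℤ) > 0 := by
      omega
    exact_mod_cast this
  have h4 : FiniteDimensional k (riemannRochSpace k F (D + Finsupp.single P N)) :=
    Module.finite_of_finrank_pos h3
  have h5 : riemannRochSpace k F D ≤ riemannRochSpace k F (D + Finsupp.single P N) := by
    apply rr_mono hF
    intro Q
    rw [Finsupp.add_apply]
    have : 0 ≤ (Finsupp.single P N) Q := by
      classical
      rw [Finsupp.single_apply]
      split_ifs
      · exact hN0
      · exact le_refl _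
    omega
  exact Submodule.finiteDimensional_of_le h5

/-- Two functions with poles at most at the points `x j` of the given types, which take the same
values at the points of `B`, and are not both the same constant. -/
theorem exists_pencil2 (hF : IsFunctionField k F) (g : ℕ) (hg : ∀ D : Place k F →₀ ℤ,
    (D.sum fun _ m => m) + 1 ≤ (Module.finrank k (riemannRochSpace k F D) : ℤ) + g)
    {J : Type*} [Fintype J] (ty : J → Bool) (B : Finset (Place k F))
    (hJ : 2 * g + B.card ≤ Fintype.card J) (x : J → Place k F)
    (hB : ∀ P ∈ B, ∀ j, x j ≠ P) :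
    ∃ f : Bool → F, (∀ s P, f s ≠ 0 → 0 ≤ ord P.ring (f s) + Nat.card {j // ty j = s ∧ x j = P}) ∧
      (∀ s P, (∀ j, x j ≠ P) → f s ∈ P.ring) ∧
      (∀ P ∈ B, ∃ c : k, IsRes P (f false) c ∧ IsRes P (f true) c) ∧
      ∀ c : k, ¬ (∀ s, f s = algebraMap k F c) := by
  classical
  let D : Bool → Place k F →₀ ℤ := fun s => ∑ j ∈ Finset.univ.filter (fun j => ty j = s),
    Finsupp.single (x j) (1 : ℤ)
  have hD : ∀ s P, D s P = (Nat.card {j // ty j = s ∧ x j = P} : ℤ) := by
    intro s P
    simp only [D, Finsupp.finsetSum_apply, Finsupp.single_apply]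
    rw [Finset.sum_boole, Nat.card_eq_fintype_card, Fintype.card_subtype, Finset.filter_filter]
  have hdeg : ∀ s, ((D s).sum fun _ m => m) = (Finset.univ.filter (fun j => ty j = s)).card := by
    intro s
    have h1 : ((D s).sum fun _ m => m) =
        (Finsupp.liftAddHom (fun _ : Place k F => AddMonoidHom.id ℤ)) (D s) := rfl
    rw [h1]
    simp only [D, map_sum, Finsupp.liftAddHom_apply_single, AddMonoidHom.id_apply,
      Finset.sum_const]
    simp
  have hcard : (Finset.univ.filter (fun j => ty j = false)).card +
      (Finset.univ.filter (fun j => ty j = true)).card = Fintype.card J := by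
    have h := Finset.card_filter_add_card_filter_not (s := (Finset.univ : Finset J))
      (fun j => ty j = false)
    simp only [Bool.not_eq_false] at h
    exact h
  let L : Bool → Submodule k F := fun s => riemannRochSpace k F (D s)
  have hfd : ∀ s, FiniteDimensional k (L s) := fun s => finite_rr hF g hg (D s)
  have hreg : ∀ s, ∀ P : Place k F, (∀ j, x j ≠ P) → ∀ f ∈ L s, f ∈ P.ring := by
    intro s P hP f hf
    rcases eq_or_ne f 0 with h0 | h0
    · rw [h0]; exact P.ring.zero_mem
    · rw [← ord_nonneg_iff hF P h0]
      have h3 := (mem_rr hF (D s) h0).mp hf P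
      rw [hD] at h3
      have h4 : IsEmpty {j // ty j = s ∧ x j = P} := ⟨fun j => hP j.1 j.2.2⟩
      rw [Nat.card_of_isEmpty] at h3
      simpa using h3
  let Λ : (L false × L true) →ₗ[k] (B → k) := LinearMap.pi (fun b =>
    (evalAt hF b.1 (L false) (hreg false b.1 (hB b.1 b.2))).comp (LinearMap.fst k _ _) -
    (evalAt hF b.1 (L true) (hreg true b.1 (hB b.1 b.2))).comp (LinearMap.snd k _ _))
  have h3 : 2 ≤ Module.finrank k (LinearMap.ker Λ) := by
    have h4 := LinearMap.finrank_range_add_finrank_ker Λ
    have h5 : Module.finrank k (LinearMap.range Λ) ≤ B.card := by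
      have := Submodule.finrank_le (LinearMap.range Λ)
      simpa using this
    rw [Module.finrank_prod] at h4
    have h6 := hg (D false)
    have h7 := hg (D true)
    rw [hdeg] at h6 h7
    have h8 : (Module.finrank k (L false) : ℤ) =
      Module.finrank k (riemannRochSpace k F (D false)) := rfl
    have h9 : (Module.finrank k (L true) : ℤ) =
      Module.finrank k (riemannRochSpace k F (D true)) := rfl
    omega
  have hone : ∀ s, (1 : F) ∈ L s := by
    intro s
    rw [mem_rr hF (D s) one_ne_zero]
    intro P
    rw [hD]
    have : ord P.ring (1 : F) = 0 := by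
      have := ord_algebraMap hF P (a := (1 : k)) one_ne_zero
      rwa [map_one] at this
    rw [this]
    positivity
  obtain ⟨v, hvker, hv⟩ : ∃ v ∈ LinearMap.ker Λ,
      v ∉ Submodule.span k {((⟨1, hone false⟩, ⟨1, hone true⟩) : L false × L true)} := by
    by_contra hcon
    push Not at hcon
    have h4 : LinearMap.ker Λ ≤
        Submodule.span k {((⟨1, hone false⟩, ⟨1, hone true⟩) : L false × L true)} := hcon
    have h7 := Submodule.finrank_mono h4
    have h8 : Module.finrank k (Submodule.span k
        {((⟨1, hone false⟩, ⟨1, hone true⟩) : L false × L true)}) ≤ 1 := by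
      have := finrank_span_le_card (R := k)
        ({((⟨1, hone false⟩, ⟨1, hone true⟩) : L false × L true)} : Set (L false × L true))
      simpa using this
    omega
  let f : ∀ s : Bool, L s := fun s => match s with
    | false => v.1
    | true => v.2
  refine ⟨fun s => (f s : F), ?_, ?_, ?_, ?_⟩
  · intro s P h0
    rw [← hD]
    exact (mem_rr hF (D s) h0).mp (f s).2 P
  · intro s P hP
    exact hreg s P hP _ (f s).2
  · intro P hP
    have h4 := congrFun (LinearMap.mem_ker.mp hvker) ⟨P, hP⟩
    have h5 : evalAt hF P (L false) (hreg false P (hB P hP)) v.1 =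
        evalAt hF P (L true) (hreg true P (hB P hP)) v.2 := by
      have h6 : evalAt hF P (L false) (hreg false P (hB P hP)) v.1 -
        evalAt hF P (L true) (hreg true P (hB P hP)) v.2 = 0 := h4
      exact sub_eq_zero.mp h6
    refine ⟨_, evalAt_spec hF P (L false) (hreg false P (hB P hP)) v.1, ?_⟩
    rw [h5]
    exact evalAt_spec hF P (L true) (hreg true P (hB P hP)) v.2
  · intro c hc
    apply hv
    rw [Submodule.mem_span_singleton]
    refine ⟨c, ?_⟩
    ext1
    · apply Subtype.ext
      have h := hc false
      change c • (1 : F) = (v.1 : F)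
      rw [Algebra.smul_def, mul_one]
      exact h.symm
    · apply Subtype.ext
      have h := hc true
      change c • (1 : F) = (v.2 : F)
      rw [Algebra.smul_def, mul_one]
      exact h.symm

end pencil

end BQ
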