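import Mathlib
import Pool.Agent.Helper9.NS
import Pool.Agent.Helper70.BQ.Cover2
import Pool.Agent.Helper70.BQ.Multi
import Pool.Agent.Helper70.BQ.Pencil2

/-!
# Vanishing for a pair of inverse characters
-/

set_option autoImplicit false

namespace BQ

open VC VQ VP VF Function IntermediateField

universe u

lemma isRes_const {k K : Type u} [Field k] [Field K] [Algebra k K] (P : Place k K) (c : k) :
    IsRes P (algebraMap k K c) c := by
  unfold IsRes
  rw [sub_self, ValuationSubring.mem_nonunits_iff, map_zero]
  exact zero_lt_one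

/-- The exponents of the two characters of a pair. -/
def exb (b : Bool) : ℤ := if b then -1 else 1

lemma exb_cases (b : Bool) : exb b = 1 ∨ exb b = -1 := by
  cases b
  · exact Or.inl rfl
  · exact Or.inr rfl

section pair

variable {k E : Type u} [Field k] [IsAlgClosed k] [CharZero k] [Field E] [Algebra k E]
  (hE : IsFunctionField k E)
  {W : Type*} [Group W] [Finite W] {a : W →* (E ≃ₐ[k] E)} {χ : W →* kˣ}

include hE in
/-- The branch points of the cover defined by the character. -/
lemma finite_branch {y : E} (hy : IsEig a χ y) {m : ℕ} (hm : ∀ w, χ w ^ m = 1) :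
    {P : Place k (fixedField a.range) | hy.loc hm P ≠ 0}.Finite := by
  have hF := isFunctionField_fixed a.range hE
  refine (finite_support_ord hF (hy.pw_ne_zero hm)).subset ?_
  intro P hP h0
  apply hP
  unfold IsEig.loc
  rw [h0]
  simp

include hE in
/-- The sum of the local monodromies is zero. -/
lemma sum_loc {y : E} (hy : IsEig a χ y) {m : ℕ} (hm : ∀ w, χ w ^ m = 1)
    (B : Finset (Place k (fixedField a.range))) (hB : ∀ P, hy.loc hm P ≠ 0 → P ∈ B) :
    ∑ P ∈ B, hy.loc hm P = 0 := by
  classical
  have hF := isFunctionField_fixed a.range hE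
  have h1 := degree_zero hF (hy.pw_ne_zero hm)
  have h2 : ∑ P ∈ B, hy.loc hm P =
      ∑ P ∈ (finite_support_ord hF (hy.pw_ne_zero hm)).toFinset, hy.loc hm P := by
    have e1 : ∑ P ∈ B, hy.loc hm P = ∑ P ∈ B ∪
        (finite_support_ord hF (hy.pw_ne_zero hm)).toFinset, hy.loc hm P :=
      Finset.sum_subset Finset.subset_union_left (fun P _ h => by
        by_contra h0
        exact h (hB P h0))
    have e2 : ∑ P ∈ (finite_support_ord hF (hy.pw_ne_zero hm)).toFinset, hy.loc hm P =
        ∑ P ∈ B ∪ (finite_support_ord hF (hy.pw_ne_zero hm)).toFinset, hy.loc hm P :=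
      Finset.sum_subset Finset.subset_union_right (fun P _ h => by
        by_contra h0
        apply h
        rw [Set.Finite.mem_toFinset]
        intro h1
        apply h0
        unfold IsEig.loc
        rw [h1]
        simp)
    rw [e1, e2]
  rw [h2]
  have h3 := congrArg (Int.cast : ℤ → ZMod m) h1
  push_cast at h3
  exact h3

/-- The sum of the local monodromies over a fibre. -/
lemma sum_fib_loc {y : E} (hy : IsEig a χ y) {m : ℕ} (hm : ∀ w, χ w ^ m = 1)
    (B : Finset (Place k (fixedField a.range))) (hB : ∀ P, hy.loc hm P ≠ 0 → P ∈ B)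
    (t : fixedField a.range) (ht : Transcendental k t)
    (val : Place k (fixedField a.range) → k) (hval : ∀ P ∈ B, IsRes P t (val P)) (c : k) :
    ((∑ P ∈ VP.fib (isFunctionField_fixed a.range hE) ht c, ord P.ring (hy.pw hm) : ℤ) : ZMod m) =
      ∑ P ∈ B, (open Classical in if c = val P then hy.loc hm P else 0) := by
  classical
  set hF := isFunctionField_fixed a.range hE
  have h0 : ((∑ P ∈ VP.fib hF ht c, ord P.ring (hy.pw hm) : ℤ) : ZMod m) =
      ∑ P ∈ VP.fib hF ht c, hy.loc hm P := by
    push_cast
    rfl
  rw [h0]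
  have h1 : ∑ P ∈ VP.fib hF ht c, hy.loc hm P =
      ∑ P ∈ (VP.fib hF ht c).filter (fun P => P ∈ B), hy.loc hm P := by
    rw [Finset.sum_filter]
    apply Finset.sum_congr rfl
    intro P _
    split_ifs with h
    · rfl
    · by_contra h'
      exact h (hB P h')
  have h2 : ∑ P ∈ B, (if c = val P then hy.loc hm P else 0) =
      ∑ P ∈ B.filter (fun P => c = val P), hy.loc hm P := by
    rw [Finset.sum_filter]
  rw [h1]
  convert h2.symm using 2
  · ext P
    rw [Finset.mem_filter, Finset.mem_filter, VP.mem_fib]
    constructor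
    · rintro ⟨h3, h4⟩
      exact ⟨h4, residue_unique P h3 (hval P h4)⟩
    · rintro ⟨h3, h4⟩
      refine ⟨?_, h3⟩
      rw [h4]
      exact hval P h3

/-- **Vanishing when one of the functions is constant.** -/
theorem const_vanish {y : E} (hy : IsEig a χ y) {m : ℕ} (hm0 : 0 < m) (hm : ∀ w, χ w ^ m = 1)
    (hstab : ∀ P : Place k E, hy.loc hm (resF hE a.range P) ≠ 0 →
      ∃ w : W, χ w ≠ 1 ∧ act hE (a w) P = P)
    (B : Finset (Place k (fixedField a.range))) (hB : ∀ P, P ∈ B ↔ hy.loc hm P ≠ 0)
    (b₀ : Place k (fixedField a.range)) (hb₀ : b₀ ∈ B) (e : ℤ) (he : e = 1 ∨ e = -1)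
    (t : fixedField a.range) (ht : Transcendental k t)
    {J : Type*} [Fintype J] [DecidableEq J] (x : J → Place k E)
    (hpole : ∀ P, 0 ≤ ord P.ring t + Nat.card {j : J // resF hE a.range (x j) = P})
    (c₀ : k) (hval : ∀ P ∈ B, P ≠ b₀ → IsRes P t c₀) (ca : k) (hca : IsRes b₀ t ca)
    {Ψ : (J → Place k E) → k} (hKi : KillsC hE Ψ)
    (hsym : ∀ (σ : Equiv.Perm J) p, Ψ (p ∘ σ) = Ψ p)
    (hequi : ∀ j w p, Ψ (update p j (act hE (a w) (p j))) = ((χ w ^ e : kˣ) : k) * Ψ p) :
    Ψ x = 0 := by
  classical
  have htE : Transcendental k (t : E) :=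
    (transcendental_algebraMap_iff (algebraMap (fixedField a.range) E).injective).mpr ht
  obtain ⟨K, _, _, _, _, hK, G, _, _, _, hG⟩ := exists_cover hE (t : E) htE
  have hr : (e : ZMod m) * hy.loc hm b₀ ≠ 0 := by
    have h := (hB b₀).mp hb₀
    rcases he with h1 | h1
    · rw [h1]
      simpa using h
    · rw [h1]
      simpa using h
  refine multi_vanish hE hK hy hm0 hm hstab (S := Unit) (fun _ => t) (fun _ => ht)
    (fun _ => IsScalarTower.toAlgHom k E K) (algebraMap E K (t : E)) (fun _ => rfl) G hG
    (fun _ => ()) (fun _ => e) (fun _ => he) x ?_ ca c₀ ((e : ZMod m) * hy.loc hm b₀) hr () b₀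
    ((hB b₀).mp hb₀) hca ?_ hKi (fun σ _ p => hsym σ p) hequi
  · intro _ P
    have h := hpole P
    have h2 : Nat.card {j : J // () = () ∧ resF hE a.range (x j) = P} =
        Nat.card {j : J // resF hE a.range (x j) = P} :=
      Nat.card_congr (Equiv.subtypeEquivRight (fun j => by simp))
    rw [← h2] at h
    exact h
  · intro c
    rw [Fintype.sum_unique]
    have h1 := sum_fib_loc hE hy hm B (fun P hP => (hB P).mpr hP) t ht
      (fun P => if P = b₀ then ca else c₀) (by
        intro P hP
        by_cases h : P = b₀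
        · subst h
          simp only [if_true]
          exact hca
        · simp only [if_neg h]
          exact hval P hP h) c
    rw [Int.cast_mul, h1, ← Finset.add_sum_erase B _ hb₀]
    have h2 : ∑ P ∈ B.erase b₀, (if c = (if P = b₀ then ca else c₀) then hy.loc hm P else 0) =
        if c = c₀ then - hy.loc hm b₀ else 0 := by
      have h3 := sum_loc hE hy hm B (fun P hP => (hB P).mpr hP)
      rw [← Finset.add_sum_erase B _ hb₀] at h3
      have h4 : ∑ P ∈ B.erase b₀, hy.loc hm P = - hy.loc hm b₀ := by
        rw [eq_neg_iff_add_eq_zero, add_comm]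
        exact h3
      rw [← h4]
      by_cases hc : c = c₀
      · rw [if_pos hc]
        apply Finset.sum_congr rfl
        intro P hP
        rw [if_neg (Finset.ne_of_mem_erase hP), if_pos hc]
      · rw [if_neg hc]
        apply Finset.sum_eq_zero
        intro P hP
        rw [if_neg (Finset.ne_of_mem_erase hP), if_neg hc]
    rw [h2]
    simp only [if_true]
    split_ifs <;> ring

/-- **Vanishing for a pair of inverse characters.** A function on tuples of points, on which the
group acts through the ramified character `χ` in some of the variables and through its inverse in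
the others, which is symmetric in both groups of variables and kills divisors, vanishes if the
number of variables is greater than the dimension `2 γ - 2 + r` of the `χ`-part of the first
cohomology of the curve. -/
theorem pair_vanish {y : E} (hy : IsEig a χ y) {m : ℕ} (hm0 : 0 < m) (hm : ∀ w, χ w ^ m = 1)
    (hstab : ∀ P : Place k E, hy.loc hm (resF hE a.range P) ≠ 0 →
      ∃ w : W, χ w ≠ 1 ∧ act hE (a w) P = P)
    (γ : ℕ) (hγ : ∀ D : Place k (fixedField a.range) →₀ ℤ,
      (D.sum fun _ m => m) + 1 ≤
        (Module.finrank k (riemannRochSpace k (fixedField a.range) D) : ℤ) + γ)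
    {r : ℕ} (hr : 0 < r) (hcard : Nat.card {P : Place k (fixedField a.range) //
      hy.loc hm P ≠ 0} = r)
    {J : Type*} [Fintype J] [DecidableEq J] (ty : J → Bool)
    (hJ : 2 * γ + r ≤ Fintype.card J + 1)
    {Ψ : (J → Place k E) → k} (hKi : KillsC hE Ψ)
    (hsym : ∀ σ : Equiv.Perm J, (∀ j, ty (σ j) = ty j) → ∀ p, Ψ (p ∘ σ) = Ψ p)
    (hequi : ∀ j w p, Ψ (update p j (act hE (a w) (p j))) =
      ((χ w ^ exb (ty j) : kˣ) : k) * Ψ p)
    (x : J → Place k E) : Ψ x = 0 := by
  classical
  have hF := isFunctionField_fixed a.range hE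
  -- the trivial case
  by_cases htriv : ∃ j, hy.loc hm (resF hE a.range (x j)) ≠ 0
  · obtain ⟨j, hj⟩ := htriv
    obtain ⟨w, hw1, hw2⟩ := hstab (x j) hj
    refine equi_zero' hE (fun j w => χ w ^ exb (ty j)) hequi x j w ?_ hw2
    change χ w ^ exb (ty j) ≠ 1
    rcases exb_cases (ty j) with h | h
    · rw [h, zpow_one]; exact hw1
    · rw [h, zpow_neg_one]; exact inv_ne_one.mpr hw1
  push Not at htriv
  have hdisj : ∀ P, hy.loc hm P ≠ 0 → ∀ j, resF hE a.range (x j) ≠ P := by
    intro P hP j h
    apply hP
    rw [← h]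
    exact htriv j
  set B := (finite_branch hE hy hm).toFinset with hBdef
  have hB : ∀ P, P ∈ B ↔ hy.loc hm P ≠ 0 := by
    intro P
    rw [hBdef, Set.Finite.mem_toFinset]
    rfl
  have hBcard : B.card = r := by
    rw [← hcard]
    exact (Nat.card_eq_card_finite_toFinset (finite_branch hE hy hm)).symm
  obtain ⟨b₀, hb₀⟩ : B.Nonempty := by
    rw [← Finset.card_pos, hBcard]
    exact hr
  have hb₀' := (hB b₀).mp hb₀
  obtain ⟨f, hpole, hreg, hcoin, hnc⟩ := exists_pencil2 hF γ hγ ty (B.erase b₀) (by
    rw [Finset.card_erase_of_mem hb₀, hBcard]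
    omega) (fun j => resF hE a.range (x j)) (by
    intro P hP j
    exact hdisj P ((hB P).mp (Finset.mem_of_mem_erase hP)) j)
  -- the value of the functions at `b₀`
  have hv0 : ∀ s, ∃ c : k, IsRes b₀ (f s) c := fun s =>
    exists_residue hF b₀ (hreg s b₀ (fun j => hdisj b₀ hb₀' j))
  choose v0 hv0 using hv0
  choose! vc hvc using hcoin
  -- there is a second branch point
  have hB' : (B.erase b₀).Nonempty := by
    rw [Finset.nonempty_iff_ne_empty]
    intro h
    have h3 := sum_loc hE hy hm B (fun P hP => (hB P).mpr hP)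
    rw [← Finset.add_sum_erase B _ hb₀, h, Finset.sum_empty, add_zero] at h3
    exact hb₀' h3
  obtain ⟨b₁, hb₁⟩ := hB'
  -- one of the functions constant
  have hconst : ∀ s : Bool, (∃ c : k, f (!s) = algebraMap k _ c) → Ψ x = 0 := by
    rintro s ⟨c₀, hc₀⟩
    have hval : ∀ P ∈ B, P ≠ b₀ → IsRes P (f s) c₀ := by
      intro P hP hne
      have hP' := Finset.mem_erase.mpr ⟨hne, hP⟩
      have h1 := hvc P hP'
      have h2 : vc P = c₀ := by
        have h3 : IsRes P (f (!s)) (vc P) := by
          cases s
          · exact h1.2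
          · exact h1.1
        have h4 : IsRes P (f (!s)) c₀ := by
          rw [hc₀]
          exact isRes_const P c₀
        exact residue_unique P h3 h4
      rw [← h2]
      cases s
      · exact h1.1
      · exact h1.2
    have ht : Transcendental k (f s) := by
      by_contra hcon
      obtain ⟨c₁, hc₁⟩ := exists_const_of_not_transcendental hcon
      have h1 := hval b₁ (Finset.mem_of_mem_erase hb₁) (Finset.ne_of_mem_erase hb₁)
      have h2 : c₀ = c₁ := by
        apply residue_unique b₁ h1
        rw [← hc₁]
        exact isRes_const b₁ c₁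
      apply hnc c₀
      intro s'
      by_cases hs : s' = s
      · rw [hs, ← hc₁, h2]
      · have : s' = !s := by
          cases s <;> cases s' <;> simp_all
        rw [this, hc₀]
    have ht0 : f s ≠ 0 := by
      intro h0
      rw [h0] at ht
      exact ht isAlgebraic_zero
    -- restrict to the variables of type `s`
    let ins : ({j // ty j = s} → Place k E) → (J → Place k E) :=
      fun p j => if h : ty j = s then p ⟨j, h⟩ else x j
    have hinsx : ins (fun j => x j.1) = x := by
      funext j
      simp only [ins]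
      split_ifs <;> rfl
    rw [← hinsx]
    refine const_vanish hE hy hm0 hm hstab B hB b₀ hb₀ (exb s) (exb_cases s) (f s) ht
      (J := {j // ty j = s}) (fun j => x j.1) ?_ c₀ hval (v0 s) (hv0 s)
      (Ψ := fun p => Ψ (ins p)) ?_ ?_ ?_
    · intro P
      have h1 := hpole s P ht0
      have h2 : Nat.card {j // ty j = s ∧ resF hE a.range (x j) = P} =
          Nat.card {j : {j // ty j = s} // resF hE a.range (x j.1) = P} :=
        Nat.card_congr ⟨fun j => ⟨⟨j.1, j.2.1⟩, j.2.2⟩, fun j => ⟨j.1.1, j.1.2, j.2⟩,
          fun j => rfl, fun j => rfl⟩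
      rw [h2] at h1
      exact h1
    · intro K _ _ hK z T hT
      have h1 := hKi K hK (fun j => if h : ty j = s then z ⟨j, h⟩ else Sum.inl (x j)) T hT
      rw [← h1]
      apply finsum_congr
      intro v
      congr 1
      have e : ins (fun j => (curve hE).eval hK (z j) v) =
          fun j => (curve hE).eval hK (if h : ty j = s then z ⟨j, h⟩ else Sum.inl (x j)) v := by
        funext j
        simp only [ins]
        split_ifs <;> rfl
      exact congrArg Ψ e
    · intro σ p
      have h1 : ins (p ∘ σ) = ins p ∘ (Equiv.Perm.ofSubtype σ) := by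
        funext j
        simp only [ins, comp_apply]
        by_cases h : ty j = s
        · rw [dif_pos h, Equiv.Perm.ofSubtype_apply_of_mem σ h, dif_pos (σ ⟨j, h⟩).2]
        · rw [dif_neg h, Equiv.Perm.ofSubtype_apply_of_not_mem σ h, dif_neg h]
      change Ψ (ins (p ∘ σ)) = Ψ (ins p)
      rw [h1]
      apply hsym
      intro j
      by_cases h : ty j = s
      · rw [Equiv.Perm.ofSubtype_apply_of_mem σ h, (σ ⟨j, h⟩).2, h]
      · rw [Equiv.Perm.ofSubtype_apply_of_not_mem σ h]
    · rintro ⟨j, hj⟩ w p
      have h1 : ins (update p ⟨j, hj⟩ (act hE (a w) (p ⟨j, hj⟩))) =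
          update (ins p) j (act hE (a w) (ins p j)) := by
        funext i
        by_cases hi : i = j
        · subst hi
          rw [update_self]
          simp only [ins, dif_pos hj, update_self]
        · rw [update_of_ne hi]
          simp only [ins]
          by_cases h : ty i = s
          · rw [dif_pos h, dif_pos h, update_of_ne (fun h' => hi (congrArg Subtype.val h'))]
          · rw [dif_neg h, dif_neg h]
      change Ψ (ins (update p ⟨j, hj⟩ (act hE (a w) (p ⟨j, hj⟩)))) = _ * Ψ (ins p)
      rw [h1, hequi, hj]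
  by_cases hf0 : ∃ c : k, f false = algebraMap k _ c
  · exact hconst true hf0
  by_cases hf1 : ∃ c : k, f true = algebraMap k _ c
  · exact hconst false hf1
  -- both functions transcendental
  have ht : ∀ s, Transcendental k (f s) := by
    intro s
    by_contra hcon
    obtain ⟨c, hc⟩ := exists_const_of_not_transcendental hcon
    cases s
    · exact hf0 ⟨c, hc.symm⟩
    · exact hf1 ⟨c, hc.symm⟩
  have ht0 : ∀ s, f s ≠ 0 := by
    intro s h0
    have := ht s
    rw [h0] at this
    exact this isAlgebraic_zero
  have htE : ∀ s, Transcendental k (f s : E) := fun s =>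
    (transcendental_algebraMap_iff (algebraMap (fixedField a.range) E).injective).mpr (ht s)
  obtain ⟨K, _, _, hK, i, j, T, hi, hj, G, _, _, _, hG⟩ :=
    exists_cover2 hE (f false : E) (f true : E) (htE false) (htE true)
  have hval : ∀ s, ∀ P ∈ B, IsRes P (f s) (if P = b₀ then v0 s else vc P) := by
    intro s P hP
    by_cases h : P = b₀
    · rw [if_pos h, h]
      exact hv0 s
    · rw [if_neg h]
      have h1 := hvc P (Finset.mem_erase.mpr ⟨h, hP⟩)
      cases s
      · exact h1.1
      · exact h1.2
  refine multi_vanish hE hK hy hm0 hm hstab (S := Bool) f ht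
    (fun s => if s then j else i) T ?_ G hG ty exb exb_cases x (fun s P => hpole s P (ht0 s))
    (v0 false) (v0 true) (hy.loc hm b₀) hb₀' false b₀ hb₀' (hv0 false) ?_ hKi hsym hequi
  · intro s
    cases s
    · exact hi
    · exact hj
  · intro c
    rw [Fintype.sum_bool]
    have h1 : exb true = -1 := rfl
    have h2 : exb false = 1 := rfl
    rw [h1, h2, Int.cast_add, Int.cast_mul, Int.cast_mul,
      sum_fib_loc hE hy hm B (fun P hP => (hB P).mpr hP) (f false) (ht false) _ (hval false) c,
      sum_fib_loc hE hy hm B (fun P hP => (hB P).mpr hP) (f true) (ht true) _ (hval true) c,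
      ← Finset.add_sum_erase B _ hb₀, ← Finset.add_sum_erase B _ hb₀]
    have h3 : ∀ s, ∑ P ∈ B.erase b₀, (if c = (if P = b₀ then v0 s else vc P) then
        hy.loc hm P else 0) = ∑ P ∈ B.erase b₀, (if c = vc P then hy.loc hm P else 0) := by
      intro s
      apply Finset.sum_congr rfl
      intro P hP
      rw [if_neg (Finset.ne_of_mem_erase hP)]
    rw [h3, h3]
    simp only [if_true]
    push_cast
    ring

end pair

end BQ
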