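import Mathlib
import Pool.Agent.Helper26.VC.Comb

/-!
# Joint symmetrization of antisymmetric functions with several types of positions
-/

set_option autoImplicit false

namespace BQ

open VC Equiv Finset Function

variable {ι : Type*} [Fintype ι] [DecidableEq ι] {Λ : Type*} {X : Type*} [AddCommGroup X]

open Classical in
/-- The permutations which fix every element outside `B` and preserve the types. -/
noncomputable def permTy (ty : ι → Λ) (B : Finset ι) : Finset (Perm ι) :=
  (permOn B).filter (fun τ => ∀ i, ty (τ i) = ty i)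

lemma mem_permTy {ty : ι → Λ} {B : Finset ι} {τ : Perm ι} :
    τ ∈ permTy ty B ↔ (∀ i, i ∉ B → τ i = i) ∧ ∀ i, ty (τ i) = ty i := by
  simp only [permTy, mem_filter, mem_permOn]

section claim

variable [Module ℚ X] (ty : ι → Λ) (c : ι → ι) (T : Finset ι)

lemma claimTy (f : Perm ι → X)
    (hne : ∀ w ∈ T, (fib c w).Nonempty)
    (htr : ∀ i ∈ T, ∀ j ∈ T, i ≠ j → ty i = ty j → #(fib c i) ≤ #(fib c j) → ∀ y ∈ fib c i, ∀ κ,
      ∑ x ∈ fib c j, f (κ * swap x y) = - f κ) (τ : Perm T) (hty : ∀ w : T, ty (τ w) = ty w) :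
    ∃ q : ℚ, 0 < q ∧ ∀ κ, ∑ x : Sel c T, f (κ * via c T τ x) =
      (((Perm.sign τ : ℤˣ) : ℤ) : ℚ) • q • f κ := by
  induction' hn : #τ.support using Nat.strong_induction_on with n ih generalizing τ
  by_cases h1 : τ = 1
  · subst h1
    have : Nonempty (Sel c T) := ⟨fun w => ⟨(hne w w.2).choose, (hne w w.2).choose_spec⟩⟩
    refine ⟨Fintype.card (Sel c T), by exact_mod_cast Fintype.card_pos, fun κ => ?_⟩
    simp only [via_one, mul_one, sum_const, card_univ, Perm.sign_one, Units.val_one, Int.cast_one,
      one_smul]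
    rw [Nat.cast_smul_eq_nsmul ℚ]
  · have hsupp : τ.support.Nonempty := by
      rw [Finset.nonempty_iff_ne_empty]
      intro h
      exact h1 (Perm.support_eq_empty_iff.mp h)
    obtain ⟨r, hr, hmin⟩ := Finset.exists_min_image τ.support (fun w => #(fib c w)) hsupp
    set j := τ r with hj
    have hjr : j ≠ r := Perm.mem_support.mp hr
    have hjs : j ∈ τ.support := Perm.apply_mem_support.mpr hr
    have htyjr : ty j = ty r := hty r
    set κ' : Perm T := τ * swap j r with hκ'
    have hκj : κ' j = j := by rw [hκ', Perm.mul_apply, swap_apply_left, ← hj]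
    have hτ : τ = κ' * swap j r := by rw [hκ', mul_assoc, swap_mul_self, mul_one]
    have hκty : ∀ w : T, ty (κ' w) = ty w := by
      intro w
      rw [hκ', Perm.mul_apply, hty]
      by_cases hwj : w = j
      · subst hwj
        rw [swap_apply_left]
        exact htyjr.symm
      · by_cases hwr : w = r
        · subst hwr
          rw [swap_apply_right]
          exact htyjr
        · rw [swap_apply_of_ne_of_ne hwj hwr]
    have hsub : κ'.support ⊂ τ.support := by
      rw [Finset.ssubset_iff_of_subset]
      · exact ⟨j, hjs, by rw [Perm.notMem_support]; exact hκj⟩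
      · intro w hw
        by_contra hw'
        have hw1 : τ w = w := by rwa [Perm.notMem_support] at hw'
        have hwr : w ≠ r := by rintro rfl; exact hw' hr
        have hwj : w ≠ j := by rintro rfl; exact hw' hjs
        apply Perm.mem_support.mp hw
        rw [hκ', Perm.mul_apply, swap_apply_of_ne_of_ne hwj hwr, hw1]
    obtain ⟨q, hq, hκ⟩ := ih #κ'.support (by rw [← hn]; exact Finset.card_lt_card hsub) κ' hκty rfl
    have hpj : 0 < #(fib c j) := Finset.card_pos.mpr (hne j j.2)
    refine ⟨q / #(fib c j), div_pos hq (by exact_mod_cast hpj), fun κ => ?_⟩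
    have key : #(fib c j) • ∑ x : Sel c T, f (κ * via c T τ x) =
        - ∑ x : Sel c T, f (κ * via c T κ' x) := by
      rw [← sum_update, ← Finset.sum_neg_distrib]
      apply Finset.sum_congr rfl
      intro x _
      have e : ∀ y : {z // z ∈ fib c j}, f (κ * via c T τ (update x j y)) =
          f ((κ * via c T κ' x) * swap y.1 (x r).1) := by
        intro y
        rw [hτ, via_mul, via_swap, via_update c T κ' x j hκj y]
        simp only [update_self, update_of_ne hjr.symm, mul_assoc]
      rw [Finset.sum_congr rfl (fun y _ => e y)]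
      rw [← htr r r.2 j j.2 (fun h => hjr (Subtype.ext h.symm)) htyjr.symm (hmin j hjs) (x r).1
        (x r).2 (κ * via c T κ' x)]
      rw [← Finset.sum_coe_sort (fib c j)]
    have hsign : (Perm.sign τ : ℤˣ) = - Perm.sign κ' := by
      rw [hτ, Perm.sign_mul, Perm.sign_swap hjr, mul_neg_one]
    have hp' : ((#(fib c j) : ℕ) : ℚ) ≠ 0 := by exact_mod_cast hpj.ne'
    have h2 : ((#(fib c j) : ℕ) : ℚ) • ∑ x : Sel c T, f (κ * via c T τ x) =
        ((#(fib c j) : ℕ) : ℚ) • ((((Perm.sign τ : ℤˣ) : ℤ) : ℚ) • (q / #(fib c j)) • f κ) := by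
      rw [Nat.cast_smul_eq_nsmul ℚ, key, hκ, hsign]
      simp only [smul_smul, Units.val_neg, Int.cast_neg]
      rw [← neg_smul]
      congr 1
      field_simp
    have h3 := congrArg (fun z => (((#(fib c j) : ℕ) : ℚ))⁻¹ • z) h2
    simpa only [smul_smul, inv_mul_cancel₀ hp', one_smul, inv_mul_cancel_left₀ hp',
      mul_assoc] using h3

end claim

lemma sum_permTy_eq (ty : ι → Λ) (c : ι → ι) (hc : ∀ i, ty (c i) = ty i) (T : Finset ι)
    (x : Sel c T) (G : Perm ι → X) :
    ∑ τ ∈ permTy ty (univ.image (fun w => (x w).1)), G τ =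
      ∑ τ : Perm T, (open Classical in if ∀ w : T, ty (τ w) = ty w then G (via c T τ x) else 0) := by
  classical
  unfold permTy
  rw [Finset.sum_filter]
  have h := sum_permOn_eq c T x (fun τ => if ∀ i, ty (τ i) = ty i then G τ else 0)
  have e : ∀ τ : Perm T, (∀ i, ty ((via c T τ x) i) = ty i) ↔ ∀ w : T, ty (τ w) = ty w := by
    intro τ
    have hx : ∀ w : T, ty (x w).1 = ty w := by
      intro w
      rw [← hc, VC.mem_fib.mp (x w).2]
    constructor
    · intro h w
      have h1 := h (x w).1
      rwa [via_apply, hx, hx] at h1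
    · intro h i
      by_cases hi : ∃ w, (x w).1 = i
      · obtain ⟨w, rfl⟩ := hi
        rw [via_apply, hx, hx, h]
      · push Not at hi
        rw [via_apply_not c T τ x i hi]
  simp only [e] at h
  rw [← h]

/-- A nonzero family of functions on permutations, invariant under translation by type preserving
permutations, contains a nonzero function invariant under the Young subgroup of a colouring, such
that the antisymmetrization over a choice of one position of each colour is not zero. -/
theorem exists_coloringTy [Module ℚ X] (ty : ι → Λ) (M : AddSubgroup (Perm ι → X))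
    (htr : ∀ f ∈ M, ∀ τ : Perm ι, (∀ i, ty (τ i) = ty i) → (fun κ => f (κ * τ)) ∈ M)
    (hne : ∃ f ∈ M, f ≠ 0) :
    ∃ f ∈ M, f ≠ 0 ∧ ∃ c : ι → ι, (∀ i, ty (c i) = ty i) ∧ Inv c f ∧
      ∃ (x : Sel c (univ.image c)) (κ : Perm ι),
        ∑ τ ∈ permTy ty (univ.image (fun w => (x w).1)),
          ((Perm.sign τ : ℤˣ) : ℤ) • f (κ * τ) ≠ 0 := by
  classical
  obtain ⟨f0, hf0, hf0ne⟩ := hne
  let S : Finset (ι → ι) := univ.filter (fun c => (∀ i, ty (c i) = ty i) ∧
    ∃ f ∈ M, f ≠ 0 ∧ Inv c f)
  have hS : S.Nonempty := by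
    refine ⟨id, ?_⟩
    simp only [S, mem_filter, mem_univ, true_and]
    refine ⟨fun i => rfl, f0, hf0, hf0ne, ?_⟩
    intro τ hτ κ
    have : τ = 1 := by ext i; exact hτ i
    rw [this, mul_one]
  obtain ⟨c, hc, hmax⟩ := Finset.exists_max_image S pot hS
  simp only [S, mem_filter, mem_univ, true_and] at hc
  obtain ⟨hcty, f, hfM, hfne, hinv⟩ := hc
  refine ⟨f, hfM, hfne, c, hcty, hinv, ?_⟩
  set T := univ.image c with hT
  have hne' : ∀ w ∈ T, (fib c w).Nonempty := by
    intro w hw
    obtain ⟨i, _, hi⟩ := mem_image.mp hw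
    exact ⟨i, by simp [hi]⟩
  have htrans : ∀ i ∈ T, ∀ j ∈ T, i ≠ j → ty i = ty j → #(fib c i) ≤ #(fib c j) →
      ∀ y ∈ fib c i, ∀ κ, ∑ x ∈ fib c j, f (κ * swap x y) = - f κ := by
    intro i _ j _ hij htyij hle y hy κ
    rw [VC.mem_fib] at hy
    have hyj : c y ≠ j := by rw [hy]; exact hij
    have htyy : ty y = ty j := by rw [← hcty, hy, htyij]
    have hg0 : (fun κ => ∑ x ∈ insert y (fib c j), f (κ * swap x y)) = 0 := by
      by_contra hgne
      have h1 : update c y j ∈ S := by
        simp only [S, mem_filter, mem_univ, true_and]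
        refine ⟨?_, _, ?_, hgne, transfer_inv c y j hyj f hinv⟩
        · intro i'
          by_cases hi' : i' = y
          · subst hi'
            rw [update_self]
            exact htyy.symm
          · rw [update_of_ne hi']
            exact hcty i'
        · have : (fun κ => ∑ x ∈ insert y (fib c j), f (κ * swap x y)) =
              ∑ x ∈ insert y (fib c j), (fun κ => f (κ * swap x y)) := by
            ext κ; simp
          rw [this]
          refine AddSubgroup.sum_mem _ (fun x hx => htr f hfM _ ?_)
          have hxy : ty x = ty y := by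
            rw [mem_insert, VC.mem_fib] at hx
            rcases hx with h | h
            · rw [h]
            · rw [htyy, ← hcty x, h]
          intro z
          by_cases hzx : z = x
          · subst hzx; rw [swap_apply_left]; exact hxy.symm
          · by_cases hzy : z = y
            · subst hzy; rw [swap_apply_right]; exact hxy
            · rw [swap_apply_of_ne_of_ne hzx hzy]
      have h2 := hmax _ h1
      have h3 := pot_lt c y j hyj (by rw [hy]; exact hle)
      omega
    have h4 := congrFun hg0 κ
    simp only [Pi.zero_apply] at h4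
    rw [Finset.sum_insert (by simp [hyj]), swap_self] at h4
    have h5 : κ * Equiv.refl ι = κ := mul_one κ
    rw [h5] at h4
    exact (neg_eq_of_add_eq_zero_right h4).symm
  by_contra hcon
  push Not at hcon
  have hq : ∀ τ : Perm T, ∃ q : ℚ, 0 ≤ q ∧ (τ = 1 → 0 < q) ∧ ∀ κ,
      ∑ x : Sel c T, (if ∀ w : T, ty (τ w) = ty w then
        ((Perm.sign (via c T τ x) : ℤˣ) : ℤ) • f (κ * via c T τ x) else 0) = q • f κ := by
    intro τ
    by_cases h : ∀ w : T, ty (τ w) = ty w
    · obtain ⟨q, hq, hqs⟩ := claimTy ty c T f hne' htrans τ h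
      refine ⟨q, hq.le, fun _ => hq, fun κ => ?_⟩
      simp only [if_pos h]
      have e : ∀ x : Sel c T, (Perm.sign (via c T τ x) : ℤˣ) = Perm.sign τ := by
        intro x
        unfold via
        rw [Perm.viaFintypeEmbedding_sign]
      simp only [e]
      rw [← Finset.smul_sum, hqs κ, ← Int.cast_smul_eq_zsmul ℚ, smul_smul, smul_smul]
      congr 1
      rcases Int.units_eq_one_or (Perm.sign τ) with h | h <;> simp [h]
    · refine ⟨0, le_rfl, ?_, fun κ => ?_⟩
      · rintro rfl
        exact absurd (fun w => rfl) h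
      · simp only [if_neg h, Finset.sum_const_zero, zero_smul]
  choose q hq0 hq1 hqs using hq
  apply hfne
  ext κ
  have hsum : ∑ x : Sel c T, ∑ τ : Perm T, (if ∀ w : T, ty (τ w) = ty w then
      ((Perm.sign (via c T τ x) : ℤˣ) : ℤ) • f (κ * via c T τ x) else 0) = 0 := by
    apply Finset.sum_eq_zero
    intro x _
    have h := hcon x κ
    rw [sum_permTy_eq ty c hcty T x (fun τ => ((Perm.sign τ : ℤˣ) : ℤ) • f (κ * τ))] at h
    rw [← h]
    apply Finset.sum_congr rfl
    intro τ _
    congr
  rw [Finset.sum_comm, Finset.sum_congr rfl (fun τ _ => hqs τ κ), ← Finset.sum_smul] at hsum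
  have hpos : (0 : ℚ) < ∑ τ : Perm T, q τ :=
    Finset.sum_pos' (fun τ _ => hq0 τ) ⟨1, mem_univ _, hq1 1 rfl⟩
  rcases smul_eq_zero.mp hsum with h | h
  · exact absurd h hpos.ne'
  · simpa using h

/-- Symmetrization in the first factors vanishes for a bigger set of positions. -/
lemma symm_mono {Y : Type*} [Module ℚ X] (ty : ι → Λ) {A B : Finset ι} (hAB : A ⊆ B)
    (F : (ι → Y) → X) (h : ∀ x : ι → Y, ∑ τ ∈ permTy ty A, F (fun i => x (τ i)) = 0) (x : ι → Y) :
    ∑ τ ∈ permTy ty B, F (fun i => x (τ i)) = 0 := by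
  classical
  have h1 : ∀ α ∈ permTy ty A, ∑ τ ∈ permTy ty B, F (fun i => x (τ i)) =
      ∑ τ ∈ permTy ty B, F (fun i => x (τ (α i))) := by
    intro α hα
    rw [mem_permTy] at hα
    have hαB : ∀ i, i ∉ B → α i = i := fun i hi => hα.1 i (fun h => hi (hAB h))
    refine (Finset.sum_equiv (Equiv.mulRight α) (fun τ => ?_) (fun τ _ => rfl)).symm
    rw [mem_permTy, mem_permTy]
    constructor
    · rintro ⟨h1, h2⟩
      refine ⟨fun i hi => ?_, fun i => ?_⟩
      · change τ (α i) = i
        rw [hαB i hi, h1 i hi]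
      · change ty (τ (α i)) = ty i
        rw [h2, hα.2]
    · rintro ⟨h1, h2⟩
      refine ⟨fun i hi => ?_, fun i => ?_⟩
      · have h3 := h1 i hi
        change τ (α i) = i at h3
        rwa [hαB i hi] at h3
      · have h3 := h2 (α⁻¹ i)
        change ty (τ (α (α⁻¹ i))) = ty (α⁻¹ i) at h3
        have e : α (α⁻¹ i) = i := α.apply_symm_apply i
        rw [e] at h3
        rw [h3, ← hα.2 (α⁻¹ i), e]
  have h2 : #(permTy ty A) • ∑ τ ∈ permTy ty B, F (fun i => x (τ i)) = 0 := by
    rw [← Finset.sum_const, Finset.sum_congr rfl h1, Finset.sum_comm]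
    apply Finset.sum_eq_zero
    intro τ _
    exact h (fun i => x (τ i))
  have h3 : #(permTy ty A) ≠ 0 := by
    rw [Finset.card_ne_zero]
    exact ⟨1, mem_permTy.mpr ⟨fun _ _ => rfl, fun _ => rfl⟩⟩
  rw [← Nat.cast_smul_eq_nsmul ℚ] at h2
  rcases smul_eq_zero.mp h2 with h | h
  · exact absurd h (by exact_mod_cast h3)
  · exact h

/-- Antisymmetry under type preserving permutations. -/
lemma alt_perm {P : Type*} (ty : ι → Λ) (Θ : (ι → P) → X)
    (hsw : ∀ i j, i ≠ j → ty i = ty j → ∀ p, Θ (fun l => p (swap i j l)) = - Θ p)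
    (σ : Perm ι) (hσ : ∀ i, ty (σ i) = ty i) (p : ι → P) :
    Θ (fun i => p (σ i)) = ((Perm.sign σ : ℤˣ) : ℤ) • Θ p := by
  induction' hn : #σ.support using Nat.strong_induction_on with n ih generalizing σ p
  by_cases h1 : σ = 1
  · subst h1
    simp
  · have hsupp : σ.support.Nonempty := by
      rw [Finset.nonempty_iff_ne_empty]
      intro h
      exact h1 (Perm.support_eq_empty_iff.mp h)
    obtain ⟨r, hr⟩ := hsupp
    have hrσ : σ r ≠ r := Perm.mem_support.mp hr
    set σ' : Perm ι := σ * swap (σ r) r with hσ'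
    have hτ : σ = σ' * swap (σ r) r := by rw [hσ', mul_assoc, swap_mul_self, mul_one]
    have hσty : ∀ i, ty (σ' i) = ty i := by
      intro i
      rw [hσ', Perm.mul_apply, hσ]
      by_cases hi : i = σ r
      · rw [hi, swap_apply_left, hσ]
      · by_cases hir : i = r
        · rw [hir, swap_apply_right, hσ]
        · rw [swap_apply_of_ne_of_ne hi hir]
    have hfix : σ' (σ r) = σ r := by rw [hσ', Perm.mul_apply, swap_apply_left]
    have hsub : σ'.support ⊂ σ.support := by
      rw [Finset.ssubset_iff_of_subset]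
      · exact ⟨σ r, Perm.apply_mem_support.mpr hr, by rw [Perm.notMem_support]; exact hfix⟩
      · intro w hw
        by_contra hw'
        have hw1 : σ w = w := by rwa [Perm.notMem_support] at hw'
        have hwr : w ≠ r := by rintro rfl; exact hw' hr
        have hwj : w ≠ σ r := by
          intro h
          apply hw'
          rw [h]
          exact Perm.apply_mem_support.mpr hr
        apply Perm.mem_support.mp hw
        rw [hσ', Perm.mul_apply, swap_apply_of_ne_of_ne hwj hwr, hw1]
    have h2 := ih #σ'.support (by rw [← hn]; exact Finset.card_lt_card hsub) σ' hσty p rfl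
    have h3 := hsw (σ r) r hrσ (hσ r) (fun i => p (σ' i))
    have h4 : (fun i => p (σ i)) = fun i => p (σ' (swap (σ r) r i)) := by
      funext i
      conv_lhs => rw [hτ]
      rfl
    rw [h4, h3, h2]
    have h5 : Perm.sign σ = - Perm.sign σ' := by
      rw [hσ', Perm.sign_mul, Perm.sign_swap hrσ]
      simp
    rw [h5]
    simp

open Classical in
/-- **Representation lemma.** If a function on tuples of pairs is antisymmetric under exchange of
positions of the same type and not zero, then there are sets `B`, `B'` of positions, such that the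
number of positions of each type is at most the product of the numbers of those in `B` and in `B'`,
and such that the joint symmetrization over the first (the second) components in the positions
of `B` (of `B'`) is not zero. -/
theorem rep {X₁ X₂ : Type*} [Module ℚ X] (ty : ι → Λ) (Θ : (ι → X₁ × X₂) → X)
    (hsw : ∀ i j, i ≠ j → ty i = ty j → ∀ p, Θ (fun l => p (swap i j l)) = - Θ p)
    (hne : ∃ p, Θ p ≠ 0) :
    ∃ B B' : Finset ι, (∀ l, #{i | ty i = l} ≤ #{i ∈ B | ty i = l} * #{i ∈ B' | ty i = l}) ∧
      (∃ p : ι → X₁ × X₂, ∑ τ ∈ permTy ty B, Θ (fun i => ((p (τ i)).1, (p i).2)) ≠ 0) ∧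
      (∃ p : ι → X₁ × X₂, ∑ τ ∈ permTy ty B', Θ (fun i => ((p i).1, (p (τ i)).2)) ≠ 0) := by
  let gen : (ι → X₁) → (ι → X₂) → (Perm ι → X) := fun x y κ => Θ (fun i => (x i, y (κ i)))
  let M : AddSubgroup (Perm ι → X) := AddSubgroup.closure {f | ∃ x y, f = gen x y}
  have hgen : ∀ x y, gen x y ∈ M := fun x y => AddSubgroup.subset_closure ⟨x, y, rfl⟩
  have htrg : ∀ x y (τ : Perm ι), (∀ i, ty (τ i) = ty i) → (fun κ => gen x y (κ * τ)) =
      ((Perm.sign τ : ℤˣ) : ℤ) • gen (fun i => x (τ⁻¹ i)) y := by
    intro x y τ hτ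
    funext κ
    have h := alt_perm ty Θ hsw τ hτ (fun i => (x (τ⁻¹ i), y (κ i)))
    have e : ∀ i, τ⁻¹ (τ i) = i := fun i => τ.symm_apply_apply i
    simp only [e] at h
    exact h
  obtain ⟨f, hfM, hfne, c, hcty, hinv, x, κ, hx⟩ := exists_coloringTy ty M (by
    intro f hf τ hτ
    induction hf using AddSubgroup.closure_induction with
    | mem f hf =>
      obtain ⟨x, y, rfl⟩ := hf
      rw [htrg x y τ hτ]
      exact AddSubgroup.zsmul_mem _ (hgen _ _) _
    | zero => exact M.zero_mem
    | add f g _ _ hf hg => exact M.add_mem hf hg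
    | neg f _ hf => exact M.neg_mem hf) (by
    obtain ⟨p, hp⟩ := hne
    refine ⟨gen (fun i => (p i).1) (fun i => (p i).2), hgen (fun i => (p i).1)
      (fun i => (p i).2), fun h => hp ?_⟩
    exact congrFun h 1)
  obtain ⟨κ', hκ'⟩ : ∃ κ', f κ' ≠ 0 := by
    by_contra hcon
    push Not at hcon
    exact hfne (funext hcon)
  -- the largest fibre of each type
  have hcol : ∀ i₁ : ι, ∃ j : ι, ty j = ty i₁ ∧ ∀ i, ty i = ty i₁ →
      #(fib c (c i)) ≤ #(fib c j) := by
    intro i₁
    obtain ⟨i₀, hi₀, hmax⟩ := Finset.exists_max_image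
      (univ.filter (fun i => ty i = ty i₁)) (fun i => #(fib c (c i)))
      ⟨i₁, by simp⟩
    rw [mem_filter] at hi₀
    exact ⟨c i₀, by rw [hcty, hi₀.2], fun i hi => hmax i (by simp [hi])⟩
  -- choose it depending only on the type
  let rep₀ : ι → ι := fun i => (⟨i, rfl⟩ : ∃ i', ty i' = ty i).choose
  have hrep₀ : ∀ i, ty (rep₀ i) = ty i := fun i => (⟨i, rfl⟩ : ∃ i', ty i' = ty i).choose_spec
  have hrep₁ : ∀ i i', ty i = ty i' → rep₀ i = rep₀ i' := by
    intro i i' h
    simp only [rep₀]
    congr 1
    funext z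
    rw [h]
  choose j hj1 hj2 using hcol
  let J : ι → ι := fun i => j (rep₀ i)
  have hJ1 : ∀ i, ty (J i) = ty i := fun i => by
    simp only [J]
    rw [hj1, hrep₀]
  have hJ2 : ∀ i i', ty i' = ty i → #(fib c (c i')) ≤ #(fib c (J i)) := by
    intro i i' h
    exact hj2 _ i' (by rw [h, hrep₀])
  have hJ3 : ∀ i i', ty i = ty i' → J i = J i' := by
    intro i i' h
    simp only [J]
    rw [hrep₁ i i' h]
  have hxty : ∀ w : (univ.image c : Finset ι), ty (x w).1 = ty w := by
    intro w
    rw [← hcty, VC.mem_fib.mp (x w).2]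
  refine ⟨univ.image (fun w => (x w).1), univ.filter (fun i => c i = J i), ?_, ?_, ?_⟩
  · intro l
    by_cases hl : ∃ i, ty i = l
    · obtain ⟨i₁, rfl⟩ := hl
      have h1 : #{i ∈ (univ.image (fun w => (x w).1)) | ty i = ty i₁} =
          #{w ∈ univ.image c | ty w = ty i₁} := by
        symm
        refine Finset.card_bij (fun w hw => (x ⟨w, (mem_filter.mp hw).1⟩).1) ?_ ?_ ?_
        · intro w hw
          rw [mem_filter] at hw ⊢
          exact ⟨mem_image.mpr ⟨⟨w, hw.1⟩, mem_univ _, rfl⟩, by rw [hxty]; exact hw.2⟩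
        · intro w hw w' hw' h
          have := (emb c (univ.image c) x).injective h
          exact congrArg Subtype.val this
        · intro i hi
          rw [mem_filter, mem_image] at hi
          obtain ⟨⟨w, _, rfl⟩, hi2⟩ := hi
          rw [hxty] at hi2
          exact ⟨w.1, mem_filter.mpr ⟨w.2, hi2⟩, rfl⟩
      have h2 : #{i ∈ (univ.filter (fun i => c i = J i)) | ty i = ty i₁} = #(fib c (J i₁)) := by
        congr 1
        ext i
        simp only [mem_filter, mem_univ, true_and, VC.mem_fib]
        constructor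
        · rintro ⟨h1, h2⟩
          rw [h1, hJ3 i i₁ h2]
        · intro h
          have h3 : ty i = ty i₁ := by rw [← hcty, h, hJ1]
          exact ⟨by rw [h, hJ3 i i₁ h3], h3⟩
      rw [h1, h2, mul_comm]
      apply Finset.card_le_mul_card_image_of_maps_to (f := c)
      · intro i hi
        rw [mem_filter] at hi ⊢
        exact ⟨mem_image.mpr ⟨i, mem_univ _, rfl⟩, by rw [hcty]; exact hi.2⟩
      · intro w hw
        rw [mem_filter, mem_image] at hw
        obtain ⟨⟨i, _, rfl⟩, hi⟩ := hw
        rw [hcty] at hi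
        refine le_trans (Finset.card_le_card ?_) (hJ2 i₁ i hi)
        intro z hz
        rw [mem_filter] at hz
        exact VC.mem_fib.mpr hz.2
    · have h1 : (univ.filter (fun i => ty i = l)) = ∅ := by
        rw [Finset.filter_eq_empty_iff]
        intro i _ h
        exact hl ⟨i, h⟩
      rw [h1, Finset.card_empty]
      exact Nat.zero_le _
  · by_contra hcon
    push Not at hcon
    apply hx
    have key : ∀ g ∈ M, ∑ τ ∈ permTy ty (univ.image (fun w => (x w).1)),
          ((Perm.sign τ : ℤˣ) : ℤ) • g (κ * τ) = 0 := by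
      intro g hg
      induction hg using AddSubgroup.closure_induction with
      | mem g hg =>
        obtain ⟨x', y', rfl⟩ := hg
        have h1 : ∀ τ ∈ permTy ty (univ.image (fun w => (x w).1)),
            ((Perm.sign τ : ℤˣ) : ℤ) • gen x' y' (κ * τ) =
              Θ (fun i => (x' (τ⁻¹ i), y' (κ i))) := by
          intro τ hτ
          rw [mem_permTy] at hτ
          have h2 := congrFun (htrg x' y' τ hτ.2) κ
          simp only [Pi.smul_apply] at h2
          rw [h2, smul_smul]
          rcases Int.units_eq_one_or (Perm.sign τ) with h | h <;> rw [h] <;> simp [gen]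
        rw [Finset.sum_congr rfl h1, ← hcon (fun i => (x' i, y' (κ i)))]
        refine Finset.sum_nbij' (fun τ => τ⁻¹) (fun τ => τ⁻¹) ?_ ?_ ?_ ?_ ?_
        · intro τ hτ
          rw [mem_permTy] at hτ ⊢
          refine ⟨fun i hi => ?_, fun i => ?_⟩
          · rw [Equiv.Perm.inv_eq_iff_eq, hτ.1 i hi]
          · rw [← hτ.2 (τ⁻¹ i)]
            congr 1
            exact τ.apply_symm_apply i
        · intro τ hτ
          rw [mem_permTy] at hτ ⊢
          refine ⟨fun i hi => ?_, fun i => ?_⟩
          · rw [Equiv.Perm.inv_eq_iff_eq, hτ.1 i hi]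
          · rw [← hτ.2 (τ⁻¹ i)]
            congr 1
            exact τ.apply_symm_apply i
        · intro τ _; simp
        · intro τ _; simp
        · intro τ _; rfl
      | zero => simp
      | add f g _ _ hf hg =>
        simp only [Pi.add_apply, smul_add, Finset.sum_add_distrib]
        rw [hf, hg, add_zero]
      | neg f _ hf =>
        simp only [Pi.neg_apply, smul_neg, Finset.sum_neg_distrib]
        rw [hf, neg_zero]
    exact key f hfM
  · by_contra hcon
    push Not at hcon
    have key : ∀ g ∈ M, ∑ τ ∈ permTy ty (univ.filter (fun i => c i = J i)), g (κ' * τ) = 0 := by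
      intro g hg
      induction hg using AddSubgroup.closure_induction with
      | mem g hg =>
        obtain ⟨x', y', rfl⟩ := hg
        rw [← hcon (fun i => (x' i, y' (κ' i)))]
        rfl
      | zero => simp
      | add f g _ _ hf hg =>
        simp only [Pi.add_apply, Finset.sum_add_distrib]
        rw [hf, hg, add_zero]
      | neg f _ hf =>
        simp only [Pi.neg_apply, Finset.sum_neg_distrib]
        rw [hf, neg_zero]
    have h1 := key f hfM
    have h2 : ∀ τ ∈ permTy ty (univ.filter (fun i => c i = J i)), f (κ' * τ) = f κ' := by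
      intro τ hτ
      rw [mem_permTy] at hτ
      apply hinv
      intro i
      by_cases hi : i ∈ univ.filter (fun i => c i = J i)
      · have h3 : τ i ∈ univ.filter (fun i => c i = J i) := by
          by_contra h3
          have h4 := hτ.1 _ h3
          have h5 := τ.injective h4
          rw [h5] at h3
          exact h3 hi
        rw [mem_filter] at hi h3
        rw [h3.2, hi.2, hJ3 _ _ (hτ.2 i)]
      · rw [hτ.1 i hi]
    rw [Finset.sum_congr rfl h2, Finset.sum_const, ← Nat.cast_smul_eq_nsmul ℚ] at h1
    rcases smul_eq_zero.mp h1 with h | h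
    · have h3 : #(permTy ty (univ.filter (fun i => c i = J i))) ≠ 0 := by
        rw [Finset.card_ne_zero]
        exact ⟨1, mem_permTy.mpr ⟨fun _ _ => rfl, fun _ => rfl⟩⟩
      exact h3 (by exact_mod_cast h)
    · exact hκ' h

end BQ
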