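import Mathlib
import Pool.Agent.Helper9.NS
import Pool.Agent.Helper70.BQ.Data
import Pool.Agent.Helper70.BQ.Defs
import Pool.Agent.Helper70.VP.Tw

/-!
# Equivariant functions on tuples of points and the Galois group of a cover of the line
-/

set_option autoImplicit false

namespace BQ

open VC VQ VP Function IntermediateField Polynomial

universe u

section equi

variable {k E : Type u} [Field k] [Field E] [Algebra k E] (hE : IsFunctionField k E)
  {W : Type*} [Group W] {a : W →* (E ≃ₐ[k] E)} {χ : W →* kˣ}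

/-- Multiplication of several coordinates by group elements. -/
lemma equi_all {J : Type*} [Fintype J] [DecidableEq J] {Ψ : (J → Place k E) → k}
    (hequi : ∀ j w p, Ψ (update p j (act hE (a w) (p j))) = (χ w : k) * Ψ p)
    (w : J → W) (p : J → Place k E) :
    Ψ (fun j => act hE (a (w j)) (p j)) = ((∏ j, χ (w j) : kˣ) : k) * Ψ p := by
  classical
  have key : ∀ S : Finset J, Ψ (fun j => if j ∈ S then act hE (a (w j)) (p j) else p j) =
      ((∏ j ∈ S, χ (w j) : kˣ) : k) * Ψ p := by
    intro S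
    induction S using Finset.induction_on with
    | empty => simp
    | insert i S hi ih =>
      rw [Finset.prod_insert hi, Units.val_mul, mul_assoc, ← ih,
        ← hequi i (w i) (fun j => if j ∈ S then act hE (a (w j)) (p j) else p j)]
      congr 1
      funext j
      by_cases hj : j = i
      · subst hj
        simp [hi]
      · rw [update_of_ne hj]
        simp [hj]
  simpa using key Finset.univ

lemma equi_zero {J : Type*} [DecidableEq J] {Ψ : (J → Place k E) → k}
    (hequi : ∀ j w p, Ψ (update p j (act hE (a w) (p j))) = (χ w : k) * Ψ p)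
    (p : J → Place k E) (j : J) (w : W) (hw : χ w ≠ 1) (hj : act hE (a w) (p j) = p j) :
    Ψ p = 0 := by
  have h := hequi j w p
  rw [hj, update_eq_self] at h
  have h2 : ((χ w : k) - 1) * Ψ p = 0 := by rw [sub_mul, ← h]; ring
  rcases mul_eq_zero.mp h2 with h3 | h3
  · exfalso
    apply hw
    ext
    rw [Units.val_one]
    exact sub_eq_zero.mp h3
  · exact h3

end equi

section galois

variable {k E : Type u} [Field k] [Field E] [Algebra k E]
  (hE : IsFunctionField k E)
  {W : Type*} [Group W] [Finite W] {a : W →* (E ≃ₐ[k] E)} {χ : W →* kˣ}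
  {K : Type u} [Field K] [Algebra k K] (hK : IsFunctionField k K)
  [IsAlgClosed k] [CharZero k] [Algebra E K] [IsScalarTower k E K]

/-- Under an element `g` of the Galois group of `K` over `k(t)` the product of the conjugates
of `y` and the equivariant symmetric functions change by the same factor. -/
theorem gal_eig {y : E} (hy : IsEig a χ y) (t : fixedField a.range)
    (G : Type u) [Group G] [Finite G] [MulSemiringAction G K]
    (hG : IsGaloisGroup G k⟮algebraMap E K (t : E)⟯ K)
    [Fintype {φ : fixedField a.range →ₐ[k] K // φ t = algebraMap E K (t : E)}]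
    (Λ : {φ : fixedField a.range →ₐ[k] K // φ t = algebraMap E K (t : E)} → (E →ₐ[k] K))
    (hΛ : ∀ φ, ∀ x : fixedField a.range, Λ φ (x : E) = φ.1 x)
    {J : Type*} [Fintype J] [DecidableEq J]
    (e : {φ : fixedField a.range →ₐ[k] K // φ t = algebraMap E K (t : E)} ↪ J)
    {Ψ : (J → Place k E) → k} (hsym : ∀ (σ : Equiv.Perm J) p, Ψ (p ∘ σ) = Ψ p)
    (hequi : ∀ j w p, Ψ (update p j (act hE (a w) (p j))) = (χ w : k) * Ψ p)
    (x : J → Place k E) (g : G) :
    ∃ ε : kˣ, (∀ m : ℕ, (∀ w, χ w ^ m = 1) → ε ^ m = 1) ∧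
      g • (∏ φ, Λ φ y) = algebraMap k K (ε : k) * (∏ φ, Λ φ y) ∧ ∀ v : Place k K,
      Ψ (zpt hE hK Λ e x (act hK (gEquiv _ G hG g) v)) =
        (ε : k) * Ψ (zpt hE hK Λ e x v) := by
  classical
  have hgT : ∀ g : G, g • (algebraMap E K (t : E)) = algebraMap E K (t : E) :=
    fun g => gEquiv_gen _ G hG g
  let γ : G → {φ : fixedField a.range →ₐ[k] K // φ t = algebraMap E K (t : E)} →
      {φ : fixedField a.range →ₐ[k] K // φ t = algebraMap E K (t : E)} := fun g φ =>
    ⟨(gEquiv _ G hG g : K →ₐ[k] K).comp φ.1, by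
      change g • (φ.1 t) = _
      rw [φ.2, hgT]⟩
  have hγ1 : ∀ (a b : G) φ, γ a (γ b φ) = γ (a * b) φ := by
    intro a b φ
    apply Subtype.ext
    apply AlgHom.ext
    intro z
    change a • (b • (φ.1 z)) = (a * b) • (φ.1 z)
    rw [mul_smul]
  have hγ2 : ∀ φ, γ 1 φ = φ := by
    intro φ
    apply Subtype.ext
    apply AlgHom.ext
    intro z
    change (1 : G) • (φ.1 z) = φ.1 z
    rw [one_smul]
  let P : Equiv.Perm {φ : fixedField a.range →ₐ[k] K // φ t = algebraMap E K (t : E)} :=
    ⟨γ g, γ g⁻¹, fun φ => by rw [hγ1, inv_mul_cancel, hγ2], fun φ => by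
      rw [hγ1, mul_inv_cancel, hγ2]⟩
  have hex : ∀ φ, ∃ h : W, ∀ z : E, g • (Λ φ z) = Λ (P φ) (a h z) := by
    intro φ
    obtain ⟨⟨_, h, rfl⟩, hh⟩ := lift_diff a.range (Λ (P φ))
      ((gEquiv _ G hG g : K →ₐ[k] K).comp (Λ φ)) (by
      intro z hz
      change _ = g • (Λ φ z)
      have h1 := hΛ (P φ) ⟨z, hz⟩
      have h2 := hΛ φ ⟨z, hz⟩
      rw [h2]
      exact h1)
    exact ⟨h, hh⟩
  choose h hh using hex
  refine ⟨∏ φ, χ (h φ), ?_, ?_, ?_⟩
  · intro m hm
    rw [← Finset.prod_pow]
    exact Finset.prod_eq_one (fun φ _ => hm _)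
  · rw [Finset.smul_prod']
    have h1 : ∀ φ, g • (Λ φ y) = algebraMap k K (χ (h φ) : k) * Λ (P φ) y := by
      intro φ
      rw [hh, hy.eq, map_mul, AlgHom.commutes]
    rw [Finset.prod_congr rfl (fun φ _ => h1 φ)]
    rw [Finset.prod_mul_distrib, Equiv.prod_comp P (fun φ => Λ φ y)]
    congr 1
    rw [← map_prod, Units.coe_prod]
  · intro v
    let h' : J → W := fun j => if hj : ∃ φ, e φ = j then h hj.choose else 1
    have h'e : ∀ φ, h' (e φ) = h φ := by
      intro φ
      have h0 : ∃ ψ, e ψ = e φ := ⟨φ, rfl⟩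
      have h2 : h0.choose = φ := e.injective h0.choose_spec
      simp only [h']
      rw [dif_pos h0, h2]
    have h'n : ∀ j, (¬ ∃ φ, e φ = j) → h' j = 1 := by
      intro j hj
      simp only [h']
      rw [dif_neg hj]
    have hz : zpt hE hK Λ e x (act hK (gEquiv _ G hG g) v) =
        fun j => act hE (a (h' j)) ((zpt hE hK Λ e x v ∘ (P.viaEmbedding e)) j) := by
      funext j
      by_cases hj : ∃ φ, e φ = j
      · obtain ⟨φ, rfl⟩ := hj
        rw [h'e, comp_apply, Equiv.Perm.viaEmbedding_apply]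
        unfold zpt
        rw [zmor_emb, zmor_emb]
        ext b
        change g • (Λ φ b) ∈ v.ring ↔ Λ (P φ) (a (h φ) b) ∈ v.ring
        rw [hh]
      · rw [h'n j hj, comp_apply, Equiv.Perm.viaEmbedding_apply_of_notMem _ _ _ (by
          rintro ⟨φ, hφ⟩
          exact hj ⟨φ, hφ⟩)]
        unfold zpt
        rw [zmor_not hE Λ e x j hj, map_one]
        exact (act_one hE _).symm
    rw [hz, equi_all hE hequi, hsym]
    congr 2
    symm
    exact Fintype.prod_of_injective e e.injective _ _ (fun j hj => by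
      rw [h'n j hj, map_one]) (fun φ => by rw [h'e])

end galois

end BQ
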