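import Mathlib
import Pool.Agent.Helper9.NS
import Pool.Agent.Helper70.BQ.Gal
import Pool.Agent.Helper83.VF.Kill

/-!
# Vanishing of symmetrizations of invariant functions
-/

set_option autoImplicit false

namespace BQ

open VC VQ VP VF Function IntermediateField

universe u

section killsC

variable {k E : Type u} [Field k] [IsAlgClosed k] [CharZero k] [Field E] [Algebra k E]
  {hE : IsFunctionField k E} {J : Type*} {Ψ : (J → Place k E) → k}

lemma finsum_ord {K : Type u} [Field K] [Algebra k K] (hK : IsFunctionField k K) {T : K}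
    (hT : T ≠ 0) (g : Place k K → k) :
    ∑ᶠ v : Place k K, (ord v.ring T : k) * g v =
      ∑ v ∈ (finite_support_ord hK hT).toFinset, (ord v.ring T : k) * g v := by
  apply finsum_eq_sum_of_support_subset
  intro v hv
  rw [Set.Finite.coe_toFinset]
  change ord v.ring T ≠ 0
  intro h0
  apply hv
  change (ord v.ring T : k) * g v = 0
  rw [h0]
  simp

lemma KillsC.sum {ι : Type*} (s : Finset ι) {f : ι → (J → Place k E) → k}
    (h : ∀ i ∈ s, KillsC hE (f i)) : KillsC hE (fun w => ∑ i ∈ s, f i w) := by
  intro K _ _ hK z T hT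
  rw [finsum_ord hK hT]
  simp only [Finset.mul_sum]
  rw [Finset.sum_comm]
  apply Finset.sum_eq_zero
  intro i hi
  rw [← finsum_ord hK hT]
  exact h i hi K hK z T hT

omit [IsAlgClosed k] [CharZero k] in
lemma KillsC.comp_perm (h : KillsC hE Ψ) (τ : Equiv.Perm J) :
    KillsC hE (fun w => Ψ (w ∘ τ)) := by
  intro K _ _ hK z T hT
  exact h K hK (z ∘ τ) T hT

lemma killsC_of_kills {X : Variety k} {θ : X.Pt → k} (hθ : Kills X θ)
    (ins : (J → Place k E) → X.Pt)
    (hins : ∀ (K : Type u) [Field K] [Algebra k K] (hK : IsFunctionField k K)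
      (z : J → (curve hE).Mor K), ∃ c : X.Mor K, ∀ v, X.eval hK c v =
        ins (fun j => (curve hE).eval hK (z j) v)) :
    KillsC hE (fun w => θ (ins w)) := by
  intro K _ _ hK z T hT
  rw [finsum_ord hK hT]
  obtain ⟨c, hc⟩ := hins K hK z
  have h1 := hθ.gen hK c hT
  rw [← h1]
  apply Finset.sum_congr rfl
  intro v _
  rw [hc]

lemma kills_of_killsC {n : ℕ} {Ψ : (Fin n → Place k E) → k} (h : KillsC hE Ψ) :
    Kills ((curve hE).pow n) Ψ := by
  intro z hz
  unfold Variety.Rat at hz
  induction hz using AddSubgroup.closure_induction with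
  | mem z hz =>
    obtain ⟨K, _, _, hK, c, f, hf, rfl⟩ := hz
    rw [finsum_eq_sum_of_support_subset (s := (finite_support_ord hK hf).toFinset) _ (by
      intro v hv
      rw [Set.Finite.coe_toFinset]
      change ord v.ring f ≠ 0
      intro h0
      apply hv
      change Finsupp.single _ (ord v.ring f) = 0
      rw [h0, Finsupp.single_zero]), map_sum]
    have h1 := h K hK c f hf
    rw [finsum_ord hK hf] at h1
    rw [← h1]
    apply Finset.sum_congr rfl
    intro v _
    rw [Finsupp.linearCombination_single, zsmul_eq_mul]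
  | zero => rw [map_zero]
  | add x y _ _ hx hy => rw [map_add, hx, hy, add_zero]
  | neg x _ hx => rw [map_neg, hx, neg_zero]

end killsC

section triv

variable {k E : Type u} [Field k] [IsAlgClosed k] [CharZero k] [Field E] [Algebra k E]
  (hE : IsFunctionField k E)

lemma lc_eq_of_cl_eq {X : Variety k} {θ : X.Pt → k} (hθ : Kills X θ) {z w : X.Cycles}
    (h : cl X z = cl X w) :
    Finsupp.linearCombination ℤ θ z = Finsupp.linearCombination ℤ θ w := by
  obtain ⟨m, hm, h⟩ := (cl_eq_iff X z w).mp h
  have h1 := hθ _ h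
  rw [map_nsmul, map_sub, nsmul_eq_mul] at h1
  rcases mul_eq_zero.mp h1 with h2 | h2
  · exfalso
    exact hm.ne' (by exact_mod_cast h2)
  · exact sub_eq_zero.mp h2

/-- The symmetrization of a function which is invariant under the group `H` in each variable, kills
divisors and vanishes if one of the points is the base point, vanishes on the `J`-tuples if `J` has
`g + 1` elements, `g` the genus of the quotient curve. -/
theorem triv_vanish (H : Subgroup (E ≃ₐ[k] E)) [Finite H] (g : ℕ)
    (hg : ∀ D : Place k (fixedField H) →₀ ℤ,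
      (D.sum fun _ m => m) + 1 ≤
        (Module.finrank k (riemannRochSpace k (fixedField H) D) : ℤ) + g)
    {J : Type*} [Fintype J] [DecidableEq J] (hJ : Fintype.card J = g + 1)
    {Ψ : (J → Place k E) → k} (hKi : KillsC hE Ψ)
    (hinv : ∀ j (h : H) p, Ψ (update p j (act hE h.1 (p j))) = Ψ p) (o : Place k E)
    (hzero : ∀ p j, p j = o → Ψ p = 0) (x : J → Place k E) :
    ∑ τ : Equiv.Perm J, Ψ (x ∘ τ) = 0 := by
  have : Fintype H := Fintype.ofFinite _
  let e : J ≃ Fin (g + 1) := Fintype.equivFinOfCardEq hJ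
  let ins : (J → Place k E) → (Fin (g + 1) → Place k E) := fun w => w ∘ e.symm
  let θ : (Fin (g + 1) → Place k E) → k := fun p => Ψ (p ∘ e)
  have hθ : Kills ((curve hE).pow (g + 1)) θ := by
    apply kills_of_killsC
    intro K _ _ hK z T hT
    exact hKi K hK (z ∘ e) T hT
  have hθi : ∀ w, θ (ins w) = Ψ w := by
    intro w
    simp only [θ, ins]
    congr 1
    funext j
    simp
  obtain ⟨y, ⟨j, σ, hj⟩, hcl⟩ := move_sum_lift hE H g hg hJ ((curve hE).pow (g + 1)) ins (by
    intro K _ _ hK z
    exact ⟨z ∘ e.symm, fun v => rfl⟩) x o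
  have hall : ∀ (w : J → H) (p : J → Place k E), Ψ (fun j => act hE (w j).1 (p j)) = Ψ p := by
    intro w p
    have := equi_all hE (a := H.subtype) (χ := 1) (Ψ := Ψ) (by
      intro j w p
      rw [MonoidHom.one_apply, Units.val_one, one_mul]
      exact hinv j w p) w p
    simpa using this
  have h1 : ∀ w : J → Place k E, Finsupp.linearCombination ℤ θ (avg hE H ins w) =
      (Fintype.card (J → H) : k) * Ψ w := by
    intro w
    unfold avg
    rw [map_sum]
    have h2 : ∀ h : J → H, Finsupp.linearCombination ℤ θ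
        (Finsupp.single (ins (fun j => act hE (h j).1 (w j))) (1 : ℤ)) = Ψ w := by
      intro h
      rw [Finsupp.linearCombination_single, one_smul, hθi, hall]
    rw [Finset.sum_congr rfl (fun h _ => h2 h), Finset.sum_const, Finset.card_univ, nsmul_eq_mul]
  have h2 := lc_eq_of_cl_eq hθ hcl
  rw [map_sum, map_sum] at h2
  simp only [h1] at h2
  have h3 : ∀ τ : Equiv.Perm J, Ψ (y ∘ τ) = 0 := by
    intro τ
    have e1 := hinv (τ⁻¹ j) σ (update (y ∘ τ) (τ⁻¹ j) o)
    rw [update_self, update_idem, ← hj] at e1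
    have e2 : update (y ∘ τ) (τ⁻¹ j) (y j) = y ∘ τ := by
      funext i
      by_cases hi : i = τ⁻¹ j
      · subst hi
        simp
      · rw [update_of_ne hi]
    rw [e2] at e1
    rw [e1]
    exact hzero _ (τ⁻¹ j) (by simp)
  simp only [h3, mul_zero, Finset.sum_const_zero] at h2
  rw [← Finset.mul_sum] at h2
  rcases mul_eq_zero.mp h2 with h | h
  · exfalso
    have : Fintype.card (J → H) ≠ 0 := Fintype.card_ne_zero
    exact this (by exact_mod_cast h)
  · exact h

end triv

end BQ
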