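import Mathlib
import Pool.Agent.Helper9.NS
import Pool.Agent.Helper34.BQ.R
import Pool.Agent.Helper70.BQ.Pair
import Pool.Agent.Helper70.BQ.Rep
import Pool.Agent.Helper70.BQ.Triv

/-!
# Joint symmetrization for a pair of inverse characters
-/

set_option autoImplicit false

namespace BQ

open VC VQ VP VF Function IntermediateField

universe u

section defs

variable {k E : Type u} [Field k] [Field E] [Algebra k E] {W : Type*} [Group W] [Finite W]

/-- The cyclic cover `C / ker χ → C / W` is ramified over exactly `r` points, `r > 0`. -/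
def Ramified (a : W →* (E ≃ₐ[k] E)) (χ : W →* kˣ) (r : ℕ) : Prop :=
  0 < r ∧ ∃ (m : ℕ) (_ : 0 < m) (hm : ∀ w, χ w ^ m = 1) (y : E) (hy : IsEig a χ y),
    Nat.card {P : Place k (fixedField a.range) // hy.loc hm P ≠ 0} = r

/-- The possible types of a pair `(W, χ)` acting on a curve `C`, with the multiplicity `N` of the
character `χ` in the representation of `W` on the first cohomology of `C`:

* some element of `W` on which `χ` is not `1` acts trivially on `C`; then `N = 0`;
* the cover `C / ker χ → C / W` is ramified over `r > 0` points; then `N = 2 g(C / W) - 2 + r`. -/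
inductive Full (a : W →* (E ≃ₐ[k] E)) (χ : W →* kˣ) (N : ℕ) : Prop
  | zero (w : W) (haw : a w = 1) (hw : χ w ≠ 1) (hN : N = 0)
  | ram (γ r : ℕ) (hγ : IsGenus k (fixedField a.range) γ) (hr : Ramified a χ r)
      (hN : N + 2 = 2 * γ + r)

end defs

section perm

variable {ι Λ Λ' M : Type*} [Fintype ι] [DecidableEq ι] [AddCommMonoid M]

open Classical in
lemma sum_permTy_ofSubtype (ty : ι → Λ) (J : Finset ι) (G : Equiv.Perm ι → M) :
    ∑ τ ∈ permTy ty J, G τ = ∑ τ : Equiv.Perm J,
      if ∀ j : J, ty (τ j) = ty j then G (Equiv.Perm.ofSubtype τ) else 0 := by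
  unfold permTy
  rw [Finset.sum_filter, sum_permOn_ofSubtype]
  apply Finset.sum_congr rfl
  intro τ _
  have e : (∀ i, ty ((Equiv.Perm.ofSubtype τ) i) = ty i) ↔ ∀ j : J, ty (τ j) = ty j := by
    constructor
    · intro h j
      have := h j
      rwa [Equiv.Perm.ofSubtype_apply_coe] at this
    · intro h i
      by_cases hi : i ∈ J
      · rw [Equiv.Perm.ofSubtype_apply_of_mem τ hi]
        exact h ⟨i, hi⟩
      · rw [Equiv.Perm.ofSubtype_apply_of_not_mem τ hi]
  simp only [e]

lemma permTy_congr (ty : ι → Λ) (ty' : ι → Λ') (J : Finset ι)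
    (h : ∀ i ∈ J, ∀ j ∈ J, ty i = ty j ↔ ty' i = ty' j) : permTy ty J = permTy ty' J := by
  ext τ
  rw [mem_permTy, mem_permTy]
  apply and_congr_right
  intro h1
  apply forall_congr'
  intro i
  by_cases hi : i ∈ J
  · have h2 : τ i ∈ J := by
      by_contra hcon
      have h3 := h1 _ hcon
      have h4 := τ.injective h3
      rw [h4] at hcon
      exact hcon hi
    exact h _ h2 _ hi
  · rw [h1 i hi]
    simp

lemma permTy_const (ty : ι → Λ) (J : Finset ι) (h : ∀ i ∈ J, ∀ j ∈ J, ty i = ty j) :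
    permTy ty J = permOn J := by
  rw [permTy_congr ty (fun _ => ()) J (fun i hi j hj => by simp [h i hi j hj])]
  unfold permTy
  simp

end perm

section side

variable {k E : Type u} [Field k] [IsAlgClosed k] [CharZero k] [Field E] [Algebra k E]
  (hE : IsFunctionField k E)
  {W : Type*} [Group W] [Finite W] {a : W →* (E ≃ₐ[k] E)} {χ : W →* kˣ}

open Classical in
/-- **Vanishing of the joint symmetrization.** -/
theorem pair_side {N : ℕ} (hFull : Full a χ N)
    {J : Type*} [Fintype J] [DecidableEq J] (ty : J → Bool) (hJ : Fintype.card J = N + 1)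
    {Ψ : (J → Place k E) → k} (hKi : KillsC hE Ψ)
    (hequi : ∀ j w p, Ψ (update p j (act hE (a w) (p j))) =
      ((χ w ^ exb (ty j) : kˣ) : k) * Ψ p) (x : J → Place k E) :
    ∑ τ : Equiv.Perm J, (if ∀ j, ty (τ j) = ty j then Ψ (x ∘ τ) else 0) = 0 := by
  rcases hFull with ⟨w, haw, hw, hN⟩ | ⟨γ, r, hγ, ⟨hr, m, hm0, hm, y, hy, hcard⟩, hN⟩
  · subst hN
    have hne : Nonempty J := by
      rw [← Fintype.card_pos_iff, hJ]
      exact one_pos
    obtain ⟨j⟩ := hne
    apply Finset.sum_eq_zero
    intro τ _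
    split_ifs
    · refine equi_zero' hE (fun j w => χ w ^ exb (ty j)) hequi _ j w ?_
        (by rw [haw]; exact act_one hE _)
      rcases exb_cases (ty j) with h | h
      · simp only [h, zpow_one]; exact hw
      · simp only [h, zpow_neg_one]; exact inv_ne_one.mpr hw
    · rfl
  · refine pair_vanish hE hy hm0 hm (fun P hP => exists_stab hE hy hm0 hm P hP) γ hγ.1 hr hcard
      ty (by omega)
      (Ψ := fun x => ∑ τ : Equiv.Perm J, (if ∀ j, ty (τ j) = ty j then Ψ (x ∘ τ) else 0))
      ?_ ?_ ?_ x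
    · have h : (fun x : J → Place k E => ∑ τ : Equiv.Perm J,
          (if ∀ j, ty (τ j) = ty j then Ψ (x ∘ τ) else 0)) =
          fun x => ∑ τ ∈ Finset.univ.filter (fun τ : Equiv.Perm J => ∀ j, ty (τ j) = ty j),
            Ψ (x ∘ τ) := by
        funext x
        rw [Finset.sum_filter]
      rw [h]
      exact KillsC.sum _ (fun τ _ => hKi.comp_perm τ)
    · intro σ hσ p
      refine Fintype.sum_equiv (Equiv.mulLeft σ) _ _ (fun τ => ?_)
      have e : (∀ j, ty (τ j) = ty j) ↔ ∀ j, ty ((Equiv.mulLeft σ τ) j) = ty j := by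
        apply forall_congr'
        intro j
        have : (Equiv.mulLeft σ τ) j = σ (τ j) := rfl
        rw [this, hσ]
      simp only [e]
      rfl
    · intro j w p
      rw [Finset.mul_sum]
      apply Finset.sum_congr rfl
      intro τ _
      split_ifs with hτ
      · have h1 : ty (τ⁻¹ j) = ty j := by
          have h2 := hτ (τ⁻¹ j)
          have h3 : τ (τ⁻¹ j) = j := τ.apply_symm_apply j
          rw [h3] at h2
          exact h2.symm
        rw [← h1, ← hequi (τ⁻¹ j)]
        congr 1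
        funext i
        simp only [comp_apply]
        by_cases hi : i = τ⁻¹ j
        · subst hi
          simp
        · rw [update_of_ne hi, update_of_ne]
          · rfl
          · intro h
            apply hi
            rw [← h]
            simp
      · rw [mul_zero]

end side

section sides

variable {k : Type u} [Field k] [IsAlgClosed k] [CharZero k]
  {F₁ F₂ : Type u} [Field F₁] [Algebra k F₁] [Field F₂] [Algebra k F₂]
  (h₁ : IsFunctionField k F₁) (h₂ : IsFunctionField k F₂) {n : ℕ}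

theorem pair_left {θ : (Fin n → Place k F₁ × Place k F₂) → k}
    (hθ : Kills (((curve h₁).prod (curve h₂)).pow n) θ)
    {W : Type*} [Group W] [Finite W] {a : W →* (F₁ ≃ₐ[k] F₁)} {χ : W →* kˣ} {N : ℕ}
    (hFull : Full a χ N) (J : Finset (Fin n)) (hJ : J.card = N + 1) (ty : Fin n → Bool)
    (hequi : ∀ i ∈ J, ∀ w p, θ (update p i (act h₁ (a w) (p i).1, (p i).2)) =
      ((χ w ^ exb (ty i) : kˣ) : k) * θ p)
    (p : Fin n → Place k F₁ × Place k F₂) :
    ∑ τ ∈ permTy ty J, θ (fun i => ((p (τ i)).1, (p i).2)) = 0 := by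
  classical
  let ins : (J → Place k F₁) → (Fin n → Place k F₁ × Place k F₂) :=
    fun w i => (if h : i ∈ J then w ⟨i, h⟩ else (p i).1, (p i).2)
  have hk : KillsC h₁ (fun w => θ (ins w)) := killsC_of_kills hθ ins (by
    intro K _ _ hK z
    refine ⟨fun i => (if h : i ∈ J then z ⟨i, h⟩ else Sum.inl (p i).1, Sum.inl (p i).2), ?_⟩
    intro v
    funext i
    simp only [ins]
    ext1
    · by_cases h : i ∈ J
      · simp [h]
      · simp [h]
    · rfl)
  have key := pair_side h₁ hFull (J := J) (fun j => ty j) (by simpa using hJ) hk (by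
    intro j w x
    have e : ins (update x j (act h₁ (a w) (x j))) =
        update (ins x) j.1 (act h₁ (a w) (ins x j.1).1, (ins x j.1).2) := by
      funext i
      by_cases hi : i = j.1
      · subst hi
        rw [update_self]
        simp only [ins, dif_pos j.2, Subtype.coe_eta, update_self]
      · rw [update_of_ne hi]
        simp only [ins]
        by_cases h : i ∈ J
        · rw [dif_pos h, dif_pos h, update_of_ne (fun h' => hi (congrArg Subtype.val h'))]
        · rw [dif_neg h, dif_neg h]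
    rw [e, hequi j.1 j.2]) (fun j => (p j.1).1)
  rw [sum_permTy_ofSubtype, ← key]
  apply Finset.sum_congr rfl
  intro τ _
  congr 1
  apply congrArg θ
  funext i
  simp only [ins]
  by_cases h : i ∈ J
  · rw [dif_pos h, Equiv.Perm.ofSubtype_apply_of_mem τ h]
    rfl
  · rw [dif_neg h, Equiv.Perm.ofSubtype_apply_of_not_mem τ h]

theorem pair_right {θ : (Fin n → Place k F₁ × Place k F₂) → k}
    (hθ : Kills (((curve h₁).prod (curve h₂)).pow n) θ)
    {W : Type*} [Group W] [Finite W] {a : W →* (F₂ ≃ₐ[k] F₂)} {χ : W →* kˣ} {N : ℕ}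
    (hFull : Full a χ N) (J : Finset (Fin n)) (hJ : J.card = N + 1) (ty : Fin n → Bool)
    (hequi : ∀ i ∈ J, ∀ w p, θ (update p i ((p i).1, act h₂ (a w) (p i).2)) =
      ((χ w ^ exb (ty i) : kˣ) : k) * θ p)
    (p : Fin n → Place k F₁ × Place k F₂) :
    ∑ τ ∈ permTy ty J, θ (fun i => ((p i).1, (p (τ i)).2)) = 0 := by
  classical
  let ins : (J → Place k F₂) → (Fin n → Place k F₁ × Place k F₂) :=
    fun w i => ((p i).1, if h : i ∈ J then w ⟨i, h⟩ else (p i).2)
  have hk : KillsC h₂ (fun w => θ (ins w)) := killsC_of_kills hθ ins (by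
    intro K _ _ hK z
    refine ⟨fun i => (Sum.inl (p i).1, if h : i ∈ J then z ⟨i, h⟩ else Sum.inl (p i).2), ?_⟩
    intro v
    funext i
    simp only [ins]
    ext1
    · rfl
    · by_cases h : i ∈ J
      · simp [h]
      · simp [h])
  have key := pair_side h₂ hFull (J := J) (fun j => ty j) (by simpa using hJ) hk (by
    intro j w x
    have e : ins (update x j (act h₂ (a w) (x j))) =
        update (ins x) j.1 ((ins x j.1).1, act h₂ (a w) (ins x j.1).2) := by
      funext i
      by_cases hi : i = j.1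
      · subst hi
        rw [update_self]
        simp only [ins, dif_pos j.2, Subtype.coe_eta, update_self]
      · rw [update_of_ne hi]
        simp only [ins]
        by_cases h : i ∈ J
        · rw [dif_pos h, dif_pos h, update_of_ne (fun h' => hi (congrArg Subtype.val h'))]
        · rw [dif_neg h, dif_neg h]
    rw [e, hequi j.1 j.2]) (fun j => (p j.1).2)
  rw [sum_permTy_ofSubtype, ← key]
  apply Finset.sum_congr rfl
  intro τ _
  congr 1
  apply congrArg θ
  funext i
  simp only [ins]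
  by_cases h : i ∈ J
  · rw [dif_pos h, Equiv.Perm.ofSubtype_apply_of_mem τ h]
    rfl
  · rw [dif_neg h, Equiv.Perm.ofSubtype_apply_of_not_mem τ h]

end sides

section inverse

variable {k E : Type u} [Field k] [Field E] [Algebra k E] {W : Type*} [Group W] [Finite W]
  {a : W →* (E ≃ₐ[k] E)} {χ : W →* kˣ}

lemma hm_inv {m : ℕ} (hm : ∀ w, χ w ^ m = 1) (w : W) : (χ⁻¹ : W →* kˣ) w ^ m = 1 := by
  rw [MonoidHom.inv_apply, inv_pow, hm, inv_one]

lemma IsEig.inv {y : E} (hy : IsEig a χ y) : IsEig a χ⁻¹ y⁻¹ := by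
  refine ⟨inv_ne_zero hy.ne, fun w => ?_⟩
  rw [map_inv₀, hy.eq, mul_inv, ← map_inv₀, MonoidHom.inv_apply, Units.val_inv_eq_inv_val]

lemma IsEig.loc_inv [IsAlgClosed k] [CharZero k] (hE : IsFunctionField k E) {y : E}
    (hy : IsEig a χ y) {m : ℕ} (hm : ∀ w, χ w ^ m = 1) (P : Place k (fixedField a.range)) :
    hy.inv.loc (hm_inv hm) P = - hy.loc hm P := by
  have hF := isFunctionField_fixed a.range hE
  unfold IsEig.loc
  have e : hy.inv.pw (hm_inv hm) = (hy.pw hm)⁻¹ := by
    apply Subtype.ext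
    change y⁻¹ ^ m = (y ^ m)⁻¹
    rw [inv_pow]
  rw [e, ord_inv hF P (hy.pw_ne_zero hm)]
  push_cast
  rfl

lemma Balanced.inv [IsAlgClosed k] [CharZero k] (hE : IsFunctionField k E) {s : ℕ}
    (h : Balanced a χ s) : Balanced a χ⁻¹ s := by
  obtain ⟨hs, m, hm0, hm, y, hy, hcard, hbal⟩ := h
  have hloc := hy.loc_inv hE hm
  refine ⟨hs, m, hm0, hm_inv hm, y⁻¹, hy.inv, ?_, ?_⟩
  · rw [← hcard]
    exact Nat.card_congr (Equiv.subtypeEquivRight (fun P => by rw [hloc]; exact neg_ne_zero))
  · rcases hbal with hbal | ⟨ν, φ, hν⟩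
    · left
      intro r hr
      have h1 := hbal r hr
      have e1 : ∀ r : ZMod m, Nat.card {P : Place k (fixedField a.range) //
          hy.inv.loc (hm_inv hm) P = r} =
          Nat.card {P : Place k (fixedField a.range) // hy.loc hm P = - r} := by
        intro r
        exact Nat.card_congr (Equiv.subtypeEquivRight (fun P => by
          rw [hloc, neg_eq_iff_eq_neg]))
      rw [e1, e1, neg_neg, h1]
    · right
      refine ⟨ν, φ, fun w => ⟨(hν w).1, ?_⟩⟩
      rw [MonoidHom.inv_apply, MonoidHom.inv_apply, (hν w).2]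

lemma Divided.inv [IsAlgClosed k] [CharZero k] (hE : IsFunctionField k E) {r n : ℕ}
    (h : Divided a χ r n) : Divided a χ⁻¹ r n := by
  obtain ⟨hn, m, hm0, hm, y, hy, hcard, β, hβ, hsum⟩ := h
  have hloc := hy.loc_inv hE hm
  refine ⟨hn, m, hm0, hm_inv hm, y⁻¹, hy.inv, ?_, β, ?_, ?_⟩
  · rw [← hcard]
    exact Nat.card_congr (Equiv.subtypeEquivRight (fun P => by rw [hloc]; exact neg_ne_zero))
  · intro i
    obtain ⟨P, hP, h⟩ := hβ i
    exact ⟨P, by rw [hloc]; exact neg_ne_zero.mpr hP, h⟩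
  · intro i
    have h1 := congrArg Neg.neg (hsum i)
    rw [← finsum_neg_distrib, neg_zero] at h1
    refine Eq.trans (finsum_congr fun P => ?_) h1
    rw [hloc]
    split_ifs <;> simp

lemma Kind.inv [IsAlgClosed k] [CharZero k] (hE : IsFunctionField k E) {A α : ℕ}
    (h : Kind a χ A α) : Kind a χ⁻¹ A α := by
  rcases h with ⟨hχ, hM, hα⟩ | ⟨γ, s, hγ, hs, hM, hα⟩ | ⟨γ, r, n, hγ, hr, hM, hα⟩
  · refine Kind.triv ?_ hM hα
    ext w
    simp [hχ]
  · exact Kind.bal γ s hγ (hs.inv hE) hM hα
  · exact Kind.ram γ r n hγ (hr.inv hE) hM hα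

lemma Kind.full [IsAlgClosed k] [CharZero k] (hE : IsFunctionField k E) {A α : ℕ}
    (h : Kind a χ A α) : α = A ∨ Full a χ (A + α) := by
  rcases h with ⟨hχ, hM, hα⟩ | ⟨γ, s, hγ, hs, hM, hα⟩ |
    ⟨γ, r, n, hγ, ⟨hn, m, hm0, hm, y, hy, hcard, β, hβ, hsum⟩, hM, hα⟩
  · exact Or.inl hα
  · exact Or.inl hα
  · right
    refine Full.ram γ r hγ ⟨?_, m, hm0, hm, y, hy, hcard⟩ (by omega)
    obtain ⟨P, hP, -⟩ := hβ ⟨0, hn⟩
    have h1 : Finite {P : Place k (fixedField a.range) // hy.loc hm P ≠ 0} :=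
      (finite_branch hE hy hm).to_subtype
    have h2 : Nonempty {P : Place k (fixedField a.range) // hy.loc hm P ≠ 0} := ⟨⟨P, hP⟩⟩
    rw [← hcard]
    exact Nat.card_pos

end inverse

end BQ
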