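import Mathlib
import Pool.Agent.Helper9.NS
import Pool.Agent.Helper70.BQ.Gal
import Pool.Agent.Helper70.BQ.NormB
import Pool.Agent.Helper70.BQ.Path
import Pool.Agent.Helper70.BQ.Tau

/-!
# Vanishing of symmetric equivariant functions for balanced characters
-/

set_option autoImplicit false

namespace BQ

open VC VQ VP VF Function IntermediateField Polynomial

universe u

section vanish

variable {k E : Type u} [Field k] [IsAlgClosed k] [CharZero k] [Field E] [Algebra k E]
  (hE : IsFunctionField k E)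
  {W : Type*} [Group W] [Finite W] {a : W →* (E ≃ₐ[k] E)} {χ : W →* kˣ}

open Classical in
theorem sum_fib {F : Type u} [Field F] [Algebra k F] (hF : IsFunctionField k F) {m : ℕ}
    (f : F) (t : F) (ht : Transcendental k t)
    {s : ℕ} (p q : Fin (s + 1) → Place k F)
    (hall : ∀ P : Place k F, ((ord P.ring f : ℤ) : ZMod m) = ∑ i,
        ((if p i = P then ((ord (p i).ring f : ℤ) : ZMod m) else 0) -
          (if q i = P then ((ord (p i).ring f : ℤ) : ZMod m) else 0)))
    (hval : ∀ i : Fin s, ∃ c : k, t - algebraMap k F c ∈ (p i.castSucc).ring.nonunits ∧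
        t - algebraMap k F c ∈ (q i.castSucc).ring.nonunits)
    (ca cb : k) (hca : t - algebraMap k F ca ∈ (p (Fin.last s)).ring.nonunits)
    (hcb : t - algebraMap k F cb ∈ (q (Fin.last s)).ring.nonunits) (c : k) :
    ((∑ P ∈ VP.fib hF ht c, ord P.ring f : ℤ) : ZMod m) =
      (if c = ca then ((ord (p (Fin.last s)).ring f : ℤ) : ZMod m) else 0) -
      (if c = cb then ((ord (p (Fin.last s)).ring f : ℤ) : ZMod m) else 0) := by
  have hg : ∀ (P : Place k F) (d : k), t - algebraMap k F d ∈ P.ring.nonunits →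
      (P ∈ VP.fib hF ht c ↔ c = d) := by
    intro P d hd
    rw [VP.mem_fib]
    constructor
    · intro h
      exact residue_unique P h hd
    · rintro rfl
      exact hd
  push_cast
  rw [Finset.sum_congr rfl (fun P _ => hall P), Finset.sum_comm]
  have h1 : ∀ i, ∑ P ∈ VP.fib hF ht c, ((if p i = P then ((ord (p i).ring f : ℤ) : ZMod m) else 0) -
          (if q i = P then ((ord (p i).ring f : ℤ) : ZMod m) else 0)) =
      (if p i ∈ VP.fib hF ht c then ((ord (p i).ring f : ℤ) : ZMod m) else 0) -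
        (if q i ∈ VP.fib hF ht c then ((ord (p i).ring f : ℤ) : ZMod m) else 0) := by
    intro i
    rw [Finset.sum_sub_distrib, Finset.sum_ite_eq, Finset.sum_ite_eq]
  rw [Finset.sum_congr rfl (fun i _ => h1 i), Fin.sum_univ_castSucc]
  have h2 : ∑ i : Fin s, ((if p i.castSucc ∈ VP.fib hF ht c then
      ((ord (p i.castSucc).ring f : ℤ) : ZMod m) else 0) -
        (if q i.castSucc ∈ VP.fib hF ht c then
          ((ord (p i.castSucc).ring f : ℤ) : ZMod m) else 0)) = 0 := by
    apply Finset.sum_eq_zero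
    intro i _
    obtain ⟨d, hd1, hd2⟩ := hval i
    simp only [hg _ d hd1, hg _ d hd2, sub_self]
  rw [h2, zero_add]
  simp only [hg _ ca hca, hg _ cb hcb]

open Classical in
/-- **Balanced vanishing.** A symmetric function on the `J`-tuples of points of the curve, on which
the group acts through the balanced character `χ` in each variable and which kills the divisors on
curves mapped to the power of the curve, vanishes if `J` has at least `γ + s` elements. -/
theorem bal_vanish {y : E} (hy : IsEig a χ y) {m : ℕ} (hm0 : 0 < m) (hm : ∀ w, χ w ^ m = 1)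
    (hstab : ∀ P : Place k E, hy.loc hm (resF hE a.range P) ≠ 0 →
      ∃ w : W, χ w ≠ 1 ∧ act hE (a w) P = P)
    (γ : ℕ) (hγ : ∀ D : Place k (fixedField a.range) →₀ ℤ,
      (D.sum fun _ m => m) + 1 ≤
        (Module.finrank k (riemannRochSpace k (fixedField a.range) D) : ℤ) + γ)
    {s : ℕ} (p q : Fin (s + 1) → Place k (fixedField a.range))
    (hp : ∀ i, hy.loc hm (p i) ≠ 0) (hq : ∀ i, hy.loc hm (q i) = - hy.loc hm (p i))
    (hall : ∀ P, hy.loc hm P = ∑ i, ((if p i = P then hy.loc hm (p i) else 0) -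
      (if q i = P then hy.loc hm (p i) else 0)))
    {J : Type*} [Fintype J] [DecidableEq J] (hJ : γ + (s + 1) ≤ Fintype.card J)
    {Ψ : (J → Place k E) → k} (hKi : KillsC hE Ψ)
    (hsym : ∀ (σ : Equiv.Perm J) p, Ψ (p ∘ σ) = Ψ p)
    (hequi : ∀ j w p, Ψ (update p j (act hE (a w) (p j))) = (χ w : k) * Ψ p)
    (x : J → Place k E) : Ψ x = 0 := by
  have hF := isFunctionField_fixed a.range hE
  -- the trivial case
  by_cases htriv : ∃ j, hy.loc hm (resF hE a.range (x j)) ≠ 0
  · obtain ⟨j, hj⟩ := htriv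
    obtain ⟨w, hw1, hw2⟩ := hstab (x j) hj
    exact equi_zero hE hequi x j w hw1 hw2
  push Not at htriv
  have hdisj : ∀ P, hy.loc hm P ≠ 0 → ∀ j, resF hE a.range (x j) ≠ P := by
    intro P hP j h
    apply hP
    rw [← h]
    exact htriv j
  have hq0 : ∀ i, hy.loc hm (q i) ≠ 0 := by
    intro i
    rw [hq]
    exact neg_ne_zero.mpr (hp i)
  obtain ⟨t, ht, hpole, hval⟩ := exists_pencil hF γ hγ (J := J) (m := s)
    (by rw [Nat.card_eq_fintype_card]; omega) (fun j => resF hE a.range (x j))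
    (fun i => p i.castSucc) (fun i => q i.castSucc)
    (fun i j => hdisj _ (hp i.castSucc) j) (fun i j => hdisj _ (hq0 i.castSucc) j)
  have ht0 : t ≠ 0 := by
    intro h0
    rw [h0] at ht
    exact ht isAlgebraic_zero
  have hreg : ∀ P, hy.loc hm P ≠ 0 → t ∈ P.ring := by
    intro P hP
    rw [← ord_nonneg_iff hF P ht0]
    have h1 := hpole P
    have h2 : IsEmpty {j // resF hE a.range (x j) = P} := ⟨fun j => hdisj P hP j.1 j.2⟩
    rw [Nat.card_of_isEmpty] at h1
    simpa using h1
  obtain ⟨ca, hca⟩ := exists_residue hF (p (Fin.last s)) (hreg _ (hp _))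
  obtain ⟨cb, hcb⟩ := exists_residue hF (q (Fin.last s)) (hreg _ (hq0 _))
  -- the Galois cover
  have htE : Transcendental k (t : E) :=
    (transcendental_algebraMap_iff (algebraMap (fixedField a.range) E).injective).mpr ht
  obtain ⟨K, _, _, _, _, hK, G, _, _, _, hG⟩ := exists_cover hE (t : E) htE
  have hΦ : Finite {φ : fixedField a.range →ₐ[k] K // φ t = algebraMap E K (t : E)} :=
    finite_homs (K := K) t (hF.finiteDimensional ht)
  have : Fintype {φ : fixedField a.range →ₐ[k] K // φ t = algebraMap E K (t : E)} :=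
    Fintype.ofFinite _
  have hlift : ∀ φ : {φ : fixedField a.range →ₐ[k] K // φ t = algebraMap E K (t : E)},
      ∃ ψ : E →ₐ[k] K, ∀ x : fixedField a.range, ψ (x : E) = φ.1 x := by
    intro φ
    obtain ⟨ψ, hψ⟩ := exists_lift (K := K) t ht G hG φ.1 φ.2
    exact ⟨ψ.comp (IsScalarTower.toAlgHom k E K), hψ⟩
  choose Λ hΛ using hlift
  have htK : Transcendental k (algebraMap E K (t : E)) :=
    (transcendental_algebraMap_iff (algebraMap E K).injective).mpr htE
  have hTi := transcendental_inv htK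
  have hti := transcendental_inv ht
  have hG' : IsGaloisGroup G k⟮(algebraMap E K (t : E))⁻¹⟯ K := by rw [adjoin_inv]; exact hG
  obtain ⟨v₁, hv₁⟩ := exists_place hK hTi
  have eK : algebraMap (fixedField a.range) K t⁻¹ = (algebraMap E K (t : E))⁻¹ := by
    rw [map_inv₀]
    rfl
  have hcnt : ∀ P : Place k (fixedField a.range),
      (Nat.card {φ : {φ : fixedField a.range →ₐ[k] K // φ t = algebraMap E K (t : E)} //
        Place.comap hF hK φ.1 v₁ = P} : ℤ) = max (- ord P.ring t) 0 := by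
    intro P
    rw [← ord_inv hF P ht0, ← card_cover hF hK t⁻¹ hti G (by rw [eK]; exact hG') v₁
      (by rw [eK]; exact hv₁) P]
    congr 1
    refine Nat.card_congr ⟨fun φ => ⟨φ.1.1, ?_, φ.2⟩, fun φ => ⟨⟨φ.1, ?_⟩, φ.2.2⟩, ?_, ?_⟩
    · rw [eK, map_inv₀, φ.1.2]
    · have h : φ.1 t⁻¹ = (algebraMap E K (t : E))⁻¹ := φ.2.1.trans eK
      rw [map_inv₀] at h
      exact inv_injective h
    · intro φ; rfl
    · intro φ; rfl
  obtain ⟨e, he⟩ := exists_embedding_of_fibres
    (fun φ : {φ : fixedField a.range →ₐ[k] K // φ t = algebraMap E K (t : E)} =>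
      Place.comap hF hK φ.1 v₁)
    (fun j => resF hE a.range (x j)) (by
    intro P
    have h1 := hcnt P
    have h2 := hpole P
    have h3 : (Nat.card {φ : {φ : fixedField a.range →ₐ[k] K // φ t = algebraMap E K (t : E)} //
        Place.comap hF hK φ.1 v₁ = P} : ℤ) ≤ Nat.card {j // resF hE a.range (x j) = P} := by
      rw [h1]
      apply max_le <;> omega
    exact_mod_cast h3)
  have hex : ∀ φ, resF hE a.range (x (e φ)) = Place.comap hF hK φ.1 v₁ := fun φ => congrFun he φ
  -- the value at `v₁`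
  have hz1 : ∃ ε : kˣ, Ψ (zpt hE hK Λ e x v₁) = (ε : k) * Ψ x := by
    have h1 : ∀ j, ∃ w : W, zpt hE hK Λ e x v₁ j = act hE (a w) (x j) := by
      intro j
      by_cases hj : ∃ φ, e φ = j
      · obtain ⟨φ, rfl⟩ := hj
        obtain ⟨⟨_, w, rfl⟩, hw⟩ := exists_act_of_resF hE a.range
          (P := x (e φ)) (P' := zpt hE hK Λ e x v₁ (e φ)) (by
          rw [hex φ]
          unfold zpt
          rw [zmor_emb]
          exact (res_comap hF hE hK φ.1 (Λ φ) (hΛ φ) v₁).symm)
        exact ⟨w, hw⟩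
      · refine ⟨1, ?_⟩
        unfold zpt
        rw [zmor_not hE Λ e x j hj, map_one]
        exact (act_one hE _).symm
    choose w hw using h1
    refine ⟨∏ j, χ (w j), ?_⟩
    have h2 : zpt hE hK Λ e x v₁ = fun j => act hE (a (w j)) (x j) := funext hw
    rw [h2, equi_all hE hequi]
  -- the Galois action
  choose ε hε0 hε1 hε2 using gal_eig hE hK hy t G hG Λ hΛ e hsym hequi x
  obtain ⟨ω, hωdef⟩ : ∃ ω : K, ω = ∏ φ, Λ φ y := ⟨_, rfl⟩
  have hω0 : ω ≠ 0 := by
    rw [hωdef]
    exact Finset.prod_ne_zero_iff.mpr (fun φ _ => (_root_.map_ne_zero (Λ φ)).mpr hy.ne)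
  have hε1' : ∀ g, g • ω = algebraMap k K (ε g : k) * ω := by
    intro g
    rw [hωdef]
    exact hε1 g
  have hωm : ω ^ m ∈ k⟮algebraMap E K (t : E)⟯ := by
    apply mem_adjoin_of_fixed _ G hG
    intro g
    rw [smul_pow', hε1', mul_pow, ← map_pow, ← Units.val_pow_eq_pow_val, hε0 g m hm]
    simp
  obtain ⟨r, q', hrs⟩ := (IntermediateField.mem_adjoin_simple_iff k (ω ^ m)).mp hωm
  have hinj : ∀ p : k[X], p ≠ 0 → aeval (algebraMap E K (t : E)) p ≠ 0 := by
    intro p hp h0
    exact hp ((transcendental_iff.mp htK) p h0)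
  have hr : r ≠ 0 := by
    rintro rfl
    rw [map_zero, zero_div] at hrs
    exact pow_ne_zero m hω0 hrs
  have hq' : q' ≠ 0 := by
    rintro rfl
    rw [map_zero, div_zero] at hrs
    exact pow_ne_zero m hω0 hrs
  have hqT := hinj q' hq'
  have hRq : (ω * aeval (algebraMap E K (t : E)) q') ^ m = aeval (algebraMap E K (t : E)) (r * q' ^ (m - 1)) := by
    obtain ⟨m', rfl⟩ := Nat.exists_eq_succ_of_ne_zero hm0.ne'
    rw [mul_pow, hrs, map_mul, map_pow, Nat.succ_sub_one, pow_succ]
    field_simp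
  have hR0 : r * q' ^ (m - 1) ≠ 0 := mul_ne_zero hr (pow_ne_zero _ hq')
  obtain ⟨τ, hτ, hτ0, hτ1, hτε⟩ := exists_tau hK _ htK G hG ω hω0 ε hε1' hm0
    (r * q' ^ (m - 1)) q' hR0 hq' hRq ca cb (hy.loc hm (p (Fin.last s))) (hp _) (by
      intro c
      have h1 := rootMult hE hK hy hm t ht G hG Λ hΛ (r * q' ^ (m - 1)) q' hR0 hq'
        (by rw [← hωdef]; exact hRq) c
      have h2 := congrArg (Int.cast : ℤ → ZMod m) h1
      rw [Int.cast_add, Int.cast_mul, Int.cast_natCast, Int.cast_natCast, ZMod.natCast_self,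
        zero_mul, zero_add] at h2
      rw [h2]
      exact sum_fib hF (hy.pw hm) t ht p q hall hval ca cb hca hcb c)
  obtain ⟨v₂, hv₂⟩ := exists_place hK (transcendental_sub hτ 1)
  have hv₂' : IsRes v₂ τ 1 := hv₂
  -- the value over `τ = 0`
  have hA : ∀ v, IsRes v τ 0 → Ψ (zpt hE hK Λ e x v) = 0 := by
    intro v hv
    have hv' := hτ0 v hv
    have h1 := card_cover_sub hE a.range hK t ht G hG ca v hv' (p (Fin.last s))
    have hta : t - algebraMap k (fixedField a.range) ca ≠ 0 := by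
      intro h0
      have := transcendental_sub ht ca
      rw [h0] at this
      exact this isAlgebraic_zero
    have h2 := (ord_pos_iff hF (p (Fin.last s)) hta).mpr hca
    rw [max_eq_left (by omega)] at h1
    have hne : Nonempty {φ : fixedField a.range →ₐ[k] K // φ t = algebraMap E K (t : E) ∧
        Place.comap (isFunctionField_fixed a.range hE) hK φ v = p (Fin.last s)} := by
      by_contra hcon
      rw [not_nonempty_iff] at hcon
      rw [Nat.card_of_isEmpty] at h1
      push_cast at h1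
      omega
    obtain ⟨φ, hφ1, hφ2⟩ := hne
    have hres : resF hE a.range (zpt hE hK Λ e x v (e ⟨φ, hφ1⟩)) = p (Fin.last s) := by
      rw [← hφ2]
      unfold zpt
      rw [zmor_emb]
      exact res_comap hF hE hK φ (Λ ⟨φ, hφ1⟩) (hΛ ⟨φ, hφ1⟩) v
    obtain ⟨w, hw1, hw2⟩ := hstab (zpt hE hK Λ e x v (e ⟨φ, hφ1⟩)) (by rw [hres]; exact hp _)
    exact equi_zero hE hequi _ _ w hw1 hw2
  -- the value over `τ = 1`
  have hB : ∀ v, IsRes v τ 1 → Ψ (zpt hE hK Λ e x v) = Ψ (zpt hE hK Λ e x v₂) := by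
    intro v hv
    obtain ⟨g, hg⟩ := exists_galois_place _ G hK hTi hG' v₂ v (hτ1 v₂ hv₂') (hτ1 v hv)
    have hg' : v = act hK (gEquiv _ G hG g) v₂ := hg
    have h3 := hτε v₂ g hv₂' (by rw [← hg']; exact hv)
    rw [hg', hε2, h3, Units.val_one, one_mul]
  have h0 := path_gen hK (fun v => Ψ (zpt hE hK Λ e x v))
    (fun f hf => hKi K hK (zmor hE Λ e x) f hf) hτ (zero_ne_one (α := k)) hA hB
  obtain ⟨g, hg⟩ := exists_galois_place _ G hK hTi hG' v₁ v₂ hv₁ (hτ1 v₂ hv₂')
  have hg' : v₂ = act hK (gEquiv _ G hG g) v₁ := hg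
  rw [hg', hε2] at h0
  obtain ⟨ε', hε'⟩ := hz1
  rw [hε'] at h0
  have h1 := mul_eq_zero.mp h0.symm
  rcases h1 with h1 | h1
  · exact absurd h1 (Units.ne_zero _)
  · exact (mul_eq_zero.mp h1).resolve_left (Units.ne_zero _)

end vanish

end BQ
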