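import Mathlib
import Pool.Agent.Helper9.NS
import Pool.Agent.Helper70.BQ.Gal
import Pool.Agent.Helper70.BQ.Pair

/-!
# Vanishing for characters whose branch points are divided into blocks
-/

set_option autoImplicit false

namespace BQ

open VC VQ VP VF Function IntermediateField

universe u

section block

variable {k E : Type u} [Field k] [IsAlgClosed k] [CharZero k] [Field E] [Algebra k E]
  (hE : IsFunctionField k E)
  {W : Type*} [Group W] [Finite W] {a : W →* (E ≃ₐ[k] E)} {χ : W →* kˣ}

open Classical in
/-- **Vanishing for one character.** The branch points are divided into `u` blocks with trivial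
total monodromy. A symmetric function, on which the group acts through `χ` in each variable, and
which kills divisors, vanishes if there are at least `γ + r - u` variables. -/
theorem block_vanish {y : E} (hy : IsEig a χ y) {m : ℕ} (hm0 : 0 < m) (hm : ∀ w, χ w ^ m = 1)
    (hstab : ∀ P : Place k E, hy.loc hm (resF hE a.range P) ≠ 0 →
      ∃ w : W, χ w ≠ 1 ∧ act hE (a w) P = P)
    (γ : ℕ) (hγ : ∀ D : Place k (fixedField a.range) →₀ ℤ,
      (D.sum fun _ m => m) + 1 ≤
        (Module.finrank k (riemannRochSpace k (fixedField a.range) D) : ℤ) + γ)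
    {r n : ℕ} (hcard : Nat.card {P : Place k (fixedField a.range) // hy.loc hm P ≠ 0} = r)
    (hn : 0 < n) (β' : Place k (fixedField a.range) → Fin n)
    (hβ' : ∀ i, ∃ P, hy.loc hm P ≠ 0 ∧ β' P = i)
    (hzero : ∀ i : Fin n, ∑ᶠ P, (if β' P = i then hy.loc hm P else 0) = 0)
    {J : Type*} [Fintype J] [DecidableEq J] (hJ : γ + r ≤ Fintype.card J + n)
    {Ψ : (J → Place k E) → k} (hKi : KillsC hE Ψ)
    (hsym : ∀ (σ : Equiv.Perm J) p, Ψ (p ∘ σ) = Ψ p)
    (hequi : ∀ j w p, Ψ (update p j (act hE (a w) (p j))) = (χ w : k) * Ψ p)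
    (x : J → Place k E) : Ψ x = 0 := by
  have hF := isFunctionField_fixed a.range hE
  -- the trivial case
  by_cases htriv : ∃ j, hy.loc hm (resF hE a.range (x j)) ≠ 0
  · obtain ⟨j, hj⟩ := htriv
    obtain ⟨w, hw1, hw2⟩ := hstab (x j) hj
    exact equi_zero hE hequi x j w hw1 hw2
  push Not at htriv
  have hdisj : ∀ P, hy.loc hm P ≠ 0 → ∀ j, resF hE a.range (x j) ≠ P := by
    intro P hP j h
    apply hP
    rw [← h]
    exact htriv j
  let Br := {P : Place k (fixedField a.range) // hy.loc hm P ≠ 0}
  have hfin : Finite Br := (finite_branch hE hy hm).to_subtype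
  have : Fintype Br := Fintype.ofFinite Br
  have hcard' : Fintype.card Br = r := by rw [← hcard, Nat.card_eq_fintype_card]
  set B := (finite_branch hE hy hm).toFinset with hBdef
  have hB : ∀ P, P ∈ B ↔ hy.loc hm P ≠ 0 := by
    intro P
    rw [hBdef, Set.Finite.mem_toFinset]
    rfl
  let β : Br → Fin n := fun P => β' P.1
  have hβ : Surjective β := by
    intro i
    obtain ⟨P, hP, h⟩ := hβ' i
    exact ⟨⟨P, hP⟩, h⟩
  have hzero' : ∀ i : Fin n, ∑ P : Br, (if β P = i then hy.loc hm P.1 else 0) = 0 := by
    intro i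
    have h0 := hzero i
    rw [finsum_eq_sum_of_support_subset (s := B) _ (by
      intro P hP
      rw [Finset.mem_coe, hB]
      intro h0
      apply hP
      change (if β' P = i then hy.loc hm P else 0) = 0
      rw [h0]
      simp), Finset.sum_subtype B hB] at h0
    exact h0
  -- the distinguished block
  let i₀ : Fin n := ⟨0, hn⟩
  obtain ⟨b₀, hb₀⟩ := hβ i₀
  obtain ⟨b₁, hb₁, hb₁₀⟩ : ∃ b₁ : Br, β b₁ = i₀ ∧ b₁ ≠ b₀ := by
    by_contra hcon
    push Not at hcon
    have h1 := hzero' i₀
    rw [Finset.sum_eq_single b₀] at h1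
    · rw [if_pos hb₀] at h1
      exact b₀.2 h1
    · intro P _ hP
      rw [if_neg]
      intro h
      exact hP (hcon P h)
    · intro h
      exact absurd (Finset.mem_univ _) h
  choose ρ' hρ' using hβ
  let ρ : Fin n → Br := fun i => if i = i₀ then b₁ else ρ' i
  have hρ : ∀ i, β (ρ i) = i := by
    intro i
    simp only [ρ]
    split_ifs with h
    · rw [hb₁, h]
    · exact hρ' i
  have hρ0 : ∀ i, ρ i ≠ b₀ := by
    intro i h
    have h1 : i = i₀ := by rw [← hρ i, h, hb₀]
    rw [h1] at h
    simp only [ρ, if_true] at h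
    exact hb₁₀ h
  have hρi : Injective ρ := fun i j h => by rw [← hρ i, h, hρ j]
  -- the points with a condition
  let C : Finset Br := Finset.univ \ (insert b₀ (Finset.univ.image ρ))
  have hC : C.card + n + 1 = r := by
    have h1 : (insert b₀ (Finset.univ.image ρ)).card = n + 1 := by
      rw [Finset.card_insert_of_notMem, Finset.card_image_of_injective _ hρi, Finset.card_univ,
        Fintype.card_fin]
      intro h
      obtain ⟨i, _, hi⟩ := Finset.mem_image.mp h
      exact hρ0 i hi
    have h2 : C.card = Fintype.card Br - (n + 1) := by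
      rw [Finset.card_sdiff_of_subset (Finset.subset_univ _), h1, Finset.card_univ]
    have h3 : n + 1 ≤ Fintype.card Br := by
      rw [← h1]
      exact Finset.card_le_univ _
    omega
  let e := C.equivFin.symm
  obtain ⟨t, ht, hpole, hval⟩ := exists_pencil hF γ hγ (J := J) (m := C.card)
    (by rw [Nat.card_eq_fintype_card]; omega) (fun j => resF hE a.range (x j))
    (fun i => (e i).1.1) (fun i => (ρ (β (e i).1)).1)
    (fun i j => hdisj _ (e i).1.2 j) (fun i j => hdisj _ (ρ (β (e i).1)).2 j)
  have ht0 : t ≠ 0 := by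
    intro h0
    rw [h0] at ht
    exact ht isAlgebraic_zero
  have hreg : ∀ P, hy.loc hm P ≠ 0 → t ∈ P.ring := by
    intro P hP
    rw [← ord_nonneg_iff hF P ht0]
    have h1 := hpole P
    have h2 : IsEmpty {j // resF hE a.range (x j) = P} := ⟨fun j => hdisj P hP j.1 j.2⟩
    rw [Nat.card_of_isEmpty] at h1
    simpa using h1
  have hres : ∀ P : Br, ∃ c : k, IsRes P.1 t c := fun P => exists_residue hF P.1 (hreg P.1 P.2)
  choose val hvl using hres
  have hvρ : ∀ P : Br, P ≠ b₀ → val P = val (ρ (β P)) := by
    intro P hP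
    by_cases h : P ∈ C
    · obtain ⟨c, hc1, hc2⟩ := hval (C.equivFin ⟨P, h⟩)
      have h1 : (e (C.equivFin ⟨P, h⟩)).1 = P := by simp [e]
      simp only [h1] at hc1 hc2
      rw [residue_unique P.1 (hvl P) hc1, residue_unique (ρ (β P)).1 (hvl (ρ (β P))) hc2]
    · have h1 : P ∈ insert b₀ (Finset.univ.image ρ) := by
        by_contra h2
        exact h (Finset.mem_sdiff.mpr ⟨Finset.mem_univ _, h2⟩)
      rcases Finset.mem_insert.mp h1 with h2 | h2
      · exact absurd h2 hP
      · obtain ⟨i, _, hi⟩ := Finset.mem_image.mp h2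
        rw [← hi, hρ]
  -- the Galois cover
  have htE : Transcendental k (t : E) :=
    (transcendental_algebraMap_iff (algebraMap (fixedField a.range) E).injective).mpr ht
  obtain ⟨K, _, _, _, _, hK, G, _, _, _, hG⟩ := exists_cover hE (t : E) htE
  refine multi_vanish hE hK hy hm0 hm hstab (S := Unit) (fun _ => t) (fun _ => ht)
    (fun _ => IsScalarTower.toAlgHom k E K) (algebraMap E K (t : E)) (fun _ => rfl) G hG
    (fun _ => ()) (fun _ => 1) (fun _ => Or.inl rfl) x ?_ (val b₀) (val b₁)
    (hy.loc hm b₀.1) b₀.2 () b₀.1 b₀.2 (hvl b₀) ?_ hKi (fun σ _ p => hsym σ p) (by simpa using hequi)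
  · intro _ P
    have h := hpole P
    have h2 : Nat.card {j : J // () = () ∧ resF hE a.range (x j) = P} =
        Nat.card {j : J // resF hE a.range (x j) = P} :=
      Nat.card_congr (Equiv.subtypeEquivRight (fun j => by simp))
    rw [← h2] at h
    exact h
  · intro c
    rw [Fintype.sum_unique, one_mul]
    rw [sum_fib_loc hE hy hm B (fun P hP => (hB P).mpr hP) t ht
      (fun P => if h : hy.loc hm P ≠ 0 then val ⟨P, h⟩ else 0) (by
        intro P hP
        rw [dif_pos ((hB P).mp hP)]
        exact hvl ⟨P, (hB P).mp hP⟩) c]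
    rw [Finset.sum_subtype B hB]
    have h1 : ∀ P : Br, (if c = (if h : hy.loc hm P.1 ≠ 0 then val ⟨P.1, h⟩ else 0) then
        hy.loc hm P.1 else 0) = (if c = val P then hy.loc hm P.1 else 0) := by
      intro P
      rw [dif_pos P.2]
    rw [Finset.sum_congr rfl (fun P _ => h1 P)]
    have h2 : ∀ P : Br, (if c = val P then hy.loc hm P.1 else 0) =
        (if P = b₀ then (if c = val b₀ then hy.loc hm b₀.1 else 0) -
            (if c = val b₁ then hy.loc hm b₀.1 else 0) else 0) +
          ∑ i : Fin n, (if c = val (ρ i) then (if β P = i then hy.loc hm P.1 else 0) else 0) := by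
      intro P
      rw [Finset.sum_eq_single (β P)]
      · rw [if_pos rfl]
        by_cases hP : P = b₀
        · rw [if_pos hP, hP, hb₀]
          have h3 : ρ i₀ = b₁ := by simp [ρ]
          rw [h3]
          ring
        · rw [if_neg hP, zero_add, hvρ P hP]
      · intro i _ hi
        simp [Ne.symm hi]
      · intro h
        exact absurd (Finset.mem_univ _) h
    rw [Finset.sum_congr rfl (fun P _ => h2 P), Finset.sum_add_distrib, Finset.sum_ite_eq',
      if_pos (Finset.mem_univ _), Finset.sum_comm]
    have h3 : ∑ i : Fin n, ∑ P : Br, (if c = val (ρ i) then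
        (if β P = i then hy.loc hm P.1 else 0) else 0) = 0 := by
      apply Finset.sum_eq_zero
      intro i _
      by_cases hc : c = val (ρ i)
      · simp only [if_pos hc]
        exact hzero' i
      · simp only [if_neg hc]
        exact Finset.sum_const_zero
    rw [h3, add_zero]

end block

end BQ
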