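import Mathlib
import Pool.Agent.Helper9.NS
import Pool.Agent.Helper34.BQ.R
import Pool.Agent.Helper67.BQ.V2
import Pool.Agent.Helper70.BQ.BV
import Pool.Agent.Helper70.BQ.BlockV
import Pool.Agent.Helper70.BQ.Triv
import Pool.Agent.Helper80.BQ.P

/-!
# One-sided vanishing
-/

set_option autoImplicit false

namespace BQ

open VC VQ VP VF Function IntermediateField

universe u



section oneside

variable {k E : Type u} [Field k] [IsAlgClosed k] [CharZero k] [Field E] [Algebra k E]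
  (hE : IsFunctionField k E)
  {W : Type*} [Group W] [Finite W] {a : W →* (E ≃ₐ[k] E)} {χ : W →* kˣ}

/-- **One-sided vanishing.** -/
theorem one_side {A α : ℕ} (hKind : Kind a χ A α) (o : Place k E)
    {J : Type*} [Fintype J] [DecidableEq J] (hJ : Fintype.card J = A + 1)
    {Ψ : (J → Place k E) → k} (hKi : KillsC hE Ψ)
    (hequi : ∀ j w p, Ψ (update p j (act hE (a w) (p j))) = (χ w : k) * Ψ p)
    (hzero : χ = 1 → ∀ p j, p j = o → Ψ p = 0) (x : J → Place k E) :
    ∑ τ : Equiv.Perm J, Ψ (x ∘ τ) = 0 := by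
  have hperm : ∀ (σ : Equiv.Perm J) p, (fun x => ∑ τ : Equiv.Perm J, Ψ (x ∘ τ)) (p ∘ σ) =
      (fun x => ∑ τ : Equiv.Perm J, Ψ (x ∘ τ)) p := by
    intro σ p
    exact Fintype.sum_equiv (Equiv.mulLeft σ) _ _ (fun τ => rfl)
  have hequi' : ∀ j w p, (fun x => ∑ τ : Equiv.Perm J, Ψ (x ∘ τ))
      (update p j (act hE (a w) (p j))) =
      (χ w : k) * (fun x => ∑ τ : Equiv.Perm J, Ψ (x ∘ τ)) p := by
    intro j w p
    simp only
    rw [Finset.mul_sum]
    apply Finset.sum_congr rfl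
    intro τ _
    rw [← hequi (τ⁻¹ j)]
    congr 1
    funext i
    simp only [comp_apply]
    by_cases hi : i = τ⁻¹ j
    · subst hi
      simp
    · rw [update_of_ne hi, update_of_ne]
      · rfl
      · intro h
        apply hi
        rw [← h]
        simp
  rcases hKind with ⟨hχ, hM, -⟩ |
    ⟨γ, s, hγ, ⟨hs, m, hm0, hm, y, hy, hcard, hbal⟩, hM, -⟩ |
    ⟨γ, r, n, hγ, ⟨hn, m, hm0, hm, y, hy, hcard, β, hβ, hsum⟩, hM, -⟩
  · apply triv_vanish hE a.range A hM.1 hJ hKi _ o (hzero hχ)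
    rintro j ⟨_, w, rfl⟩ p
    rw [hequi, hχ]
    simp
  · have hF := isFunctionField_fixed a.range hE
    have hbal' : ∀ r : ZMod m, r ≠ 0 →
        Nat.card {P : Place k (fixedField a.range) // hy.loc hm P = r} =
          Nat.card {P : Place k (fixedField a.range) // hy.loc hm P = - r} := by
      rcases hbal with h | ⟨ν, φ, h⟩
      · exact h
      · intro r _
        exact counts_of_inv hE hy hm0 hm ν φ h r
    obtain ⟨p, q, hp, hq, hall⟩ := exists_pairs hF (hy.pw_ne_zero hm) hm0 hs hcard hbal'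
    obtain ⟨s, rfl⟩ : ∃ s', s = s' + 1 := ⟨s - 1, by omega⟩
    exact bal_vanish hE hy hm0 hm (fun P hP => exists_stab hE hy hm0 hm P hP) γ hγ.1 p q hp hq
      hall (J := J) (by omega) (Ψ := fun x => ∑ τ : Equiv.Perm J, Ψ (x ∘ τ))
      (KillsC.sum _ (fun τ _ => hKi.comp_perm τ)) hperm hequi' x
  · exact block_vanish hE hy hm0 hm (fun P hP => exists_stab hE hy hm0 hm P hP) γ hγ.1 hcard hn β
      hβ hsum (J := J) (by omega) (Ψ := fun x => ∑ τ : Equiv.Perm J, Ψ (x ∘ τ))
      (KillsC.sum _ (fun τ _ => hKi.comp_perm τ)) hperm hequi' x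

end oneside

end BQ
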