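import Mathlib
import Pool.Agent.Helper70.BQ.OneSide

/-!
# Symmetrization in one of the two factors
-/

set_option autoImplicit false

namespace BQ

open VC VQ VP VF Function IntermediateField

universe u

section sides

variable {k : Type u} [Field k] [IsAlgClosed k] [CharZero k]
  {F₁ F₂ : Type u} [Field F₁] [Algebra k F₁] [Field F₂] [Algebra k F₂]
  (h₁ : IsFunctionField k F₁) (h₂ : IsFunctionField k F₂) {n : ℕ}

theorem side_left {θ : (Fin n → Place k F₁ × Place k F₂) → k}
    (hθ : Kills (((curve h₁).prod (curve h₂)).pow n) θ)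
    {W : Type*} [Group W] [Finite W] {a : W →* (F₁ ≃ₐ[k] F₁)} {χ : W →* kˣ} {A α : ℕ}
    (hKind : Kind a χ A α) (o : Place k F₁) (J : Finset (Fin n)) (hJ : J.card = A + 1)
    (hequi : ∀ i ∈ J, ∀ w p, θ (update p i (act h₁ (a w) (p i).1, (p i).2)) = (χ w : k) * θ p)
    (hzero : χ = 1 → ∀ i ∈ J, ∀ p, (p i).1 = o → θ p = 0)
    (p : Fin n → Place k F₁ × Place k F₂) :
    ∑ τ ∈ permOn J, θ (fun i => ((p (τ i)).1, (p i).2)) = 0 := by
  classical
  let ins : (J → Place k F₁) → (Fin n → Place k F₁ × Place k F₂) :=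
    fun w i => (if h : i ∈ J then w ⟨i, h⟩ else (p i).1, (p i).2)
  have hk : KillsC h₁ (fun w => θ (ins w)) := killsC_of_kills hθ ins (by
    intro K _ _ hK z
    refine ⟨fun i => (if h : i ∈ J then z ⟨i, h⟩ else Sum.inl (p i).1, Sum.inl (p i).2), ?_⟩
    intro v
    funext i
    simp only [ins]
    ext1
    · by_cases h : i ∈ J
      · simp [h]
      · simp [h]
    · rfl)
  have key := one_side h₁ hKind o (J := J) (by simpa using hJ) hk (by
    intro j w x
    have e : ins (update x j (act h₁ (a w) (x j))) =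
        update (ins x) j.1 (act h₁ (a w) (ins x j.1).1, (ins x j.1).2) := by
      funext i
      by_cases hi : i = j.1
      · subst hi
        rw [update_self]
        simp only [ins, dif_pos j.2, Subtype.coe_eta, update_self]
      · rw [update_of_ne hi]
        simp only [ins]
        by_cases h : i ∈ J
        · rw [dif_pos h, dif_pos h, update_of_ne (fun h' => hi (congrArg Subtype.val h'))]
        · rw [dif_neg h, dif_neg h]
    rw [e, hequi j.1 j.2]) (by
    intro hχ x j hj
    apply hzero hχ j.1 j.2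
    simp only [ins, dif_pos j.2]
    exact hj) (fun j => (p j.1).1)
  rw [sum_permOn_ofSubtype, ← key]
  apply Finset.sum_congr rfl
  intro τ _
  congr 1
  funext i
  simp only [ins]
  by_cases h : i ∈ J
  · rw [dif_pos h, Equiv.Perm.ofSubtype_apply_of_mem τ h]
    rfl
  · rw [dif_neg h, Equiv.Perm.ofSubtype_apply_of_not_mem τ h]

theorem side_right {θ : (Fin n → Place k F₁ × Place k F₂) → k}
    (hθ : Kills (((curve h₁).prod (curve h₂)).pow n) θ)
    {W : Type*} [Group W] [Finite W] {a : W →* (F₂ ≃ₐ[k] F₂)} {χ : W →* kˣ} {A α : ℕ}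
    (hKind : Kind a χ A α) (o : Place k F₂) (J : Finset (Fin n)) (hJ : J.card = A + 1)
    (hequi : ∀ i ∈ J, ∀ w p, θ (update p i ((p i).1, act h₂ (a w) (p i).2)) = (χ w : k) * θ p)
    (hzero : χ = 1 → ∀ i ∈ J, ∀ p, (p i).2 = o → θ p = 0)
    (p : Fin n → Place k F₁ × Place k F₂) :
    ∑ τ ∈ permOn J, θ (fun i => ((p i).1, (p (τ i)).2)) = 0 := by
  classical
  let ins : (J → Place k F₂) → (Fin n → Place k F₁ × Place k F₂) :=
    fun w i => ((p i).1, if h : i ∈ J then w ⟨i, h⟩ else (p i).2)
  have hk : KillsC h₂ (fun w => θ (ins w)) := killsC_of_kills hθ ins (by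
    intro K _ _ hK z
    refine ⟨fun i => (Sum.inl (p i).1, if h : i ∈ J then z ⟨i, h⟩ else Sum.inl (p i).2), ?_⟩
    intro v
    funext i
    simp only [ins]
    ext1
    · rfl
    · by_cases h : i ∈ J
      · simp [h]
      · simp [h])
  have key := one_side h₂ hKind o (J := J) (by simpa using hJ) hk (by
    intro j w x
    have e : ins (update x j (act h₂ (a w) (x j))) =
        update (ins x) j.1 ((ins x j.1).1, act h₂ (a w) (ins x j.1).2) := by
      funext i
      by_cases hi : i = j.1
      · subst hi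
        rw [update_self]
        simp only [ins, dif_pos j.2, Subtype.coe_eta, update_self]
      · rw [update_of_ne hi]
        simp only [ins]
        by_cases h : i ∈ J
        · rw [dif_pos h, dif_pos h, update_of_ne (fun h' => hi (congrArg Subtype.val h'))]
        · rw [dif_neg h, dif_neg h]
    rw [e, hequi j.1 j.2]) (by
    intro hχ x j hj
    apply hzero hχ j.1 j.2
    simp only [ins, dif_pos j.2]
    exact hj) (fun j => (p j.1).2)
  rw [sum_permOn_ofSubtype, ← key]
  apply Finset.sum_congr rfl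
  intro τ _
  congr 1
  funext i
  simp only [ins]
  by_cases h : i ∈ J
  · rw [dif_pos h, Equiv.Perm.ofSubtype_apply_of_mem τ h]
    rfl
  · rw [dif_neg h, Equiv.Perm.ofSubtype_apply_of_not_mem τ h]

end sides

end BQ
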