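import Mathlib
import Pool.Agent.Helper9.NS
import Pool.Agent.Helper70.BQ.DecH
import Pool.Agent.Helper70.BQ.PairSide
import Pool.Agent.Helper70.BQ.Sides
import Pool.Agent.Helper70.VF.Assembly

/-!
# The alternating sum on quotients of products of curves
-/

set_option autoImplicit false
set_option linter.unusedSectionVars false

namespace BQ

open VC VQ VP VF Function IntermediateField

universe u

lemma pair_count {A α A' α' b c b' c' : ℕ} (hb : b ≤ A) (hc : c ≤ A) (hbc : b + c ≤ A + α)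
    (hb' : b' ≤ A') (hc' : c' ≤ A') (hbc' : b' + c' ≤ A' + α') :
    b * b' + c * c' ≤ A * A' + α * α' := by
  zify at *
  rcases le_total (α : ℤ) A with h1 | h1
  · rcases le_total (b' : ℤ) c' with h2 | h2
    · nlinarith [mul_nonneg (sub_nonneg.mpr h1) (sub_nonneg.mpr hc'),
        mul_nonneg (sub_nonneg.mpr h2) (sub_nonneg.mpr hc),
        mul_nonneg (sub_nonneg.mpr hbc) (Int.natCast_nonneg b'),
        mul_nonneg (sub_nonneg.mpr hbc') (Int.natCast_nonneg α)]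
    · nlinarith [mul_nonneg (sub_nonneg.mpr h1) (sub_nonneg.mpr hb'),
        mul_nonneg (sub_nonneg.mpr h2) (sub_nonneg.mpr hb),
        mul_nonneg (sub_nonneg.mpr hbc) (Int.natCast_nonneg c'),
        mul_nonneg (sub_nonneg.mpr hbc') (Int.natCast_nonneg α)]
  · nlinarith [mul_nonneg (sub_nonneg.mpr hb) (Int.natCast_nonneg b'),
      mul_nonneg (sub_nonneg.mpr hc) (Int.natCast_nonneg c'),
      mul_nonneg (sub_nonneg.mpr hbc') (Int.natCast_nonneg A),
      mul_nonneg (sub_nonneg.mpr h1) (Int.natCast_nonneg α')]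

section general

variable {k : Type u} [Field k] [IsAlgClosed k] [CharZero k] {n : ℕ}

lemma lc_alt' {X : Variety k} (Φ : (X.pow n).Pt → k) (b : Fin n → X.Cycles) :
    Finsupp.linearCombination ℤ (fun p : (X.pow n).Pt => ∑ σ : Equiv.Perm (Fin n),
      (((Equiv.Perm.sign σ : ℤˣ) : ℤ) : k) * Φ (fun i => p (σ i))) (ext' b)
      = Finsupp.linearCombination ℤ Φ
      (∑ σ : Equiv.Perm (Fin n), ((Equiv.Perm.sign σ : ℤˣ) : ℤ) • ext' (fun i => b (σ i))) := by
  rw [lc_sum (X.pow n), map_sum]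
  refine Finset.sum_congr rfl fun σ _ => ?_
  rw [map_zsmul, lc_smul (X.pow n)]
  have h1 : ext' (fun i => b (σ i)) =
      Finsupp.mapDomain (fun p : Fin n → X.Pt => fun i => p (σ i)) (ext' b) := extProd_perm b σ
  rw [h1, Finsupp.linearCombination_mapDomain, zsmul_eq_mul]
  rfl

end general

section alternating

variable {k : Type u} [Field k] [IsAlgClosed k] [CharZero k]
  {F₁ F₂ : Type u} [Field F₁] [Algebra k F₁] [Field F₂] [Algebra k F₂]
  {V₁ : Subgroup (F₁ ≃ₐ[k] F₁)} {V₂ : Subgroup (F₂ ≃ₐ[k] F₂)} [Fintype V₁] [Fintype V₂]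
  (h₁ : IsFunctionField k F₁) (h₂ : IsFunctionField k F₂) (G : Subgroup (V₁ × V₂)) [Fintype G]
  {n : ℕ} {Λ : Type*} [Fintype Λ] (U₁ : Λ → Subgroup V₁) (χ₁ : ∀ l, U₁ l →* kˣ)
  (U₂ : Λ → Subgroup V₂) (χ₂ : ∀ l, U₂ l →* kˣ)

/-- If the components of all invariant antisymmetric functions which kill rational equivalence
vanish, then so does the alternating sum. -/
theorem alternating_of_compH
    (cf : Λ → k) (hdec : ∀ v : V₁ × V₂, ∑ l, cf l * dbl G (U₁ l) (χ₁ l) (U₂ l) (χ₂ l) v =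
      (open Classical in if v ∈ G then (1 : k) else 0))
    (hcomp : ∀ (o : Place k F₁ × Place k F₂) (Θ : (Fin n → Place k F₁ × Place k F₂) → k),
      Kills (((curve h₁).prod (curve h₂)).pow n) Θ →
      (∀ (i : Fin n) (g : G) (p : Fin n → Place k F₁ × Place k F₂),
        Θ (update p i (act2 h₁ h₂ V₁ V₂ g.1 (p i))) = Θ p) →
      (∀ i j, i ≠ j → ∀ p, Θ (fun l => p (Equiv.swap i j l)) = - Θ p) →
      ∀ (c : Fin n → Λ) (p : Fin n → Place k F₁ × Place k F₂), compH h₁ h₂ U₁ χ₁ U₂ χ₂ o Θ c p = 0)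
    (b : Fin n → ((curve h₁).prod (curve h₂)).Cycles)
    (hb : ∀ i, AlbaneseTrivial (curve h₁) (curve h₂) (b i))
    (hinv : ∀ i, ∀ g : G, Finsupp.mapDomain (act2 h₁ h₂ V₁ V₂ g.1) (b i) = b i) :
    cl (((curve h₁).prod (curve h₂)).pow n) (∑ σ : Equiv.Perm (Fin n),
      ((Equiv.Perm.sign σ : ℤˣ) : ℤ) • ext' (fun i => b (σ i))) = 0 := by
  classical
  obtain ⟨t₁, ht₁, _⟩ := id h₁
  obtain ⟨t₂, ht₂, _⟩ := id h₂
  obtain ⟨o₁, _⟩ := exists_place h₁ ht₁
  obtain ⟨o₂, _⟩ := exists_place h₂ ht₂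
  rw [cl_eq_zero_iff]
  apply separation
  intro ψ hψ
  -- average over the group
  let Φ : (Fin n → Place k F₁ × Place k F₂) → k := fun p =>
    ∑ g : Fin n → G, ψ (fun i => act2 h₁ h₂ V₁ V₂ (g i).1 (p i))
  have hΦk : Kills (((curve h₁).prod (curve h₂)).pow n) Φ := by
    apply Kills.sum
    intro g _
    apply hψ.comp
    apply induced_pow
    intro i K _ _ hK c
    exact ⟨(actM h₁ (g i).1.1.1 c.1, actM h₂ (g i).1.2.1 c.2), fun v => by
      ext1
      · exact eval_actM h₁ hK _ _ v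
      · exact eval_actM h₂ hK _ _ v⟩
  have hΦG : ∀ (i : Fin n) (g : G) (p : Fin n → Place k F₁ × Place k F₂),
      Φ (update p i (act2 h₁ h₂ V₁ V₂ g.1 (p i))) = Φ p := by
    intro i g p
    refine Fintype.sum_equiv (Equiv.mulLeft (update (fun _ => 1) i g : Fin n → G)) _ _ (fun u => ?_)
    congr 1
    funext j
    by_cases hj : j = i
    · subst hj
      rw [update_self, ← act2_mul]
      simp
    · rw [update_of_ne hj]
      simp [update_of_ne hj]
  let Θ : (Fin n → Place k F₁ × Place k F₂) → k := fun p => ∑ σ : Equiv.Perm (Fin n),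
      (((Equiv.Perm.sign σ : ℤˣ) : ℤ) : k) * Φ (fun i => p (σ i))
  have hΘk : Kills (((curve h₁).prod (curve h₂)).pow n) Θ :=
    Kills.sum _ fun σ _ => Kills.smul _ (hΦk.comp (induced_perm σ))
  have hΘG : ∀ (i : Fin n) (g : G) (p : Fin n → Place k F₁ × Place k F₂),
      Θ (update p i (act2 h₁ h₂ V₁ V₂ g.1 (p i))) = Θ p := by
    intro i g p
    refine Finset.sum_congr rfl fun σ _ => ?_
    congr 1
    rw [← hΦG (σ⁻¹ i) g (fun i => p (σ i))]
    congr 1
    funext j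
    by_cases hj : j = σ⁻¹ i
    · subst hj
      simp
    · rw [update_of_ne hj, update_of_ne]
      intro h
      apply hj
      rw [← h]
      simp
  have hΘsw : ∀ i j, i ≠ j → ∀ p, Θ (fun l => p (Equiv.swap i j l)) = - Θ p := by
    intro i j hij p
    simp only [Θ]
    rw [← Finset.sum_neg_distrib, ← Equiv.sum_comp (Equiv.mulLeft (Equiv.swap i j))
      (fun σ => -((((Equiv.Perm.sign σ : ℤˣ) : ℤ) : k) * Φ (fun i => p (σ i))))]
    refine Finset.sum_congr rfl fun σ _ => ?_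
    rw [Equiv.coe_mulLeft, Equiv.Perm.sign_mul, Equiv.Perm.sign_swap hij]
    simp [Equiv.Perm.mul_apply]
  have h1 := decH h₁ h₂ G U₁ χ₁ U₂ χ₂ (o₁, o₂) Θ cf hdec hΘk hΘG b hb hinv
  have h2 : Finsupp.linearCombination ℤ Θ (ext' b) = 0 := by
    rw [h1]
    apply Finset.sum_eq_zero
    intro c _
    have h3 : compH h₁ h₂ U₁ χ₁ U₂ χ₂ (o₁, o₂) Θ c = fun _ => 0 := funext fun p =>
      hcomp (o₁, o₂) Θ hΘk hΘG hΘsw c p
    rw [h3, lc_zero (((curve h₁).prod (curve h₂)).pow n), mul_zero]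
  -- undo the averaging
  have h3 : ∀ a : Fin n → ((curve h₁).prod (curve h₂)).Cycles,
      (∀ i, ∀ g : G, Finsupp.mapDomain (act2 h₁ h₂ V₁ V₂ g.1) (a i) = a i) →
      Finsupp.linearCombination ℤ Φ (ext' a) =
        (Fintype.card (Fin n → G) : k) * Finsupp.linearCombination ℤ ψ (ext' a) := by
    intro a ha
    simp only [Φ]
    rw [lc_sum (((curve h₁).prod (curve h₂)).pow n)]
    have h4 : ∀ g : Fin n → G, Finsupp.linearCombination ℤ
        (fun p : Fin n → Place k F₁ × Place k F₂ => ψ (fun i => act2 h₁ h₂ V₁ V₂ (g i).1 (p i)))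
        (ext' a) = Finsupp.linearCombination ℤ ψ (ext' a) := by
      intro g
      have h5 := mapDomain_ext'' (fun i => act2 h₁ h₂ V₁ V₂ (g i).1) a
      simp only [ha] at h5
      conv_rhs => rw [← h5]
      rw [Finsupp.linearCombination_mapDomain]
      rfl
    rw [Finset.sum_congr rfl (fun g _ => h4 g), Finset.sum_const, Finset.card_univ, nsmul_eq_mul]
  have h4 := lc_alt' (X := (curve h₁).prod (curve h₂)) Φ b
  have h5 : Finsupp.linearCombination ℤ Φ (∑ σ : Equiv.Perm (Fin n),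
      ((Equiv.Perm.sign σ : ℤˣ) : ℤ) • ext' (fun i => b (σ i))) =
      (Fintype.card (Fin n → G) : k) * Finsupp.linearCombination ℤ ψ
        (∑ σ : Equiv.Perm (Fin n), ((Equiv.Perm.sign σ : ℤˣ) : ℤ) • ext' (fun i => b (σ i))) := by
    rw [map_sum, map_sum, Finset.mul_sum]
    refine Finset.sum_congr rfl fun σ _ => ?_
    rw [map_zsmul, map_zsmul, h3 (fun i => b (σ i)) (fun i g => hinv (σ i) g), mul_smul_comm]
  rw [← h4] at h5
  have h6 : (Fintype.card (Fin n → G) : k) ≠ 0 := Nat.cast_ne_zero.mpr Fintype.card_ne_zero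
  have h7 : (Fintype.card (Fin n → G) : k) * Finsupp.linearCombination ℤ ψ
        (∑ σ : Equiv.Perm (Fin n), ((Equiv.Perm.sign σ : ℤˣ) : ℤ) • ext' (fun i => b (σ i))) = 0 := by
    rw [← h5]
    exact h2
  exact (mul_eq_zero.mp h7).resolve_left h6

end alternating

section final

variable {k : Type u} [Field k] [IsAlgClosed k] [CharZero k]
  {F₁ F₂ : Type u} [Field F₁] [Algebra k F₁] [Field F₂] [Algebra k F₂]
  {V₁ : Subgroup (F₁ ≃ₐ[k] F₁)} {V₂ : Subgroup (F₂ ≃ₐ[k] F₂)} [Fintype V₁] [Fintype V₂]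
  (h₁ : IsFunctionField k F₁) (h₂ : IsFunctionField k F₂) (G : Subgroup (V₁ × V₂)) [Fintype G]
  {n : ℕ} {Λ₁ Λ₂ : Type*} [Fintype Λ₁] [Fintype Λ₂]

/-- The subgroups and characters of all types. -/
def allS {V : Type*} [Group V] (X : Λ₁ → SubChar k V) (Y : Λ₂ → SubChar k V) :
    Λ₁ ⊕ Λ₂ × Bool → SubChar k V
  | .inl l => X l
  | .inr (l, false) => Y l
  | .inr (l, true) => (Y l).inv

/-- The coefficients of all types. -/
def allC (c₁ : Λ₁ → k) (c₂ c₃ : Λ₂ → k) : Λ₁ ⊕ Λ₂ × Bool → k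
  | .inl l => c₁ l
  | .inr (l, false) => c₂ l
  | .inr (l, true) => c₃ l

/-- The component of type `c`. -/
noncomputable abbrev compS (X₁ : Λ₁ → SubChar k V₁) (X₂ : Λ₁ → SubChar k V₂)
    (Y₁ : Λ₂ → SubChar k V₁) (Y₂ : Λ₂ → SubChar k V₂) (o : Place k F₁ × Place k F₂)
    (Θ : (Fin n → Place k F₁ × Place k F₂) → k) (c : Fin n → Λ₁ ⊕ Λ₂ × Bool)
    (p : Fin n → Place k F₁ × Place k F₂) : k :=
  compH h₁ h₂ (fun l => (allS X₁ Y₁ l).grp) (fun l => (allS X₁ Y₁ l).char)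
    (fun l => (allS X₂ Y₂ l).grp) (fun l => (allS X₂ Y₂ l).char) o Θ c p

/-- The components of antisymmetric functions which kill rational equivalence vanish. -/
theorem comp_vanishS (X₁ : Λ₁ → SubChar k V₁) (X₂ : Λ₁ → SubChar k V₂)
    (Y₁ : Λ₂ → SubChar k V₁) (Y₂ : Λ₂ → SubChar k V₂) (A₁ α₁ A₂ α₂ : Λ₁ → ℕ)
    (hX₁ : ∀ l, Kind (X₁ l).act (X₁ l).char (A₁ l) (α₁ l))
    (hX₂ : ∀ l, Kind (X₂ l).act (X₂ l).char (A₂ l) (α₂ l))
    (B₁ β₁ B₂ β₂ : Λ₂ → ℕ)
    (hY₁ : ∀ l, Kind (Y₁ l).act (Y₁ l).char (B₁ l) (β₁ l))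
    (hY₂ : ∀ l, Kind (Y₂ l).act (Y₂ l).char (B₂ l) (β₂ l))
    (hn : ∑ l, A₁ l * A₂ l + ∑ l, (B₁ l * B₂ l + β₁ l * β₂ l) < n)
    (o : Place k F₁ × Place k F₂)
    (Θ : (Fin n → Place k F₁ × Place k F₂) → k)
    (hΘ : Kills (((curve h₁).prod (curve h₂)).pow n) Θ)
    (hsw : ∀ i j, i ≠ j → ∀ p, Θ (fun l => p (Equiv.swap i j l)) = - Θ p)
    (c : Fin n → Λ₁ ⊕ Λ₂ × Bool) (p : Fin n → Place k F₁ × Place k F₂) :
    compS h₁ h₂ X₁ X₂ Y₁ Y₂ o Θ c p = 0 := by
  classical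
  have hkill := compH_kills h₁ h₂ (fun l => (allS X₁ Y₁ l).grp) (fun l => (allS X₁ Y₁ l).char)
    (fun l => (allS X₂ Y₂ l).grp) (fun l => (allS X₂ Y₂ l).char) o Θ c hΘ
  set θ := compH h₁ h₂ (fun l => (allS X₁ Y₁ l).grp) (fun l => (allS X₁ Y₁ l).char)
    (fun l => (allS X₂ Y₂ l).grp) (fun l => (allS X₂ Y₂ l).char) o Θ c with hθ
  have hl : ∀ (i : Fin n) (l : Λ₁ ⊕ Λ₂ × Bool) (_ : c i = l) (w : (allS X₁ Y₁ l).grp)
      (p : Fin n → Place k F₁ × Place k F₂),
      θ (update p i (act h₁ ((allS X₁ Y₁ l).act w) (p i).1, (p i).2)) =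
      ((allS X₁ Y₁ l).char w : k) * θ p := by
    intro i l hc w p
    subst hc
    exact compH_left h₁ h₂ (fun l => (allS X₁ Y₁ l).grp) (fun l => (allS X₁ Y₁ l).char)
      (fun l => (allS X₂ Y₂ l).grp) (fun l => (allS X₂ Y₂ l).char) o Θ c i w p
  have hr : ∀ (i : Fin n) (l : Λ₁ ⊕ Λ₂ × Bool) (_ : c i = l) (w : (allS X₂ Y₂ l).grp)
      (p : Fin n → Place k F₁ × Place k F₂),
      θ (update p i ((p i).1, act h₂ ((allS X₂ Y₂ l).act w) (p i).2)) =
      ((allS X₂ Y₂ l).char w : k) * θ p := by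
    intro i l hc w p
    subst hc
    exact compH_right h₁ h₂ (fun l => (allS X₁ Y₁ l).grp) (fun l => (allS X₁ Y₁ l).char)
      (fun l => (allS X₂ Y₂ l).grp) (fun l => (allS X₂ Y₂ l).char) o Θ c i w p
  have hz₁ : ∀ (i : Fin n) (l : Λ₁ ⊕ Λ₂ × Bool) (_ : c i = l), (allS X₁ Y₁ l).char = 1 →
      ∀ (p : Fin n → Place k F₁ × Place k F₂), (p i).1 = o.1 → θ p = 0 := by
    intro i l hc hX p hp
    subst hc
    exact compH_zero_left h₁ h₂ (fun l => (allS X₁ Y₁ l).grp) (fun l => (allS X₁ Y₁ l).char)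
      (fun l => (allS X₂ Y₂ l).grp) (fun l => (allS X₂ Y₂ l).char) o Θ c i hX p hp
  have hz₂ : ∀ (i : Fin n) (l : Λ₁ ⊕ Λ₂ × Bool) (_ : c i = l), (allS X₂ Y₂ l).char = 1 →
      ∀ (p : Fin n → Place k F₁ × Place k F₂), (p i).2 = o.2 → θ p = 0 := by
    intro i l hc hX p hp
    subst hc
    exact compH_zero_right h₁ h₂ (fun l => (allS X₁ Y₁ l).grp) (fun l => (allS X₁ Y₁ l).char)
      (fun l => (allS X₂ Y₂ l).grp) (fun l => (allS X₂ Y₂ l).char) o Θ c i hX p hp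
  by_contra hne
  obtain ⟨B, B', hBB, ⟨q, hq⟩, ⟨q', hq'⟩⟩ := rep c θ (fun i j hij hc p =>
    compH_swap h₁ h₂ (fun l => (allS X₁ Y₁ l).grp) (fun l => (allS X₁ Y₁ l).char)
      (fun l => (allS X₂ Y₂ l).grp) (fun l => (allS X₂ Y₂ l).char) o Θ c hsw i j hij hc p)
    ⟨p, hne⟩
  -- bounds for single types
  have hLk : ∀ (l : Λ₁ ⊕ Λ₂ × Bool) (M M' : ℕ),
      Kind (allS X₁ Y₁ l).act (allS X₁ Y₁ l).char M M' →
      (B.filter (fun i => c i = l)).card ≤ M := by
    intro l M M' hM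
    by_contra hcon
    push Not at hcon
    obtain ⟨J, hJ, hJc⟩ := Finset.exists_subset_card_eq (Nat.succ_le_of_lt hcon)
    have hJ1 : ∀ i ∈ J, c i = l := fun i hi => (Finset.mem_filter.mp (hJ hi)).2
    have hJ2 : J ⊆ B := fun i hi => (Finset.mem_filter.mp (hJ hi)).1
    apply hq
    refine symm_mono c hJ2 (fun x : Fin n → Place k F₁ => θ (fun i => (x i, (q i).2))) ?_
      (fun i => (q i).1)
    intro x
    rw [permTy_const c J (fun i hi j hj => by rw [hJ1 i hi, hJ1 j hj])]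
    exact side_left h₁ h₂ hkill hM o.1 J hJc (fun i hi w p => hl i l (hJ1 i hi) w p)
      (fun hχ i hi p hp => hz₁ i l (hJ1 i hi) hχ p hp) (fun i => (x i, (q i).2))
  have hRk : ∀ (l : Λ₁ ⊕ Λ₂ × Bool) (M M' : ℕ),
      Kind (allS X₂ Y₂ l).act (allS X₂ Y₂ l).char M M' →
      (B'.filter (fun i => c i = l)).card ≤ M := by
    intro l M M' hM
    by_contra hcon
    push Not at hcon
    obtain ⟨J, hJ, hJc⟩ := Finset.exists_subset_card_eq (Nat.succ_le_of_lt hcon)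
    have hJ1 : ∀ i ∈ J, c i = l := fun i hi => (Finset.mem_filter.mp (hJ hi)).2
    have hJ2 : J ⊆ B' := fun i hi => (Finset.mem_filter.mp (hJ hi)).1
    apply hq'
    refine symm_mono c hJ2 (fun x : Fin n → Place k F₂ => θ (fun i => ((q' i).1, x i))) ?_
      (fun i => (q' i).2)
    intro x
    rw [permTy_const c J (fun i hi j hj => by rw [hJ1 i hi, hJ1 j hj])]
    exact side_right h₁ h₂ hkill hM o.2 J hJc (fun i hi w p => hr i l (hJ1 i hi) w p)
      (fun hχ i hi p hp => hz₂ i l (hJ1 i hi) hχ p hp) (fun i => ((q' i).1, x i))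
  -- bounds for pairs
  have hset : ∀ (A : Finset (Fin n)) (l : Λ₂) (N : ℕ),
      N < (A.filter (fun i => c i = .inr (l, false))).card +
        (A.filter (fun i => c i = .inr (l, true))).card →
      ∃ J : Finset (Fin n), J ⊆ A ∧ J.card = N + 1 ∧ ∀ i ∈ J, ∃ b, c i = .inr (l, b) := by
    intro A l N h
    have h1 : (A.filter (fun i => c i = .inr (l, false))).card +
        (A.filter (fun i => c i = .inr (l, true))).card =
        (A.filter (fun i => c i = .inr (l, false)) ∪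
          A.filter (fun i => c i = .inr (l, true))).card := by
      rw [Finset.card_union_of_disjoint]
      rw [Finset.disjoint_filter]
      intro i _ h2 h3
      rw [h2] at h3
      simp at h3
    rw [h1] at h
    obtain ⟨J, hJ, hJc⟩ := Finset.exists_subset_card_eq (Nat.succ_le_of_lt h)
    refine ⟨J, ?_, hJc, ?_⟩
    · intro i hi
      have := hJ hi
      rw [Finset.mem_union, Finset.mem_filter, Finset.mem_filter] at this
      tauto
    · intro i hi
      have := hJ hi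
      rw [Finset.mem_union, Finset.mem_filter, Finset.mem_filter] at this
      rcases this with h2 | h2
      · exact ⟨_, h2.2⟩
      · exact ⟨_, h2.2⟩
  have hty : ∀ (l : Λ₂) (J : Finset (Fin n)), (∀ i ∈ J, ∃ b, c i = .inr (l, b)) →
      ∃ ty : Fin n → Bool, (∀ i ∈ J, c i = .inr (l, ty i)) ∧ permTy c J = permTy ty J := by
    intro l J hJ
    choose! ty hty using hJ
    refine ⟨ty, hty, permTy_congr c ty J (fun i hi j hj => ?_)⟩
    rw [hty i hi, hty j hj]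
    simp
  have hXb : ∀ {V : Type u} [Group V] (X : Λ₁ → SubChar k V) (Y : Λ₂ → SubChar k V) (l : Λ₂)
      (b : Bool) (w : (Y l).grp),
      ((allS X Y (.inr (l, b))).char ⟨w.1, by cases b <;> exact w.2⟩ : kˣ) =
        (Y l).char w ^ exb b := by
    intro V _ X Y l b w
    cases b
    · change (Y l).char w = (Y l).char w ^ (1 : ℤ)
      rw [zpow_one]
    · change ((Y l).char w)⁻¹ = (Y l).char w ^ (-1 : ℤ)
      rw [zpow_neg_one]
  have hLf : ∀ (l : Λ₂) (N : ℕ), Full (Y₁ l).act (Y₁ l).char N →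
      (B.filter (fun i => c i = .inr (l, false))).card +
        (B.filter (fun i => c i = .inr (l, true))).card ≤ N := by
    intro l N hF
    by_contra hcon
    push Not at hcon
    obtain ⟨J, hJ2, hJc, hJ1⟩ := hset B l N hcon
    obtain ⟨ty, hty1, hty2⟩ := hty l J hJ1
    apply hq
    refine symm_mono c hJ2 (fun x : Fin n → Place k F₁ => θ (fun i => (x i, (q i).2))) ?_
      (fun i => (q i).1)
    intro x
    rw [hty2]
    exact pair_left h₁ h₂ hkill hF J hJc ty (fun i hi w p => by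
      rw [← hXb X₁ Y₁ l (ty i) w]
      have h0 := hl i (.inr (l, ty i)) (hty1 i hi) ⟨w.1, by
        cases ty i <;> exact w.2⟩ p
      exact h0) (fun i => (x i, (q i).2))
  have hRf : ∀ (l : Λ₂) (N : ℕ), Full (Y₂ l).act (Y₂ l).char N →
      (B'.filter (fun i => c i = .inr (l, false))).card +
        (B'.filter (fun i => c i = .inr (l, true))).card ≤ N := by
    intro l N hF
    by_contra hcon
    push Not at hcon
    obtain ⟨J, hJ2, hJc, hJ1⟩ := hset B' l N hcon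
    obtain ⟨ty, hty1, hty2⟩ := hty l J hJ1
    apply hq'
    refine symm_mono c hJ2 (fun x : Fin n → Place k F₂ => θ (fun i => ((q' i).1, x i))) ?_
      (fun i => (q' i).2)
    intro x
    rw [hty2]
    exact pair_right h₁ h₂ hkill hF J hJc ty (fun i hi w p => by
      rw [← hXb X₂ Y₂ l (ty i) w]
      have h0 := hr i (.inr (l, ty i)) (hty1 i hi) ⟨w.1, by
        cases ty i <;> exact w.2⟩ p
      exact h0) (fun i => ((q' i).1, x i))
  -- the count
  have h1 : n = ∑ l : Λ₁ ⊕ Λ₂ × Bool, (Finset.univ.filter (fun i => c i = l)).card := by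
    have h := Finset.card_eq_sum_card_fiberwise (f := c) (s := Finset.univ) (t := Finset.univ)
      (fun _ _ => Finset.mem_univ _)
    rwa [Finset.card_univ, Fintype.card_fin] at h
  have h2 : ∑ l : Λ₁ ⊕ Λ₂ × Bool, (Finset.univ.filter (fun i => c i = l)).card ≤
      ∑ l : Λ₁ ⊕ Λ₂ × Bool, (B.filter (fun i => c i = l)).card *
        (B'.filter (fun i => c i = l)).card := by
    apply Finset.sum_le_sum
    intro l _
    refine (le_of_eq ?_).trans ((hBB l).trans (le_of_eq ?_))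
    · congr!
    · congr!
  rw [← h1, Fintype.sum_sum_type, Fintype.sum_prod_type] at h2
  have h3 : ∑ l : Λ₁, (B.filter (fun i => c i = .inl l)).card *
      (B'.filter (fun i => c i = .inl l)).card ≤ ∑ l, A₁ l * A₂ l :=
    Finset.sum_le_sum (fun l _ =>
      Nat.mul_le_mul (hLk (.inl l) _ _ (hX₁ l)) (hRk (.inl l) _ _ (hX₂ l)))
  have h4 : ∑ l : Λ₂, ∑ b : Bool, (B.filter (fun i => c i = .inr (l, b))).card *
      (B'.filter (fun i => c i = .inr (l, b))).card ≤ ∑ l, (B₁ l * B₂ l + β₁ l * β₂ l) := by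
    apply Finset.sum_le_sum
    intro l _
    rw [Fintype.sum_bool]
    have e1 := hLk (.inr (l, false)) _ _ (hY₁ l)
    have e2 := hLk (.inr (l, true)) _ _ ((hY₁ l).inv h₁)
    have e3 := hRk (.inr (l, false)) _ _ (hY₂ l)
    have e4 := hRk (.inr (l, true)) _ _ ((hY₂ l).inv h₂)
    have e5 : (B.filter (fun i => c i = .inr (l, true))).card +
        (B.filter (fun i => c i = .inr (l, false))).card ≤ B₁ l + β₁ l := by
      rcases (hY₁ l).full h₁ with h | h
      · omega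
      · have := hLf l _ h
        omega
    have e6 : (B'.filter (fun i => c i = .inr (l, true))).card +
        (B'.filter (fun i => c i = .inr (l, false))).card ≤ B₂ l + β₂ l := by
      rcases (hY₂ l).full h₂ with h | h
      · omega
      · have := hRf l _ h
        omega
    exact pair_count e2 e1 e5 e4 e3 e6
  omega

theorem alternatingS (X₁ : Λ₁ → SubChar k V₁) (X₂ : Λ₁ → SubChar k V₂)
    (Y₁ : Λ₂ → SubChar k V₁) (Y₂ : Λ₂ → SubChar k V₂) (hdec : Decomposes G X₁ X₂ Y₁ Y₂)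
    (A₁ α₁ A₂ α₂ : Λ₁ → ℕ)
    (hX₁ : ∀ l, Kind (X₁ l).act (X₁ l).char (A₁ l) (α₁ l))
    (hX₂ : ∀ l, Kind (X₂ l).act (X₂ l).char (A₂ l) (α₂ l))
    (B₁ β₁ B₂ β₂ : Λ₂ → ℕ)
    (hY₁ : ∀ l, Kind (Y₁ l).act (Y₁ l).char (B₁ l) (β₁ l))
    (hY₂ : ∀ l, Kind (Y₂ l).act (Y₂ l).char (B₂ l) (β₂ l))
    (hn : ∑ l, A₁ l * A₂ l + ∑ l, (B₁ l * B₂ l + β₁ l * β₂ l) < n)
    (b : Fin n → ((curve h₁).prod (curve h₂)).Cycles)
    (hb : ∀ i, AlbaneseTrivial (curve h₁) (curve h₂) (b i))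
    (hinv : ∀ i, ∀ g : G, Finsupp.mapDomain (act2 h₁ h₂ V₁ V₂ g.1) (b i) = b i) :
    cl (((curve h₁).prod (curve h₂)).pow n) (∑ σ : Equiv.Perm (Fin n),
      ((Equiv.Perm.sign σ : ℤˣ) : ℤ) • ext' (fun i => b (σ i))) = 0 := by
  obtain ⟨c₁, c₂, c₃, hreg⟩ := hdec
  refine alternating_of_compH h₁ h₂ G (fun l => (allS X₁ Y₁ l).grp)
    (fun l => (allS X₁ Y₁ l).char) (fun l => (allS X₂ Y₂ l).grp) (fun l => (allS X₂ Y₂ l).char)
    (allC c₁ c₂ c₃) ?_ ?_ b hb hinv
  · intro v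
    rw [← hreg v, Fintype.sum_sum_type, Fintype.sum_prod_type]
    congr 1
    apply Finset.sum_congr rfl
    intro l _
    rw [Fintype.sum_bool, add_comm]
    rfl
  · intro o Θ hΘ hG hsw c p
    exact comp_vanishS h₁ h₂ X₁ X₂ Y₁ Y₂ A₁ α₁ A₂ α₂ hX₁ hX₂ B₁ β₁ B₂ β₂ hY₁ hY₂ hn o Θ hΘ hsw
      c p

end final

end BQ
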